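import Pool.Agent.Lib.MP_baf44c_co.FB.Cyc

/-!
Cassels' identity and the parametrisation of the primitive roots of order `p M`.
-/

set_option autoImplicit false

namespace Pool.Agent.Lib.MP_baf44c_co.FB

open Polynomial

private theorem parseval {p : ℕ} [NeZero p] (c : ZMod p → ℂ) :
    ∑ j : ZMod p, ‖∑ γ : ZMod p, ZMod.stdAddChar (j * γ) * c γ‖ ^ 2 =
      p * ∑ γ : ZMod p, ‖c γ‖ ^ 2 := by
  have h1 : ((∑ j : ZMod p, ‖∑ γ : ZMod p, ZMod.stdAddChar (j * γ) * c γ‖ ^ 2 : ℝ) : ℂ)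
      = ((p * ∑ γ : ZMod p, ‖c γ‖ ^ 2 : ℝ) : ℂ) := by
    push_cast
    simp only [← Complex.mul_conj']
    have h2 : ∀ j : ZMod p, (∑ γ : ZMod p, ZMod.stdAddChar (j * γ) * c γ) *
        (starRingEnd ℂ) (∑ γ : ZMod p, ZMod.stdAddChar (j * γ) * c γ) =
        ∑ γ : ZMod p, ∑ δ : ZMod p, (c γ * (starRingEnd ℂ) (c δ)) *
          ZMod.stdAddChar (j * (γ - δ)) := by
      intro j
      rw [map_sum, Finset.sum_mul_sum]
      refine Finset.sum_congr rfl fun γ _ => Finset.sum_congr rfl fun δ _ => ?_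
      rw [map_mul (starRingEnd ℂ), ← AddChar.map_neg_eq_conj, mul_sub, sub_eq_add_neg,
        AddChar.map_add_eq_mul]
      ring
    simp only [h2]
    rw [Finset.sum_comm, Finset.mul_sum]
    refine Finset.sum_congr rfl fun γ _ => ?_
    rw [Finset.sum_comm]
    have h3 : ∀ δ : ZMod p, ∑ j : ZMod p, (c γ * (starRingEnd ℂ) (c δ)) *
        ZMod.stdAddChar (j * (γ - δ)) = if γ = δ then
          (p : ℂ) * (c γ * (starRingEnd ℂ) (c γ)) else 0 := by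
      intro δ
      rw [← Finset.mul_sum, AddChar.sum_mulShift _ (ZMod.isPrimitive_stdAddChar p)]
      by_cases h : γ = δ
      · subst h
        simp [ZMod.card, mul_comm]
      · simp [h, sub_eq_zero]
    simp only [h3]
    simp
  exact_mod_cast h1

/-- Cassels: `∑_{j ≠ 0} ‖∑ γ, χ(jγ) c γ‖² = p ∑ ‖c γ‖² - ‖∑ c γ‖² = (1/2) ∑∑ ‖c γ - c δ‖²`. -/
theorem cassels {p : ℕ} [NeZero p] (c : ZMod p → ℂ) :
    ∑ j ∈ Finset.univ.filter (fun j : ZMod p => j ≠ 0),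
      ‖∑ γ : ZMod p, ZMod.stdAddChar (j * γ) * c γ‖ ^ 2 =
      (1 / 2) * ∑ γ : ZMod p, ∑ δ : ZMod p, ‖c γ - c δ‖ ^ 2 := by
  have h1 := parseval c
  have h2 : ∑ j : ZMod p, ‖∑ γ : ZMod p, ZMod.stdAddChar (j * γ) * c γ‖ ^ 2 =
      ∑ j ∈ Finset.univ.filter (fun j : ZMod p => j ≠ 0),
      ‖∑ γ : ZMod p, ZMod.stdAddChar (j * γ) * c γ‖ ^ 2 + ‖∑ γ : ZMod p, c γ‖ ^ 2 := by
    rw [← Finset.sum_filter_add_sum_filter_not Finset.univ (fun j : ZMod p => j ≠ 0)]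
    congr 1
    have : (Finset.univ.filter fun j : ZMod p => ¬ j ≠ 0) = {0} := by
      ext j; simp
    rw [this, Finset.sum_singleton]
    simp
  have h3 : ((∑ γ : ZMod p, ∑ δ : ZMod p, ‖c γ - c δ‖ ^ 2 : ℝ) : ℂ) =
      ((2 * (p * ∑ γ : ZMod p, ‖c γ‖ ^ 2) - 2 * ‖∑ γ : ZMod p, c γ‖ ^ 2 : ℝ) : ℂ) := by
    push_cast
    simp only [← Complex.mul_conj']
    have e1 : ∀ γ δ : ZMod p, (c γ - c δ) * (starRingEnd ℂ) (c γ - c δ) =
        c γ * (starRingEnd ℂ) (c γ) + c δ * (starRingEnd ℂ) (c δ) -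
          c γ * (starRingEnd ℂ) (c δ) - (starRingEnd ℂ) (c γ) * c δ := by
      intro γ δ
      rw [map_sub]; ring
    simp only [e1, Finset.sum_sub_distrib, Finset.sum_add_distrib, Finset.sum_const,
      Finset.card_univ, ZMod.card, nsmul_eq_mul, ← Finset.mul_sum, ← Finset.sum_mul, map_sum]
    ring
  have h4 : ∑ γ : ZMod p, ∑ δ : ZMod p, ‖c γ - c δ‖ ^ 2 =
      2 * (p * ∑ γ : ZMod p, ‖c γ‖ ^ 2) - 2 * ‖∑ γ : ZMod p, c γ‖ ^ 2 := by
    exact_mod_cast h3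
  rw [h4]
  linarith

/-- A vector whose nontrivial Fourier coefficients vanish is constant (from `cassels`). -/
theorem const_of_fourier {p : ℕ} [NeZero p] (c : ZMod p → ℂ)
    (h : ∀ j : ZMod p, j ≠ 0 → ∑ γ : ZMod p, ZMod.stdAddChar (j * γ) * c γ = 0) (γ δ : ZMod p) :
    c γ = c δ := by
  have h1 := cassels c
  have h2 : ∑ j ∈ Finset.univ.filter (fun j : ZMod p => j ≠ 0),
      ‖∑ γ : ZMod p, ZMod.stdAddChar (j * γ) * c γ‖ ^ 2 = 0 := by
    refine Finset.sum_eq_zero fun j hj => ?_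
    rw [h j (Finset.mem_filter.1 hj).2]
    simp
  rw [h2] at h1
  have h3 : ∑ γ : ZMod p, ∑ δ : ZMod p, ‖c γ - c δ‖ ^ 2 = 0 := by linarith
  rw [Finset.sum_eq_zero_iff_of_nonneg
    (fun γ _ => Finset.sum_nonneg fun δ _ => by positivity)] at h3
  have h4 := h3 γ (Finset.mem_univ _)
  rw [Finset.sum_eq_zero_iff_of_nonneg (fun δ _ => by positivity)] at h4
  have h5 := h4 δ (Finset.mem_univ _)
  have h6 : ‖c γ - c δ‖ = 0 := by
    simpa using h5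
  exact sub_eq_zero.1 (norm_eq_zero.1 h6)

private theorem std_prim {p : ℕ} (hp : p.Prime) [NeZero p] {j : ZMod p} (hj : j ≠ 0) :
    IsPrimitiveRoot (ZMod.stdAddChar j : ℂ) p := by
  have : Fact p.Prime := ⟨hp⟩
  have h1 : (ZMod.stdAddChar j : ℂ) ^ p = 1 := by
    rw [← AddChar.map_nsmul_eq_pow]
    simp
  have h2 : (ZMod.stdAddChar j : ℂ) ≠ 1 := by
    intro h
    rw [← (ZMod.stdAddChar (N := p)).map_zero_eq_one] at h
    exact hj (ZMod.injective_stdAddChar h)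
  have h3 : orderOf (ZMod.stdAddChar j : ℂ) = p := orderOf_eq_prime h1 h2
  have h4 := IsPrimitiveRoot.orderOf (ZMod.stdAddChar j : ℂ)
  rwa [h3] at h4

/-- For a prime `p` not dividing `M`: products of a nontrivial `p`-th root of unity and a primitive
`M`-th root of unity are primitive of order `p M`. -/
theorem mul_mem_prim' {p M : ℕ} (hp : p.Prime) [NeZero p] (hM : 0 < M) (hpM : ¬ p ∣ M)
    {j : ZMod p} (hj : j ≠ 0) {β : ℂ} (hβ : β ∈ primitiveRoots M ℂ) :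
    ZMod.stdAddChar j * β ∈ primitiveRoots (p * M) ℂ := by
  rw [mem_primitiveRoots (Nat.mul_pos hp.pos hM)]
  rw [mem_primitiveRoots hM] at hβ
  have h1 := std_prim hp hj
  have hc : Nat.Coprime p M := (Nat.Prime.coprime_iff_not_dvd hp).2 hpM
  have h2 : orderOf ((ZMod.stdAddChar j : ℂ) * β) = p * M := by
    rw [(Commute.all _ _).orderOf_mul_eq_mul_orderOf_of_coprime]
    · rw [← h1.eq_orderOf, ← hβ.eq_orderOf]
    · rw [← h1.eq_orderOf, ← hβ.eq_orderOf]; exact hc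
  rw [← h2]
  exact IsPrimitiveRoot.orderOf _

/-- ... and every primitive root of order `p M` is of this form. -/
theorem exists_mul_eq {p M : ℕ} (hp : p.Prime) [NeZero p] (hM : 0 < M) (hpM : ¬ p ∣ M)
    {ζ : ℂ} (hζ : ζ ∈ primitiveRoots (p * M) ℂ) :
    ∃ j : ZMod p, j ≠ 0 ∧ ∃ β ∈ primitiveRoots M ℂ, ζ = ZMod.stdAddChar j * β := by
  have : Fact p.Prime := ⟨hp⟩
  rw [mem_primitiveRoots (Nat.mul_pos hp.pos hM)] at hζ
  have hc : Nat.Coprime p M := (Nat.Prime.coprime_iff_not_dvd hp).2 hpM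
  -- a p + b M = 1
  have hb : (Int.gcd (p : ℤ) (M : ℤ) : ℤ) = p * Int.gcdA p M + M * Int.gcdB p M :=
    Int.gcd_eq_gcd_ab p M
  have hg : (Int.gcd (p : ℤ) (M : ℤ)) = 1 := by
    simpa [Int.gcd_natCast_natCast] using hc
  set a := Int.gcdA p M
  set b := Int.gcdB p M
  have hab : (p : ℤ) * a + M * b = 1 := by rw [← hb, hg]; simp
  have hζ0 : ζ ≠ 0 := hζ.ne_zero (Nat.mul_pos hp.pos hM).ne'
  have hζM : IsPrimitiveRoot (ζ ^ M) p := hζ.pow (Nat.mul_pos hp.pos hM) (by ring)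
  have hζp : IsPrimitiveRoot (ζ ^ p) M := hζ.pow (Nat.mul_pos hp.pos hM) rfl
  have h1 : IsPrimitiveRoot ((ζ ^ M) ^ b) p := by
    refine hζM.zpow_of_gcd_eq_one b ?_
    rw [← Int.isCoprime_iff_gcd_eq_one]
    exact ⟨M, a, by linarith [hab, mul_comm (M : ℤ) b, mul_comm (p : ℤ) a]⟩
  have h2 : IsPrimitiveRoot ((ζ ^ p) ^ a) M := by
    refine hζp.zpow_of_gcd_eq_one a ?_
    rw [← Int.isCoprime_iff_gcd_eq_one]
    exact ⟨p, b, by linarith [hab, mul_comm (M : ℤ) b, mul_comm (p : ℤ) a]⟩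
  have h3 : ζ = (ζ ^ M) ^ b * (ζ ^ p) ^ a := by
    rw [← zpow_natCast ζ M, ← zpow_natCast ζ p, ← zpow_mul, ← zpow_mul, ← zpow_add₀ hζ0,
      show (M : ℤ) * b + p * a = 1 by linarith, zpow_one]
  -- the first factor is `stdAddChar j`
  have h5 : IsPrimitiveRoot (ZMod.stdAddChar (1 : ZMod p) : ℂ) p := std_prim hp one_ne_zero
  obtain ⟨i, -, hi⟩ := h5.eq_pow_of_pow_eq_one h1.pow_eq_one
  have hi' : (ZMod.stdAddChar ((i : ZMod p)) : ℂ) = (ζ ^ M) ^ b := by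
    rw [← hi, ← AddChar.map_nsmul_eq_pow]
    simp
  refine ⟨(i : ZMod p), ?_, (ζ ^ p) ^ a, ?_, ?_⟩
  · intro h0
    rw [h0, AddChar.map_zero_eq_one] at hi'
    have := h1.ne_one hp.one_lt
    exact this hi'.symm
  · rw [mem_primitiveRoots hM]; exact h2
  · rw [hi']; exact h3

end Pool.Agent.Lib.MP_baf44c_co.FB
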