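import Pool.Agent.Lib.MP_baf44c_co.FB.Defs

/-!
Pigeonhole: a multiplier which makes finitely many residues small.
-/

set_option autoImplicit false

namespace Pool.Agent.Lib.MP_baf44c_co.FB

/-- Uniqueness of the balanced representative. -/
theorem valMinAbs_eq {n : ℕ} [NeZero n] (c : ZMod n) (e : ℤ) (h : (e : ZMod n) = c)
    (he : 2 * |e| < n) : c.valMinAbs = e := by
  rw [ZMod.valMinAbs_spec]
  refine ⟨h.symm, ?_⟩
  have h2 : |e| * 2 = |e * 2| := by rw [abs_mul]; norm_num
  have h3 : |e * 2| < n := by rw [← h2]; linarith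
  have h4 := abs_lt.mp h3
  exact ⟨h4.1, h4.2.le⟩

/-- Dirichlet. For `q = 0, .., 4 ^ #T` consider the function `t ↦ ⌊4 (q t).val / n⌋` from `T` to
`{0,1,2,3}`; two values `q₁ < q₂` of `q` give the same function, and `q = q₂ - q₁` works:
`4 |(q₂ t).val - (q₁ t).val| < n` for `t ∈ T`, and `0 < q ≤ 4 ^ #T < addOrderOf u`, so `q u ≠ 0`. -/
theorem exists_mul {n : ℕ} [NeZero n] (T : Finset (ZMod n)) (u : ZMod n)
    (hu : 4 ^ T.card < addOrderOf u) :
    ∃ q : ZMod n, q * u ≠ 0 ∧ ∀ t ∈ T, 4 * |(q * t).valMinAbs| < n := by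
  classical
  have hn : 0 < n := Nat.pos_of_ne_zero (NeZero.ne n)
  have hlt : ∀ (q : ℕ) (t : ZMod n), 4 * ((q : ZMod n) * t).val / n < 4 := by
    intro q t
    rw [Nat.div_lt_iff_lt_mul hn]
    have := ZMod.val_lt ((q : ZMod n) * t)
    omega
  let f : ℕ → (T → Fin 4) := fun q t => ⟨4 * ((q : ZMod n) * (t : ZMod n)).val / n, hlt q t⟩
  have hcard : (Finset.univ : Finset (T → Fin 4)).card < (Finset.range (4 ^ T.card + 1)).card := by
    rw [Finset.card_range, Finset.card_univ, Fintype.card_fun, Fintype.card_fin,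
      Fintype.card_coe]
    omega
  obtain ⟨a, ha, b, hb, hab, hfab⟩ := Finset.exists_ne_map_eq_of_card_lt_of_maps_to hcard
    (f := f) (fun x _ => Finset.mem_coe.mpr (Finset.mem_univ _))
  -- symmetric choice
  have key : ∀ a b : ℕ, a < b → b ≤ 4 ^ T.card → f a = f b →
      ∃ q : ZMod n, q * u ≠ 0 ∧ ∀ t ∈ T, 4 * |(q * t).valMinAbs| < n := by
    intro a b hlt' hb' hf
    refine ⟨((b - a : ℕ) : ZMod n), ?_, ?_⟩
    · intro h0
      rw [← nsmul_eq_mul, ← addOrderOf_dvd_iff_nsmul_eq_zero] at h0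
      have := Nat.le_of_dvd (by omega) h0
      omega
    · intro t ht
      have h1 : 4 * ((a : ZMod n) * t).val / n = 4 * ((b : ZMod n) * t).val / n := by
        have := congrFun hf ⟨t, ht⟩
        have := congrArg Fin.val this
        exact this
      set x := ((a : ZMod n) * t).val with hx
      set y := ((b : ZMod n) * t).val with hy
      have h2 := Nat.div_add_mod (4 * x) n
      have h3 := Nat.div_add_mod (4 * y) n
      have h4 := Nat.mod_lt (4 * x) hn
      have h5 := Nat.mod_lt (4 * y) hn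
      rw [h1] at h2
      have h6 : 4 * |(y : ℤ) - x| < n := by
        have h2' : (n : ℤ) * ((4 * y / n : ℕ) : ℤ) + ((4 * x % n : ℕ) : ℤ) = 4 * x := by
          exact_mod_cast h2
        have h3' : (n : ℤ) * ((4 * y / n : ℕ) : ℤ) + ((4 * y % n : ℕ) : ℤ) = 4 * y := by
          exact_mod_cast h3
        have h4' : ((4 * x % n : ℕ) : ℤ) < n := by exact_mod_cast h4
        have h5' : ((4 * y % n : ℕ) : ℤ) < n := by exact_mod_cast h5
        have h6' : (0 : ℤ) ≤ ((4 * x % n : ℕ) : ℤ) := by positivity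
        have h7' : (0 : ℤ) ≤ ((4 * y % n : ℕ) : ℤ) := by positivity
        rcases abs_cases ((y : ℤ) - x) with ⟨h8, _⟩ | ⟨h8, _⟩ <;> rw [h8] <;> linarith
      have h7 : (((y : ℤ) - x : ℤ) : ZMod n) = ((b - a : ℕ) : ZMod n) * t := by
        rw [Nat.cast_sub hlt'.le, sub_mul]
        push_cast
        rw [hx, hy, ZMod.natCast_zmod_val, ZMod.natCast_zmod_val]
      have h8 : (((b - a : ℕ) : ZMod n) * t).valMinAbs = (y : ℤ) - x := by
        apply valMinAbs_eq _ _ h7
        have := abs_nonneg ((y : ℤ) - x)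
        linarith
      rw [h8]
      exact h6
  rw [Finset.mem_range] at ha hb
  rcases lt_or_gt_of_ne hab with h | h
  · exact key a b h (by omega) hfab
  · exact key b a h (by omega) hfab.symm

end Pool.Agent.Lib.MP_baf44c_co.FB
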