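import Pool.Agent.Lib.MP_baf44c_co.FB.Defs

/-!
Representatives of a symmetric set modulo sign.
-/

set_option autoImplicit false

namespace Pool.Agent.Lib.MP_baf44c_co.FB

/-- `T = {u, v, t + w, t - w} ∪ R`, where `R` is the set of `γ` with `a γ ≠ 0`, `γ ≠ 0`, off the four
classes, and `2 γ.val ≤ n`. The set of all such `γ` without the last condition has at most `12`
elements; `γ ↦ -γ` maps the ones with `2 γ.val > n` injectively into `R`, and at most one element of
`R` (the one with `2 γ.val = n`) is not in the image, so `#R ≤ 6` and `#T ≤ 10`. -/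
theorem exists_T {n : ℕ} [NeZero n] (a : ZMod n → ℂ) (hsym : ∀ γ, a γ ≠ 0 → a (-γ) ≠ 0)
    (t w u v : ZMod n)
    (hcard : (Finset.univ.filter (fun γ => a γ ≠ 0 ∧ γ ≠ t + w ∧ γ ≠ -(t + w) ∧ γ ≠ t - w ∧
      γ ≠ w - t)).card ≤ 12) :
    ∃ T : Finset (ZMod n), T.card ≤ 10 ∧ u ∈ T ∧ v ∈ T ∧
      ∀ i, a i ≠ 0 → i = 0 ∨ i ∈ T ∨ -i ∈ T := by
  classical
  set S := Finset.univ.filter (fun γ => a γ ≠ 0 ∧ γ ≠ t + w ∧ γ ≠ -(t + w) ∧ γ ≠ t - w ∧
      γ ≠ w - t) with hS
  have hmem : ∀ γ, γ ∈ S ↔ a γ ≠ 0 ∧ γ ≠ t + w ∧ γ ≠ -(t + w) ∧ γ ≠ t - w ∧ γ ≠ w - t := by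
    intro γ
    simp [hS]
  have hneg : ∀ γ, γ ∈ S → -γ ∈ S := by
    intro γ hγ
    rw [hmem] at hγ ⊢
    obtain ⟨h1, h2, h3, h4, h5⟩ := hγ
    refine ⟨hsym γ h1, ?_, ?_, ?_, ?_⟩
    · intro h; exact h3 (by rw [← h, neg_neg])
    · intro h; exact h2 (neg_injective h)
    · intro h; exact h5 (by rw [← neg_neg γ, h, neg_sub])
    · intro h; exact h4 (by rw [← neg_neg γ, h, neg_sub])
  set R := S.filter (fun γ => γ ≠ 0 ∧ 2 * γ.val ≤ n) with hR
  set R0 := R.filter (fun γ => 2 * γ.val ≠ n) with hR0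
  set C := R.filter (fun γ => ¬ 2 * γ.val ≠ n) with hC
  have hCc : C.card ≤ 1 := by
    rw [Finset.card_le_one]
    intro x hx y hy
    have hx' := not_not.mp (Finset.mem_filter.mp hx).2
    have hy' := not_not.mp (Finset.mem_filter.mp hy).2
    exact ZMod.val_injective n (by omega)
  have hsplit : R0.card + C.card = R.card := Finset.card_filter_add_card_filter_not _
  have hdis : Disjoint R (R0.image fun γ => -γ) := by
    rw [Finset.disjoint_left]
    intro x hx hx2
    obtain ⟨y, hy, hyx⟩ := Finset.mem_image.mp hx2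
    have hy1 := (Finset.mem_filter.mp hy).2
    have hy2 := (Finset.mem_filter.mp (Finset.mem_filter.mp hy).1).2
    have hx1 := (Finset.mem_filter.mp hx).2
    have h1 : x.val = n - y.val := by
      rw [← hyx, ZMod.neg_val, if_neg hy2.1]
    have h2 := hx1.2
    have h3 := hy2.2
    have h4 := y.val_lt
    omega
  have hsub : R ∪ (R0.image fun γ => -γ) ⊆ S := by
    intro x hx
    rcases Finset.mem_union.mp hx with h | h
    · exact (Finset.mem_filter.mp h).1
    · obtain ⟨y, hy, rfl⟩ := Finset.mem_image.mp h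
      exact hneg y (Finset.mem_filter.mp (Finset.mem_filter.mp hy).1).1
  have hcard2 := Finset.card_le_card hsub
  rw [Finset.card_union_of_disjoint hdis,
    Finset.card_image_of_injective _ neg_injective] at hcard2
  have hRc : R.card ≤ 6 := by omega
  refine ⟨({u, v, t + w, t - w} : Finset (ZMod n)) ∪ R, ?_, by simp, by simp, ?_⟩
  · have h1 : ({u, v, t + w, t - w} : Finset (ZMod n)).card ≤ 4 := Finset.card_le_four
    have h2 := Finset.card_union_le ({u, v, t + w, t - w} : Finset (ZMod n)) R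
    omega
  · intro i hi
    by_cases h0 : i = 0
    · exact Or.inl h0
    right
    by_cases h1 : i = t + w
    · left; simp [h1]
    by_cases h2 : i = -(t + w)
    · right; rw [h2, neg_neg]; simp
    by_cases h3 : i = t - w
    · left; simp [h3]
    by_cases h4 : i = w - t
    · right; rw [h4, neg_sub]; simp
    have hiS : i ∈ S := (hmem i).mpr ⟨hi, h1, h2, h3, h4⟩
    by_cases h5 : 2 * i.val ≤ n
    · left
      exact Finset.mem_union_right _ (Finset.mem_filter.mpr ⟨hiS, h0, h5⟩)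
    · right
      refine Finset.mem_union_right _ (Finset.mem_filter.mpr ⟨hneg i hiS, neg_ne_zero.mpr h0, ?_⟩)
      rw [ZMod.neg_val, if_neg h0]
      have := i.val_lt
      omega

end Pool.Agent.Lib.MP_baf44c_co.FB
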