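import Pool.Agent.Lib.MP_baf44c_co.FB.Root
import Pool.Agent.Lib.MP_baf44c_co.FB.Dirichlet
import Pool.Agent.Lib.MP_baf44c_co.FB.ExistsT

/-!
Lifting a graded identity `z² = D(x) D(y)` to Laurent polynomials.
-/

set_option autoImplicit false

namespace Pool.Agent.Lib.MP_baf44c_co.FB

private theorem Lift_sg_sum (x r : ℂ) (m : ℤ) :
    6 + x * r ^ m + x⁻¹ * r ^ (-m) = ∑ a ∈ sg, dd a * (x ^ a * r ^ (a * m)) := by
  simp [sg, dd]
  ring

/-- Take `q` from `exists_mul` and `φ i = (q i).valMinAbs`, `Ψ γ = (q γ).valMinAbs`. By `hS`,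
`4 |φ i| < n` whenever `a i ≠ 0` (`(-c).valMinAbs = - c.valMinAbs` for `2 |c.valMinAbs| < n`, by
`valMinAbs_eq`), and the same for `i = u, v`. Hence (`valMinAbs_eq`) `φ i + φ j = Ψ (i + j)` if
`a i ≠ 0` and `a j ≠ 0`, and `p.1 φ u + p.2 φ v = Ψ (p.1 u + p.2 v)` for `p ∈ sg ×ˢ sg`.
For `r ≠ 0` multiply `hid γ` by `r ^ Ψ γ` and sum over `γ`:
`(∑ i, a i r ^ φ i)² = ∑ p ∈ sg ×ˢ sg, dd p.1 dd p.2 x^p.1 y^p.2 r^(p.1 φ u + p.2 φ v)`, which is
`(6 + x r^(φ u) + ..) (6 + y r^(φ v) + ..)`. Apply `root_argument` with `m = φ u ≠ 0`. -/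
theorem lift {n : ℕ} [NeZero n] (T : Finset (ZMod n)) (a : ZMod n → ℂ) (u v : ZMod n) (x y : ℂ)
    (hx : ‖x‖ = 1) (hy : ‖y‖ = 1) (hS : ∀ i, a i ≠ 0 → i = 0 ∨ i ∈ T ∨ -i ∈ T)
    (huT : u ∈ T) (hvT : v ∈ T) (hT : 4 ^ T.card < addOrderOf u)
    (hid : ∀ γ : ZMod n, ∑ i, a i * a (γ - i) =
      ∑ p ∈ (sg ×ˢ sg).filter (fun p => (p.1 : ZMod n) * u + (p.2 : ZMod n) * v = γ),
        dd p.1 * dd p.2 * (x ^ p.1 * y ^ p.2)) :
    y = x ∨ y = x⁻¹ := by
  obtain ⟨q, hqu, hq⟩ := exists_mul T u hT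
  have hn : (0 : ℤ) < n := by exact_mod_cast Nat.pos_of_ne_zero (NeZero.ne n)
  obtain ⟨φ, hφ⟩ : ∃ φ : ZMod n → ℤ, ∀ i, φ i = (q * i).valMinAbs := ⟨_, fun _ => rfl⟩
  have hcast : ∀ i, ((φ i : ℤ) : ZMod n) = q * i := fun i => by
    rw [hφ]
    exact ZMod.coe_valMinAbs _
  have heq : ∀ (i : ZMod n) (e : ℤ), (e : ZMod n) = q * i → 2 * |e| < n → φ i = e := fun i e h1 h2 => by
    rw [hφ]
    exact valMinAbs_eq _ _ h1 h2
  have hneg : ∀ i, 4 * |φ (-i)| < n → 4 * |φ i| < n := by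
    intro i hi
    have h1 : φ i = -φ (-i) := by
      apply heq
      · push_cast
        rw [hcast]
        ring
      · rw [abs_neg]
        have := abs_nonneg (φ (-i))
        omega
    rw [h1, abs_neg]
    exact hi
  have hTs : ∀ i ∈ T, 4 * |φ i| < n := fun i hi => by
    rw [hφ]
    exact hq i hi
  have hsm : ∀ i, a i ≠ 0 → 4 * |φ i| < n := by
    intro i hi
    rcases hS i hi with h1 | h1 | h1
    · subst h1
      have h2 : φ 0 = 0 := heq 0 0 (by simp) (by simpa using hn)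
      rw [h2]
      simpa using hn
    · exact hTs i h1
    · exact hneg i (hTs _ h1)
  have hadd : ∀ i j, 4 * |φ i| < n → 4 * |φ j| < n → φ (i + j) = φ i + φ j := by
    intro i j hi hj
    apply heq
    · push_cast
      rw [hcast, hcast]
      ring
    · have := abs_add_le (φ i) (φ j)
      omega
  have hsgm : ∀ p ∈ sg ×ˢ sg, φ ((p.1 : ZMod n) * u + (p.2 : ZMod n) * v) =
      p.1 * φ u + p.2 * φ v := by
    intro p hp
    have h1 : ∀ z ∈ sg, ∀ w : ℤ, |z * w| ≤ |w| := by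
      intro z hz w
      simp only [sg, Finset.mem_insert, Finset.mem_singleton] at hz
      rcases hz with rfl | rfl | rfl <;> simp
    rw [Finset.mem_product] at hp
    apply heq
    · push_cast
      rw [hcast, hcast]
      ring
    · have h2 := h1 _ hp.1 (φ u)
      have h3 := h1 _ hp.2 (φ v)
      have h4 := hTs u huT
      have h5 := hTs v hvT
      have h6 := abs_add_le (p.1 * φ u) (p.2 * φ v)
      omega
  refine root_argument Finset.univ a φ x y hx hy (φ u) (φ v) ?_ ?_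
  · intro h0
    apply hqu
    rw [← hcast u, h0]
    simp
  · intro r hr
    have e1 : (∑ i, a i * r ^ φ i) ^ 2 = ∑ i, ∑ j, a i * a j * r ^ φ (i + j) := by
      rw [sq, Finset.sum_mul_sum]
      refine Finset.sum_congr rfl fun i _ => Finset.sum_congr rfl fun j _ => ?_
      by_cases hi : a i = 0
      · simp [hi]
      by_cases hj : a j = 0
      · simp [hj]
      rw [hadd i j (hsm i hi) (hsm j hj), zpow_add₀ hr]
      ring
    have e2 : ∀ i, ∑ j, a i * a j * r ^ φ (i + j) = ∑ γ, a i * a (γ - i) * r ^ φ γ := by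
      intro i
      refine Fintype.sum_equiv (Equiv.addLeft i) _ _ fun j => ?_
      simp
    have e3 : ∑ i, ∑ j, a i * a j * r ^ φ (i + j) = ∑ γ, (∑ i, a i * a (γ - i)) * r ^ φ γ := by
      simp_rw [e2]
      rw [Finset.sum_comm]
      refine Finset.sum_congr rfl fun γ _ => ?_
      rw [Finset.sum_mul]
    have e4 : ∑ γ, (∑ i, a i * a (γ - i)) * r ^ φ γ =
        ∑ p ∈ sg ×ˢ sg, dd p.1 * dd p.2 * (x ^ p.1 * y ^ p.2) * r ^ (p.1 * φ u + p.2 * φ v) := by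
      rw [← Finset.sum_fiberwise (sg ×ˢ sg) (fun p => (p.1 : ZMod n) * u + (p.2 : ZMod n) * v)]
      refine Finset.sum_congr rfl fun γ _ => ?_
      rw [hid γ, Finset.sum_mul]
      refine Finset.sum_congr rfl fun p hp => ?_
      rw [Finset.mem_filter] at hp
      rw [← hsgm p hp.1, hp.2]
    rw [e1, e3, e4, Lift_sg_sum, Lift_sg_sum, Finset.sum_mul_sum, Finset.sum_product]
    refine Finset.sum_congr rfl fun c _ => Finset.sum_congr rfl fun d _ => ?_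
    rw [zpow_add₀ hr]
    ring

theorem lift_sym {n : ℕ} [NeZero n] (a : ZMod n → ℂ) (t w : ZMod n) (x y : ℂ)
    (hx : ‖x‖ = 1) (hy : ‖y‖ = 1) (hsym : ∀ γ, a γ ≠ 0 → a (-γ) ≠ 0)
    (hcard : (Finset.univ.filter (fun γ => a γ ≠ 0 ∧ γ ≠ t + w ∧ γ ≠ -(t + w) ∧ γ ≠ t - w ∧
      γ ≠ w - t)).card ≤ 12)
    (hu : 4 ^ 10 < addOrderOf (2 * t))
    (hid : ∀ γ : ZMod n, ∑ i, a i * a (γ - i) =
      ∑ p ∈ (sg ×ˢ sg).filter (fun p => (p.1 : ZMod n) * (2 * t) + (p.2 : ZMod n) * (2 * w) = γ),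
        dd p.1 * dd p.2 * (x ^ p.1 * y ^ p.2)) :
    y = x ∨ y = x⁻¹ := by
  obtain ⟨T, hT, hu', hv', hS⟩ := exists_T a hsym t w (2 * t) (2 * w) hcard
  exact lift T a (2 * t) (2 * w) x y hx hy hS hu' hv'
    (lt_of_le_of_lt (Nat.pow_le_pow_right (by norm_num) hT) hu) hid

end Pool.Agent.Lib.MP_baf44c_co.FB
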