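import Pool.Agent.Lib.MP_baf44c_co.FB.CharSum
import Pool.Agent.Lib.MP_baf44c_co.FB.Cassels
import Pool.Agent.Lib.MP_baf44c_co.FB.Lift

/-!
The case of a prime `p > 4 ^ 10` dividing the order exactly once: last step.
-/

set_option autoImplicit false

namespace Pool.Agent.Lib.MP_baf44c_co.FB

open Polynomial

private theorem norm_char {p : ℕ} [NeZero p] (j : ZMod p) :
    ‖(ZMod.stdAddChar j : ℂ)‖ = 1 := by
  exact AddChar.norm_apply _ _

private theorem star_char {p : ℕ} [NeZero p] (j : ZMod p) :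
    star (ZMod.stdAddChar j : ℂ) = ZMod.stdAddChar (-j) :=
  (AddChar.map_neg_eq_conj _ _).symm

private theorem char_zpow {p : ℕ} [NeZero p] (j : ZMod p) (k : ℤ) :
    (ZMod.stdAddChar j : ℂ) ^ k = ZMod.stdAddChar (j * (k : ZMod p)) := by
  rw [← AddChar.map_zsmul_eq_zpow]
  congr 1
  rw [zsmul_eq_mul, mul_comm]

/-- Convolution: the square of a character sum. -/
private theorem sq_sum_char {p : ℕ} [NeZero p] (V : ZMod p → ℂ) (j : ZMod p) :
    (∑ γ : ZMod p, (ZMod.stdAddChar (j * γ) : ℂ) * V γ) ^ 2 =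
      ∑ γ : ZMod p, (ZMod.stdAddChar (j * γ) : ℂ) * ∑ i, V i * V (γ - i) := by
  rw [sq, Finset.sum_mul_sum]
  have h1 : ∀ γ : ZMod p, (ZMod.stdAddChar (j * γ) : ℂ) * ∑ i, V i * V (γ - i) =
      ∑ i, (ZMod.stdAddChar (j * i) : ℂ) * V i *
        ((ZMod.stdAddChar (j * (γ - i)) : ℂ) * V (γ - i)) := by
    intro γ
    rw [Finset.mul_sum]
    refine Finset.sum_congr rfl fun i _ => ?_
    have : (ZMod.stdAddChar (j * γ) : ℂ) =
        ZMod.stdAddChar (j * i) * ZMod.stdAddChar (j * (γ - i)) := by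
      rw [← AddChar.map_add_eq_mul]
      congr 1
      ring
    rw [this]
    ring
  simp_rw [h1]
  conv_rhs => rw [Finset.sum_comm]
  refine Finset.sum_congr rfl fun i _ => ?_
  exact (Equiv.sum_comp (Equiv.subRight i)
    (fun γ => (ZMod.stdAddChar (j * i) : ℂ) * V i * ((ZMod.stdAddChar (j * γ) : ℂ) * V γ))).symm

/-- Abstract last step. `V γ` are the coefficients at a fixed `β` after subtraction of the majority
value; `j₀ ≠ 0`, `ζ = χ(j₀) β`. -/
theorem cassels_last {p : ℕ} (hp : p.Prime) [NeZero p] (hbig : 4 ^ 10 < p) {τ σ : ℤ}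
    (hu : 2 * (τ : ZMod p) ≠ 0) {β : ℂ} (hβ : ‖β‖ = 1) {j₀ : ZMod p} (hj₀ : j₀ ≠ 0)
    (V : ZMod p → ℂ)
    (hsq : ∀ j : ZMod p, j ≠ 0 → (∑ γ : ZMod p, ZMod.stdAddChar (j * γ) * V γ) ^ 2 =
        D ((ZMod.stdAddChar j * β) ^ (2 * τ)) * D ((ZMod.stdAddChar j * β) ^ (2 * σ)))
    (hcard : (Finset.univ.filter (fun γ => V γ ≠ 0 ∧ γ ≠ (τ : ZMod p) + σ ∧
      γ ≠ -((τ : ZMod p) + σ) ∧ γ ≠ (τ : ZMod p) - σ ∧ γ ≠ (σ : ZMod p) - τ)).card ≤ 12) :
    (ZMod.stdAddChar j₀ * β) ^ (2 * σ) = (ZMod.stdAddChar j₀ * β) ^ (2 * τ) ∨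
    (ZMod.stdAddChar j₀ * β) ^ (2 * σ) = ((ZMod.stdAddChar j₀ * β) ^ (2 * τ))⁻¹ := by
  classical
  have hpc : Fintype.card (ZMod p) = p := ZMod.card p
  have hβ0 : β ≠ 0 := by
    intro h
    rw [h, norm_zero] at hβ
    exact zero_ne_one hβ
  -- the support of `V`
  set B : Finset (ZMod p) := Finset.univ.filter (fun γ => V γ ≠ 0) with hB
  have hBcard : B.card ≤ 16 := by
    have hsub : B ⊆ (Finset.univ.filter (fun γ => V γ ≠ 0 ∧ γ ≠ (τ : ZMod p) + σ ∧
      γ ≠ -((τ : ZMod p) + σ) ∧ γ ≠ (τ : ZMod p) - σ ∧ γ ≠ (σ : ZMod p) - τ)) ∪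
      {(τ : ZMod p) + σ, -((τ : ZMod p) + σ), (τ : ZMod p) - σ, (σ : ZMod p) - τ} := by
      intro γ hγ
      simp only [hB, Finset.mem_filter, Finset.mem_univ, true_and] at hγ
      simp only [Finset.mem_union, Finset.mem_filter, Finset.mem_univ, true_and,
        Finset.mem_insert, Finset.mem_singleton]
      by_cases h1 : γ = (τ : ZMod p) + σ
      · exact Or.inr (Or.inl h1)
      by_cases h2 : γ = -((τ : ZMod p) + σ)
      · exact Or.inr (Or.inr (Or.inl h2))
      by_cases h3 : γ = (τ : ZMod p) - σ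
      · exact Or.inr (Or.inr (Or.inr (Or.inl h3)))
      by_cases h4 : γ = (σ : ZMod p) - τ
      · exact Or.inr (Or.inr (Or.inr (Or.inr h4)))
      exact Or.inl ⟨hγ, h1, h2, h3, h4⟩
    refine le_trans (Finset.card_le_card hsub) (le_trans (Finset.card_union_le _ _) ?_)
    have : ({(τ : ZMod p) + σ, -((τ : ZMod p) + σ), (τ : ZMod p) - σ, (σ : ZMod p) - τ} :
      Finset (ZMod p)).card ≤ 4 := Finset.card_le_four
    omega
  have hV0 : ∀ γ, γ ∉ B → V γ = 0 := by
    intro γ hγ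
    by_contra h
    exact hγ (by simp only [hB, Finset.mem_filter, Finset.mem_univ, true_and]; exact h)
  have hp' : 1000 < p := by norm_num at hbig; omega
  -- a small set has a point outside
  have hout : ∀ A : Finset (ZMod p), A.card ≤ 1000 → ∃ δ, δ ∉ A := by
    intro A hA
    by_contra hcon
    push Not at hcon
    have : A = Finset.univ := Finset.eq_univ_of_forall hcon
    rw [this, Finset.card_univ, hpc] at hA
    omega
  -- (1) symmetry
  have hsymm : ∀ γ, V γ = star (V (-γ)) := by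
    have hF : ∀ j : ZMod p, j ≠ 0 →
        ∑ γ : ZMod p, ZMod.stdAddChar (j * γ) * (V γ - star (V (-γ))) = 0 := by
      intro j hj
      have hμ : ‖(ZMod.stdAddChar j : ℂ) * β‖ = 1 := by
        rw [norm_mul, norm_char, hβ, one_mul]
      have hreal := (real_of_sq hμ (hsq j hj)).1
      rw [star_sum] at hreal
      have h2 : ∑ γ : ZMod p, star ((ZMod.stdAddChar (j * γ) : ℂ) * V γ) =
          ∑ γ : ZMod p, (ZMod.stdAddChar (j * γ) : ℂ) * star (V (-γ)) := by
        rw [← Equiv.sum_comp (Equiv.neg (ZMod p))]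
        refine Finset.sum_congr rfl fun γ _ => ?_
        rw [Equiv.neg_apply, star_mul', star_char]
        congr 2
        ring
      rw [h2] at hreal
      simp_rw [mul_sub]
      rw [Finset.sum_sub_distrib, hreal, sub_self]
    obtain ⟨δ, hδ⟩ := hout (B ∪ B.image (fun x => -x)) (by
      refine le_trans (Finset.card_union_le _ _) ?_
      have := Finset.card_image_le (s := B) (f := fun x => -x)
      omega)
    rw [Finset.mem_union, not_or] at hδ
    have h1 : V δ = 0 := hV0 δ hδ.1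
    have h2 : V (-δ) = 0 := by
      apply hV0
      intro h
      apply hδ.2
      rw [Finset.mem_image]
      exact ⟨-δ, h, neg_neg δ⟩
    intro γ
    have h := const_of_fourier (fun γ => V γ - star (V (-γ))) hF γ δ
    simp only [h1, h2, star_zero, sub_zero] at h
    exact sub_eq_zero.1 h
  -- (2) the graded identity
  set E : ZMod p → ℂ := fun γ =>
    ∑ q ∈ (sg ×ˢ sg).filter (fun q => (q.1 : ZMod p) * (2 * (τ : ZMod p)) +
      (q.2 : ZMod p) * (2 * (σ : ZMod p)) = γ),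
      dd q.1 * dd q.2 * β ^ (q.1 * (2 * τ) + q.2 * (2 * σ)) with hE
  have hconv : ∀ γ, ∑ i, V i * V (γ - i) = E γ := by
    have hF : ∀ j : ZMod p, j ≠ 0 →
        ∑ γ : ZMod p, ZMod.stdAddChar (j * γ) * ((∑ i, V i * V (γ - i)) - E γ) = 0 := by
      intro j hj
      simp_rw [mul_sub]
      rw [Finset.sum_sub_distrib, ← sq_sum_char, hsq j hj, DD_char hβ0, sub_eq_zero]
      have h3 : ∀ γ : ZMod p, (ZMod.stdAddChar (j * γ) : ℂ) * E γ =
          ∑ q ∈ (sg ×ˢ sg).filter (fun q => (q.1 : ZMod p) * (2 * (τ : ZMod p)) +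
            (q.2 : ZMod p) * (2 * (σ : ZMod p)) = γ),
            dd q.1 * dd q.2 * (ZMod.stdAddChar (j * ((q.1 : ZMod p) * (2 * (τ : ZMod p)) +
              (q.2 : ZMod p) * (2 * (σ : ZMod p)))) * β ^ (q.1 * (2 * τ) + q.2 * (2 * σ))) := by
        intro γ
        rw [hE, Finset.mul_sum]
        refine Finset.sum_congr rfl fun q hq => ?_
        rw [(Finset.mem_filter.1 hq).2]
        ring
      simp_rw [h3]
      exact (Finset.sum_fiberwise (sg ×ˢ sg) (fun q : ℤ × ℤ =>
        (q.1 : ZMod p) * (2 * (τ : ZMod p)) + (q.2 : ZMod p) * (2 * (σ : ZMod p))) _).symm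
    obtain ⟨δ, hδ⟩ := hout ((B ×ˢ B).image (fun x => x.1 + x.2) ∪
      (sg ×ˢ sg).image (fun q : ℤ × ℤ => (q.1 : ZMod p) * (2 * (τ : ZMod p)) +
        (q.2 : ZMod p) * (2 * (σ : ZMod p)))) (by
      refine le_trans (Finset.card_union_le _ _) ?_
      have h1 := Finset.card_image_le (s := B ×ˢ B) (f := fun x => x.1 + x.2)
      have h2 := Finset.card_image_le (s := sg ×ˢ sg)
        (f := fun q : ℤ × ℤ => (q.1 : ZMod p) * (2 * (τ : ZMod p)) +
          (q.2 : ZMod p) * (2 * (σ : ZMod p)))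
      rw [Finset.card_product] at h1 h2
      have h3 : sg.card = 3 := by decide
      rw [h3] at h2
      have h4 : B.card * B.card ≤ 16 * 16 := Nat.mul_le_mul hBcard hBcard
      omega)
    rw [Finset.mem_union, not_or] at hδ
    have h1 : ∑ i, V i * V (δ - i) = 0 := by
      refine Finset.sum_eq_zero fun i _ => ?_
      by_cases hi : i ∈ B
      · by_cases hi' : δ - i ∈ B
        · exfalso
          apply hδ.1
          rw [Finset.mem_image]
          exact ⟨(i, δ - i), Finset.mem_product.2 ⟨hi, hi'⟩, by simp⟩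
        · rw [hV0 _ hi', mul_zero]
      · rw [hV0 _ hi, zero_mul]
    have h2 : E δ = 0 := by
      refine Finset.sum_eq_zero fun q hq => ?_
      exfalso
      apply hδ.2
      rw [Finset.mem_image]
      exact ⟨q, (Finset.mem_filter.1 hq).1, (Finset.mem_filter.1 hq).2⟩
    intro γ
    have h := const_of_fourier (fun γ => (∑ i, V i * V (γ - i)) - E γ) hF γ δ
    simp only [h1, h2, sub_zero] at h
    exact sub_eq_zero.1 h
  -- (3)
  have hχ0 : ∀ j : ZMod p, (ZMod.stdAddChar j : ℂ) ≠ 0 := by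
    intro j h
    have := norm_char j
    rw [h, norm_zero] at this
    exact zero_ne_one this
  have hζ : ‖(ZMod.stdAddChar j₀ : ℂ) * β‖ = 1 := by
    rw [norm_mul, norm_char, hβ, one_mul]
  have : Fact p.Prime := ⟨hp⟩
  refine lift_sym (fun γ => ZMod.stdAddChar (j₀ * γ) * V γ) (τ : ZMod p) (σ : ZMod p) _ _
    (by rw [norm_zpow, hζ, one_zpow]) (by rw [norm_zpow, hζ, one_zpow]) ?_ ?_ ?_ ?_
  · intro γ hγ h
    apply hγ
    have h' : V (-γ) = 0 := by
      rcases mul_eq_zero.1 h with h | h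
      · exact absurd h (hχ0 _)
      · exact h
    rw [hsymm γ, h', star_zero, mul_zero]
  · refine le_trans (Finset.card_le_card ?_) hcard
    intro γ hγ
    simp only [Finset.mem_filter, Finset.mem_univ, true_and] at hγ ⊢
    exact ⟨fun h => hγ.1 (by rw [h, mul_zero]), hγ.2⟩
  · rw [addOrderOf_eq_prime (p := p) (by simp) hu]
    exact hbig
  · intro γ
    have h1 : ∑ i, (ZMod.stdAddChar (j₀ * i) * V i) * (ZMod.stdAddChar (j₀ * (γ - i)) * V (γ - i)) =
        (ZMod.stdAddChar (j₀ * γ) : ℂ) * ∑ i, V i * V (γ - i) := by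
      rw [Finset.mul_sum]
      refine Finset.sum_congr rfl fun i _ => ?_
      have : (ZMod.stdAddChar (j₀ * γ) : ℂ) =
          ZMod.stdAddChar (j₀ * i) * ZMod.stdAddChar (j₀ * (γ - i)) := by
        rw [← AddChar.map_add_eq_mul]
        congr 1
        ring
      rw [this]
      ring
    rw [h1, hconv γ, hE, Finset.mul_sum]
    refine Finset.sum_congr rfl fun q hq => ?_
    have hq2 := (Finset.mem_filter.1 hq).2
    rw [← zpow_mul, ← zpow_mul, ← zpow_add₀ (mul_ne_zero (hχ0 _) hβ0), mul_zpow, char_zpow]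
    have h5 : ((2 * τ * q.1 + 2 * σ * q.2 : ℤ) : ZMod p) = γ := by
      rw [← hq2]
      push_cast
      ring
    rw [h5]
    have h6 : 2 * τ * q.1 + 2 * σ * q.2 = q.1 * (2 * τ) + q.2 * (2 * σ) := by ring
    rw [h6]
    ring

end Pool.Agent.Lib.MP_baf44c_co.FB
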