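import Pool.Agent.Lib.MP_baf44c_co.FB.Cassels

/-!
Coefficients with respect to the `p`-th roots of unity.
-/

set_option autoImplicit false

namespace Pool.Agent.Lib.MP_baf44c_co.FB

open Polynomial

/-- Coefficients: an integer polynomial function `G` of order `p M` can be written
`G (χ(j) β) = ∑ γ, χ(j γ) c γ β` with integer polynomial functions `c γ` of order `M`
(sort the monomials `μ^e` by `e mod p`). -/
theorem exists_coeff {p M : ℕ} (hp : p.Prime) [NeZero p] (hM : 0 < M) (hpM : ¬ p ∣ M)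
    {G : ℂ → ℂ} (hG : IsCyc (p * M) G) :
    ∃ c : ZMod p → ℂ → ℂ, (∀ γ, IsCyc M (c γ)) ∧
      ∀ j : ZMod p, j ≠ 0 → ∀ β ∈ primitiveRoots M ℂ,
        G (ZMod.stdAddChar j * β) = ∑ γ : ZMod p, ZMod.stdAddChar (j * γ) * c γ β := by
  classical
  obtain ⟨g, hg⟩ := hG
  refine ⟨fun γ β => aeval β (∑ e ∈ g.support.filter (fun e : ℕ => ((e : ℕ) : ZMod p) = γ),
    Polynomial.monomial e (g.coeff e)), fun γ => isCyc_poly M _, fun j hj β hβ => ?_⟩
  rw [hg _ (mul_mem_prim' hp hM hpM hj hβ)]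
  have h1 : ∀ γ : ZMod p, ZMod.stdAddChar (j * γ) *
      aeval β (∑ e ∈ g.support.filter (fun e : ℕ => ((e : ℕ) : ZMod p) = γ),
        Polynomial.monomial e (g.coeff e)) =
      ∑ e ∈ g.support.filter (fun e : ℕ => ((e : ℕ) : ZMod p) = γ),
        (g.coeff e : ℂ) * (ZMod.stdAddChar j * β) ^ e := by
    intro γ
    rw [map_sum, Finset.mul_sum]
    refine Finset.sum_congr rfl fun e he => ?_
    have he' : (e : ZMod p) = γ := (Finset.mem_filter.1 he).2
    rw [aeval_monomial, mul_pow, ← AddChar.map_nsmul_eq_pow, nsmul_eq_mul, he', mul_comm γ j]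
    simp only [algebraMap_int_eq, eq_intCast]
    ring
  rw [Finset.sum_congr rfl (fun γ _ => h1 γ), aeval_eq_sum_range' (Nat.lt_succ_self _),
    Finset.sum_fiberwise]
  rw [← Finset.sum_subset (Finset.subset_range.2 ?_) ?_]
  · refine Finset.sum_congr rfl fun e _ => ?_
    rw [zsmul_eq_mul]
  · intro e he
    exact Nat.lt_succ_of_le (le_natDegree_of_mem_supp e he)
  · intro e _ he
    rw [notMem_support_iff.1 he, zero_smul]

end Pool.Agent.Lib.MP_baf44c_co.FB
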