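import Pool.Agent.Lib.MP_baf44c_co.FB.Defs

/-!
A majority lemma.
-/

set_option autoImplicit false

namespace Pool.Agent.Lib.MP_baf44c_co.FB

/-- `A = univ \ W`, `m = #A ≥ p - 4`. The number of ordered pairs in `A` with different values is the
sum over `γ₀ ∈ A` of `X γ₀ = #{γ ∈ A : w γ ≠ w γ₀}`, so some `γ₀` has `X ≤ 24 p / (p - 4) < 25`. For
this `γ₀` the class `C = {γ ∈ A : w γ = w γ₀}` has at least `p - 28` elements, and the pairs in
`C × (A \ C)` and in `(A \ C) × C` have different values: `2 (p - 28) X ≤ 24 p`, so `X < 13`. -/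
theorem majority {p : ℕ} [NeZero p] (hp : 1000 < p) (W : Finset (ZMod p)) (hW : W.card ≤ 4)
    {α : Type*} [DecidableEq α] (w : ZMod p → α)
    (hpairs : (((Finset.univ \ W) ×ˢ (Finset.univ \ W)).filter
      (fun q : ZMod p × ZMod p => w q.1 ≠ w q.2)).card ≤ 24 * p) :
    ∃ γ₀, γ₀ ∉ W ∧ ((Finset.univ \ W).filter (fun γ => w γ ≠ w γ₀)).card ≤ 12 := by
  set A : Finset (ZMod p) := Finset.univ \ W with hA
  have hcardA : p ≤ A.card + 4 := by
    have h1 : (Finset.univ : Finset (ZMod p)).card ≤ A.card + W.card := by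
      refine (Finset.card_le_card ?_).trans (Finset.card_union_le _ _)
      intro x _
      by_cases hx : x ∈ W
      · exact Finset.mem_union_right _ hx
      · exact Finset.mem_union_left _ (Finset.mem_sdiff.2 ⟨Finset.mem_univ _, hx⟩)
    rw [Finset.card_univ, ZMod.card] at h1
    omega
  have hne : A.Nonempty := by
    rw [← Finset.card_pos]
    omega
  obtain ⟨γ₀, hγ₀, hmin⟩ := Finset.exists_min_image A
    (fun γ₀ => (A.filter (fun γ => w γ ≠ w γ₀)).card) hne
  set X : ℕ := (A.filter (fun γ => w γ ≠ w γ₀)).card with hX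
  have h24 : A.card * X ≤ 24 * p := by
    refine le_trans ?_ hpairs
    rw [Finset.card_filter, Finset.sum_product, ← smul_eq_mul]
    refine Finset.card_nsmul_le_sum _ _ _ fun a ha => ?_
    have h1 := hmin a ha
    refine h1.trans ?_
    rw [← Finset.card_filter]
    refine Finset.card_le_card fun b hb => ?_
    obtain ⟨hb1, hb2⟩ := Finset.mem_filter.1 hb
    exact Finset.mem_filter.2 ⟨hb1, fun h => hb2 h.symm⟩
  have hX24 : X ≤ 24 := by
    by_contra hlt
    push Not at hlt
    have h1 : A.card * 25 ≤ A.card * X := Nat.mul_le_mul_left _ hlt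
    omega
  set C : Finset (ZMod p) := A.filter (fun γ => ¬ w γ ≠ w γ₀) with hC
  have hCX : X + C.card = A.card := Finset.card_filter_add_card_filter_not _
  have h2 : C.card * X + X * C.card ≤ 24 * p := by
    refine le_trans ?_ hpairs
    rw [hX, ← Finset.card_product, ← Finset.card_product, ← Finset.card_union_of_disjoint]
    · refine Finset.card_le_card fun q hq => ?_
      rcases Finset.mem_union.1 hq with h | h
      · obtain ⟨h3, h4⟩ := Finset.mem_product.1 h
        obtain ⟨h5, h6⟩ := Finset.mem_filter.1 h3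
        obtain ⟨h7, h8⟩ := Finset.mem_filter.1 h4
        refine Finset.mem_filter.2 ⟨Finset.mem_product.2 ⟨h5, h7⟩, fun h9 => h8 ?_⟩
        rw [← h9]
        exact not_not.1 h6
      · obtain ⟨h3, h4⟩ := Finset.mem_product.1 h
        obtain ⟨h5, h6⟩ := Finset.mem_filter.1 h3
        obtain ⟨h7, h8⟩ := Finset.mem_filter.1 h4
        refine Finset.mem_filter.2 ⟨Finset.mem_product.2 ⟨h5, h7⟩, fun h9 => h6 ?_⟩
        rw [h9]
        exact not_not.1 h8
    · rw [Finset.disjoint_left]
      intro q h3 h4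
      exact (Finset.mem_filter.1 (Finset.mem_product.1 h3).1).2
        (Finset.mem_filter.1 (Finset.mem_product.1 h4).1).2
  refine ⟨γ₀, (Finset.mem_sdiff.1 hγ₀).2, ?_⟩
  by_contra hlt
  push Not at hlt
  have h3 : 13 * C.card ≤ X * C.card := Nat.mul_le_mul_right _ hlt
  have h4 : C.card * X = X * C.card := mul_comm _ _
  omega

end Pool.Agent.Lib.MP_baf44c_co.FB
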