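import Pool.Agent.Lib.MP_baf44c_co.FB.CasselsSum
import Pool.Agent.Lib.MP_baf44c_co.FB.CasselsLast
import Pool.Agent.Lib.MP_baf44c_co.FB.Count
import Pool.Agent.Lib.MP_baf44c_co.FB.Coeff

/-!
The case of a prime `p > 4 ^ 10` dividing the order exactly once: main statement.
-/

set_option autoImplicit false

namespace Pool.Agent.Lib.MP_baf44c_co.FB

open Polynomial

private theorem sum_char_zero {p : ℕ} [NeZero p] {j : ZMod p} (hj : j ≠ 0) :
    ∑ γ : ZMod p, (ZMod.stdAddChar (j * γ) : ℂ) = 0 := by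
  have h := AddChar.sum_mulShift (R := ZMod p) (R' := ℂ) j (ZMod.isPrimitive_stdAddChar p)
  rw [if_neg hj, Nat.cast_zero] at h
  rw [← h]
  exact Finset.sum_congr rfl fun γ _ => by rw [mul_comm]

/-- Main statement. Take `G` from `exists_half` for `N = p M`, the coefficients `c` from
`exists_coeff`, `ζ = χ(j₀) β₀` from `exists_mul_eq`; `cas_pairs` and `majority` (with
`w γ = c γ β₀`) give `γ₀`; apply `cassels_last` to `V γ = etaC γ β₀ + 2 c γ β₀ - 2 c γ₀ β₀`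
(subtracting a constant does not change `∑ γ, χ(jγ) V γ` for `j ≠ 0`; off the four classes
`etaC γ β₀ = 0`). -/
theorem cassels_main {p M : ℕ} (hp : p.Prime) (hM : 0 < M) (hpM : ¬ p ∣ M) (hbig : 4 ^ 10 < p)
    {ζ : ℂ} (hζ : ζ ∈ primitiveRoots (p * M) ℂ) (τ σ : ℤ) {z : ℂ}
    (hz : z ∈ cyc (p * M)) (hz2 : z ^ 2 = D (ζ ^ (2 * τ)) * D (ζ ^ (2 * σ)))
    (h1 : ζ ^ (2 * σ) ≠ ζ ^ (2 * τ)) (h2 : ζ ^ (2 * σ) ≠ (ζ ^ (2 * τ))⁻¹) :
    (p : ℤ) ∣ τ := by
  by_contra hτ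
  have : NeZero p := ⟨hp.ne_zero⟩
  have : Fact p.Prime := ⟨hp⟩
  have hpos : 0 < p * M := Nat.mul_pos hp.pos hM
  have hu : 2 * (τ : ZMod p) ≠ 0 := by
    have hτ' : (τ : ZMod p) ≠ 0 := by
      intro h
      exact hτ ((ZMod.intCast_zmod_eq_zero_iff_dvd τ p).1 h)
    have h2' : (2 : ZMod p) ≠ 0 := by
      intro h
      have h' : ((2 : ℕ) : ZMod p) = 0 := by exact_mod_cast h
      rw [ZMod.natCast_eq_zero_iff] at h'
      have := Nat.le_of_dvd (by norm_num) h'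
      have : 4 ^ 10 < p := hbig
      norm_num at this
      omega
    exact mul_ne_zero h2' hτ'
  obtain ⟨G, hG, hGz, hGsq⟩ := exists_half hpos hζ τ σ hz hz2
  obtain ⟨c, hc, hcG⟩ := exists_coeff hp hM hpM hG
  obtain ⟨j₀, hj₀, β₀, hβ₀, hζeq⟩ := exists_mul_eq hp hM hpM hζ
  have hsq : ∀ j : ZMod p, j ≠ 0 → ∀ β ∈ primitiveRoots M ℂ,
      (∑ γ : ZMod p, ZMod.stdAddChar (j * γ) * (etaC p τ σ γ β + 2 * c γ β)) ^ 2 =
        D ((ZMod.stdAddChar j * β) ^ (2 * τ)) * D ((ZMod.stdAddChar j * β) ^ (2 * σ)) := by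
    intro j hj β hβ
    rw [← hGsq _ (mul_mem_prim' hp hM hpM hj hβ), eta_eq, hcG j hj β hβ, Finset.mul_sum,
      ← Finset.sum_add_distrib]
    congr 1
    exact Finset.sum_congr rfl fun γ _ => by ring
  set W : Finset (ZMod p) :=
    {(τ : ZMod p) + σ, -((τ : ZMod p) + σ), (τ : ZMod p) - σ, (σ : ZMod p) - τ} with hWdef
  have hW : W.card ≤ 4 := Finset.card_le_four
  have hpairs := cas_pairs hp hM hpM hu hc hsq hβ₀ W hWdef
  obtain ⟨γ₀, hγ₀, hmaj⟩ := majority (p := p) (by norm_num at hbig; omega) W hW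
    (fun γ => c γ β₀) (by convert hpairs)
  have hβnorm : ‖β₀‖ = 1 := by
    have hβ' := (mem_primitiveRoots hM).1 hβ₀
    exact Complex.norm_eq_one_of_pow_eq_one hβ'.pow_eq_one hM.ne'
  have hlast := cassels_last hp hbig (τ := τ) (σ := σ) hu hβnorm hj₀
    (fun γ => etaC p τ σ γ β₀ + 2 * c γ β₀ - 2 * c γ₀ β₀) ?_ ?_
  · rw [← hζeq] at hlast
    rcases hlast with h | h
    · exact h1 h
    · exact h2 h
  · intro j hj
    rw [← hsq j hj β₀ hβ₀]
    congr 1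
    have : ∑ γ : ZMod p, (ZMod.stdAddChar (j * γ) : ℂ) * (2 * c γ₀ β₀) = 0 := by
      rw [← Finset.sum_mul, sum_char_zero hj, zero_mul]
    have h' : ∑ γ : ZMod p, (ZMod.stdAddChar (j * γ) : ℂ) *
        (etaC p τ σ γ β₀ + 2 * c γ β₀ - 2 * c γ₀ β₀) =
        ∑ γ : ZMod p, (ZMod.stdAddChar (j * γ) : ℂ) * (etaC p τ σ γ β₀ + 2 * c γ β₀) -
        ∑ γ : ZMod p, (ZMod.stdAddChar (j * γ) : ℂ) * (2 * c γ₀ β₀) := by
      rw [← Finset.sum_sub_distrib]
      exact Finset.sum_congr rfl fun γ _ => by ring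
    rw [h', this, sub_zero]
  · refine le_trans (Finset.card_le_card ?_) hmaj
    intro γ hγ
    simp only [Finset.mem_filter, Finset.mem_univ, true_and] at hγ
    obtain ⟨hV, ha, hb, hc', hd⟩ := hγ
    have hγW : γ ∉ W := by
      simp only [hWdef, Finset.mem_insert, Finset.mem_singleton, not_or]
      exact ⟨ha, hb, hc', hd⟩
    simp only [Finset.mem_filter, Finset.mem_sdiff, Finset.mem_univ, true_and]
    refine ⟨hγW, ?_⟩
    intro heq
    apply hV
    have he : etaC p τ σ γ β₀ = 0 := by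
      unfold etaC
      push_cast
      rw [if_neg (fun h => ha h.symm), if_neg (fun h => hb h.symm), if_neg (fun h => hc' h.symm),
        if_neg (fun h => hd h.symm)]
      ring
    rw [he, heq]
    ring

end Pool.Agent.Lib.MP_baf44c_co.FB
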