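import Pool.Agent.Lib.MP_baf44c_co.FB.Cyc

/-!
Arithmetic input: the norm of a nonzero cyclotomic integer is at least one.
-/

set_option autoImplicit false

namespace Pool.Agent.Lib.MP_baf44c_co.FB

open Polynomial

/-- The product of an integer polynomial over the primitive `N`-th roots of unity is a rational
integer (it is the resultant with the cyclotomic polynomial, or the norm from the cyclotomic
field; or: it is rational because it is fixed by all automorphisms, and an algebraic integer). -/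
theorem prod_int {N : ℕ} (hN : 0 < N) (f : ℤ[X]) :
    ∃ c : ℤ, ∏ μ ∈ primitiveRoots N ℂ, aeval μ f = (c : ℂ) := by
  have hprim := Complex.isPrimitiveRoot_exp N hN.ne'
  have hcyc : cyclotomic N ℂ = ∏ μ ∈ primitiveRoots N ℂ, (X - C μ) :=
    cyclotomic_eq_prod_X_sub_primitiveRoots hprim
  have hroots : (cyclotomic N ℂ).roots = (primitiveRoots N ℂ).val := by
    rw [hcyc]
    exact roots_prod_X_sub_C (primitiveRoots N ℂ)
  have hsplit : (cyclotomic N ℂ).Splits := IsAlgClosed.splits _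
  have hmonic : (cyclotomic N ℂ).Monic := cyclotomic.monic N ℂ
  set g : ℂ[X] := f.map (Int.castRingHom ℂ) with hg
  refine ⟨resultant (cyclotomic N ℤ) f (cyclotomic N ℂ).natDegree g.natDegree, ?_⟩
  have h1 := resultant_eq_prod_eval (cyclotomic N ℂ) g g.natDegree le_rfl hsplit
  rw [hmonic.leadingCoeff, one_pow, one_mul, hroots] at h1
  have h2 : resultant (cyclotomic N ℂ) g (cyclotomic N ℂ).natDegree g.natDegree =
      ((resultant (cyclotomic N ℤ) f (cyclotomic N ℂ).natDegree g.natDegree : ℤ) : ℂ) := by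
    have h3 := resultant_map_map (cyclotomic N ℤ) f (cyclotomic N ℂ).natDegree g.natDegree
      (Int.castRingHom ℂ)
    rw [map_cyclotomic] at h3
    exact h3
  rw [← h2, h1]
  have h4 : ∀ μ : ℂ, aeval μ f = g.eval μ := by
    intro μ
    rw [hg, aeval_def, eval₂_eq_eval_map, algebraMap_int_eq]
  rw [Finset.prod_congr rfl fun μ _ => h4 μ]
  rfl

/-- If `F ζ ≠ 0` then no factor of the product vanishes (`IsCyc.eq_zero`), the product is a nonzero
integer, its absolute value is at least `1`, and AM-GM (`Real.inner_le_nnorm_mul_nnorm`,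
`Real.geom_mean_le_arith_mean_weighted`, or `inner_le_..`; with `#primitiveRoots = φ N`). -/
theorem IsCyc.sum_sq_ge {N : ℕ} (hN : 0 < N) {F : ℂ → ℂ} (hF : IsCyc N F) {ζ : ℂ}
    (hζ : ζ ∈ primitiveRoots N ℂ) (h0 : F ζ ≠ 0) :
    (N.totient : ℝ) ≤ ∑ μ ∈ primitiveRoots N ℂ, ‖F μ‖ ^ 2 := by
  obtain ⟨f, hf⟩ := hF
  have hF : IsCyc N F := ⟨f, hf⟩
  have hne : ∀ μ ∈ primitiveRoots N ℂ, F μ ≠ 0 := by
    intro μ hμ h
    exact h0 (hF.eq_zero hμ h ζ hζ)
  obtain ⟨c, hc⟩ := prod_int hN f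
  have hprod : ∏ μ ∈ primitiveRoots N ℂ, F μ = (c : ℂ) := by
    rw [← hc]
    exact Finset.prod_congr rfl hf
  have hc0 : c ≠ 0 := by
    intro h
    rw [h, Int.cast_zero, Finset.prod_eq_zero_iff] at hprod
    obtain ⟨μ, hμ, h⟩ := hprod
    exact hne μ hμ h
  have hcard : (primitiveRoots N ℂ).card = N.totient :=
    (Complex.isPrimitiveRoot_exp N hN.ne').card_primitiveRoots
  have hpos : ∀ μ ∈ primitiveRoots N ℂ, 0 < ‖F μ‖ ^ 2 := by
    intro μ hμ
    have := norm_pos_iff.2 (hne μ hμ)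
    positivity
  have hlog : 0 ≤ ∑ μ ∈ primitiveRoots N ℂ, Real.log (‖F μ‖ ^ 2) := by
    rw [← Real.log_prod (fun μ hμ => (hpos μ hμ).ne')]
    apply Real.log_nonneg
    rw [Finset.prod_pow, ← norm_prod, hprod]
    have h1 : (1 : ℝ) ≤ ‖(c : ℂ)‖ := by
      rw [Complex.norm_intCast]
      exact_mod_cast Int.one_le_abs hc0
    exact one_le_pow₀ h1
  have hle : ∑ μ ∈ primitiveRoots N ℂ, Real.log (‖F μ‖ ^ 2) ≤
      ∑ μ ∈ primitiveRoots N ℂ, (‖F μ‖ ^ 2 - 1) :=
    Finset.sum_le_sum fun μ hμ => Real.log_le_sub_one_of_pos (hpos μ hμ)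
  rw [Finset.sum_sub_distrib, Finset.sum_const, hcard, nsmul_eq_mul, mul_one] at hle
  linarith

end Pool.Agent.Lib.MP_baf44c_co.FB
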