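import Pool.Agent.Lib.MP_baf44c_co.FB.CharSum
import Pool.Agent.Lib.MP_baf44c_co.FB.Cassels
import Pool.Agent.Lib.MP_baf44c_co.FB.Norm

/-!
The case of a prime `p` dividing the order exactly once: counting.
-/

set_option autoImplicit false

namespace Pool.Agent.Lib.MP_baf44c_co.FB

open Polynomial

section

variable {p M : ℕ} (hp : p.Prime) [NeZero p] (hM : 0 < M) (hpM : ¬ p ∣ M) {τ σ : ℤ}
    (hu : 2 * (τ : ZMod p) ≠ 0) {c : ZMod p → ℂ → ℂ} (hc : ∀ γ, IsCyc M (c γ))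
    (hsq : ∀ j : ZMod p, j ≠ 0 → ∀ β ∈ primitiveRoots M ℂ,
      (∑ γ : ZMod p, ZMod.stdAddChar (j * γ) * (etaC p τ σ γ β + 2 * c γ β)) ^ 2 =
        D ((ZMod.stdAddChar j * β) ^ (2 * τ)) * D ((ZMod.stdAddChar j * β) ^ (2 * σ)))

include hp hM hpM hu hsq

/-- `cassels`, `real_of_sq` and `sum_DD_le`. -/
theorem cas_sum_le {β : ℂ} (hβ : β ∈ primitiveRoots M ℂ) :
    ∑ γ : ZMod p, ∑ δ : ZMod p,
      ‖(etaC p τ σ γ β + 2 * c γ β) - (etaC p τ σ δ β + 2 * c δ β)‖ ^ 2 ≤ 96 * p := by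
  have hβnorm : ‖β‖ = 1 := by
    have hβ' := (mem_primitiveRoots hM).1 hβ
    exact Complex.norm_eq_one_of_pow_eq_one hβ'.pow_eq_one hM.ne'
  have h := cassels (p := p) (fun γ => etaC p τ σ γ β + 2 * c γ β)
  have hle := sum_DD_le (p := p) hβnorm (σ := σ) hu
  have heq : ∑ j ∈ Finset.univ.filter (fun j : ZMod p => j ≠ 0),
      ‖∑ γ : ZMod p, ZMod.stdAddChar (j * γ) * (etaC p τ σ γ β + 2 * c γ β)‖ ^ 2 =
      (∑ j ∈ Finset.univ.filter (fun j : ZMod p => j ≠ 0),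
      D ((ZMod.stdAddChar j * β) ^ (2 * τ)) * D ((ZMod.stdAddChar j * β) ^ (2 * σ))).re := by
    rw [Complex.re_sum]
    refine Finset.sum_congr rfl fun j hj => ?_
    have hj' : j ≠ 0 := (Finset.mem_filter.1 hj).2
    have hμ : ‖(ZMod.stdAddChar j : ℂ) * β‖ = 1 := by
      rw [norm_mul, AddChar.norm_apply, hβnorm, one_mul]
    have h2 := (real_of_sq hμ (hsq j hj' β hβ)).2
    rw [← h2, Complex.ofReal_re]
  rw [heq] at h
  linarith

include hc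

/-- Sum `cas_sum_le` over `β`. For `γ, δ` off the four classes the difference is `2 (c γ - c δ)`,
and if `c γ β₀ ≠ c δ β₀` then `∑_β ‖2 (c γ β - c δ β)‖² ≥ 4 φ M` (`IsCyc.sum_sq_ge`). -/
theorem cas_pairs {β₀ : ℂ} (hβ₀ : β₀ ∈ primitiveRoots M ℂ) (W : Finset (ZMod p))
    (hW : W = {(τ : ZMod p) + σ, -((τ : ZMod p) + σ), (τ : ZMod p) - σ, (σ : ZMod p) - τ}) :
    (((Finset.univ \ W) ×ˢ (Finset.univ \ W)).filter
      (fun q : ZMod p × ZMod p => c q.1 β₀ ≠ c q.2 β₀)).card ≤ 24 * p := by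
  set P := ((Finset.univ \ W) ×ˢ (Finset.univ \ W)).filter
      (fun q : ZMod p × ZMod p => c q.1 β₀ ≠ c q.2 β₀) with hP
  have htot : ∑ β ∈ primitiveRoots M ℂ, ∑ γ : ZMod p, ∑ δ : ZMod p,
      ‖(etaC p τ σ γ β + 2 * c γ β) - (etaC p τ σ δ β + 2 * c δ β)‖ ^ 2 ≤
      (M.totient : ℝ) * (96 * p) := by
    refine le_trans (Finset.sum_le_sum fun β hβ => cas_sum_le hp hM hpM hu hsq hβ) ?_
    rw [Finset.sum_const, nsmul_eq_mul, Complex.card_primitiveRoots]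
  have heta : ∀ γ, γ ∉ W → ∀ β, etaC p τ σ γ β = 0 := by
    intro γ hγ β
    simp only [hW, Finset.mem_insert, Finset.mem_singleton, not_or] at hγ
    obtain ⟨ha, hb, hc', hd⟩ := hγ
    unfold etaC
    push_cast
    rw [if_neg (fun h => ha h.symm), if_neg (fun h => hb h.symm), if_neg (fun h => hc' h.symm),
      if_neg (fun h => hd h.symm)]
    ring
  have hlow : ∀ q ∈ P, (4 : ℝ) * M.totient ≤ ∑ β ∈ primitiveRoots M ℂ,
      ‖(etaC p τ σ q.1 β + 2 * c q.1 β) - (etaC p τ σ q.2 β + 2 * c q.2 β)‖ ^ 2 := by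
    intro q hq
    rw [hP, Finset.mem_filter, Finset.mem_product, Finset.mem_sdiff, Finset.mem_sdiff] at hq
    obtain ⟨⟨⟨-, h1⟩, ⟨-, h2⟩⟩, hne⟩ := hq
    have hge := IsCyc.sum_sq_ge hM ((hc q.1).sub (hc q.2)) hβ₀ (sub_ne_zero.2 hne)
    have h3 : ∑ β ∈ primitiveRoots M ℂ,
        ‖(etaC p τ σ q.1 β + 2 * c q.1 β) - (etaC p τ σ q.2 β + 2 * c q.2 β)‖ ^ 2 =
        4 * ∑ β ∈ primitiveRoots M ℂ, ‖c q.1 β - c q.2 β‖ ^ 2 := by
      rw [Finset.mul_sum]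
      refine Finset.sum_congr rfl fun β _ => ?_
      rw [heta _ h1, heta _ h2]
      have : (0 : ℂ) + 2 * c q.1 β - (0 + 2 * c q.2 β) = 2 * (c q.1 β - c q.2 β) := by ring
      rw [this, norm_mul, mul_pow]
      norm_num
    rw [h3]
    linarith
  have hsum : (P.card : ℝ) * (4 * M.totient) ≤ (M.totient : ℝ) * (96 * p) := by
    refine le_trans ?_ htot
    have h1 : ∑ β ∈ primitiveRoots M ℂ, ∑ γ : ZMod p, ∑ δ : ZMod p,
        ‖(etaC p τ σ γ β + 2 * c γ β) - (etaC p τ σ δ β + 2 * c δ β)‖ ^ 2 =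
        ∑ q ∈ (Finset.univ : Finset (ZMod p)) ×ˢ (Finset.univ : Finset (ZMod p)),
          ∑ β ∈ primitiveRoots M ℂ,
        ‖(etaC p τ σ q.1 β + 2 * c q.1 β) - (etaC p τ σ q.2 β + 2 * c q.2 β)‖ ^ 2 := by
      rw [Finset.sum_comm]
      rw [Finset.sum_product]
      refine Finset.sum_congr rfl fun γ _ => ?_
      rw [Finset.sum_comm]
    rw [h1]
    have h2 : (P.card : ℝ) * (4 * M.totient) = ∑ q ∈ P, (4 : ℝ) * M.totient := by
      rw [Finset.sum_const, nsmul_eq_mul]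
    rw [h2]
    refine le_trans (Finset.sum_le_sum hlow) ?_
    refine Finset.sum_le_sum_of_subset_of_nonneg ?_ fun q _ _ => ?_
    · intro q _
      simp
    · exact Finset.sum_nonneg fun β _ => by positivity
  have hφ : (0 : ℝ) < M.totient := by exact_mod_cast Nat.totient_pos.2 hM
  have hfin : (P.card : ℝ) ≤ 24 * p := by
    nlinarith
  exact_mod_cast hfin

end

end Pool.Agent.Lib.MP_baf44c_co.FB
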