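import Pool.Agent.Lib.MP_baf44c_co.FB.Defs

/-!
The terms of degree zero in `D(x) D(y)`.
-/

set_option autoImplicit false

namespace Pool.Agent.Lib.MP_baf44c_co.FB

/-- `(0,0)` contributes `36`; `(±1, 0)` does not occur because `u ≠ 0`. If `v = 0` then only
`(0, ±1)` are added (`6` each); if `v ≠ 0` then `(0, ±1)` do not occur and the four pairs
`(±1, ±1)` contribute at most `4`. -/
theorem weight_le {n : ℕ} [NeZero n] {u v : ZMod n} (hu : u ≠ 0) :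
    ∑ p ∈ (sg ×ˢ sg).filter (fun p => (p.1 : ZMod n) * u + (p.2 : ZMod n) * v = 0),
      ‖dd p.1 * dd p.2‖ ≤ 48 := by
  rw [Finset.sum_filter, Finset.sum_product]
  have hsum : ∀ f : ℤ → ℝ, ∑ a ∈ sg, f a = f (-1) + f 0 + f 1 := by
    intro f
    simp [sg]
    ring
  have d0 : dd 0 = 6 := by simp [dd]
  have d1 : dd 1 = 1 := by simp [dd]
  have dm : dd (-1) = 1 := by simp [dd]
  simp only [hsum, d0, d1, dm]
  by_cases hv : v = 0
  · subst hv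
    have hu' : -u ≠ 0 := neg_ne_zero.2 hu
    simp [hu]
    norm_num
  · have h1 : ∀ (P : Prop) [Decidable P], (if P then ‖(1 : ℂ) * 1‖ else 0) ≤ 1 := by
      intro P _
      split_ifs <;> simp
    have hmm := h1 (((-1 : ℤ) : ZMod n) * u + ((-1 : ℤ) : ZMod n) * v = 0)
    have hmp := h1 (((-1 : ℤ) : ZMod n) * u + ((1 : ℤ) : ZMod n) * v = 0)
    have hpm := h1 (((1 : ℤ) : ZMod n) * u + ((-1 : ℤ) : ZMod n) * v = 0)
    have hpp := h1 (((1 : ℤ) : ZMod n) * u + ((1 : ℤ) : ZMod n) * v = 0)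
    have e1 : ¬ (((-1 : ℤ) : ZMod n) * u + ((0 : ℤ) : ZMod n) * v = 0) := by simpa using hu
    have e2 : ¬ (((1 : ℤ) : ZMod n) * u + ((0 : ℤ) : ZMod n) * v = 0) := by simpa using hu
    have e3 : ¬ (((0 : ℤ) : ZMod n) * u + ((-1 : ℤ) : ZMod n) * v = 0) := by simpa using hv
    have e4 : ¬ (((0 : ℤ) : ZMod n) * u + ((1 : ℤ) : ZMod n) * v = 0) := by simpa using hv
    have e5 : ((0 : ℤ) : ZMod n) * u + ((0 : ℤ) : ZMod n) * v = 0 := by simp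
    rw [if_neg e1, if_neg e2, if_neg e3, if_neg e4, if_pos e5]
    have e6 : ‖(6 : ℂ) * 6‖ = 36 := by norm_num
    rw [e6]
    linarith

/-- `D (μ^(2τ)) D (μ^(2σ))` expanded. -/
theorem DD_eq_sum {μ : ℂ} (hμ : μ ≠ 0) (τ σ : ℤ) : D (μ ^ (2 * τ)) * D (μ ^ (2 * σ)) =
    ∑ p ∈ sg ×ˢ sg, dd p.1 * dd p.2 * μ ^ (p.1 * (2 * τ) + p.2 * (2 * σ)) := by
  rw [D_eq_sum, D_eq_sum, Finset.sum_mul_sum, Finset.sum_product]
  refine Finset.sum_congr rfl fun a _ => Finset.sum_congr rfl fun b _ => ?_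
  show dd a * (μ ^ (2 * τ)) ^ a * (dd b * (μ ^ (2 * σ)) ^ b) =
    dd a * dd b * μ ^ (a * (2 * τ) + b * (2 * σ))
  rw [← zpow_mul, ← zpow_mul, zpow_add₀ hμ, mul_comm a (2 * τ), mul_comm b (2 * σ)]
  ring

end Pool.Agent.Lib.MP_baf44c_co.FB
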