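import Pool.Agent.Lib.MP_baf44c_co.FB.Half
import Pool.Agent.Lib.MP_baf44c_co.FB.Weight

/-!
Character sums of `eta` and `D D'`.
-/

set_option autoImplicit false

namespace Pool.Agent.Lib.MP_baf44c_co.FB

open Polynomial

/-- The coefficient vector of `eta` for `μ = χ(j) β`. -/
noncomputable def etaC (p : ℕ) (τ σ : ℤ) (γ : ZMod p) (β : ℂ) : ℂ :=
  (if ((τ + σ : ℤ) : ZMod p) = γ then β ^ (τ + σ) else 0) +
  (if ((-(τ + σ) : ℤ) : ZMod p) = γ then β ^ (-(τ + σ)) else 0) -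
  (if ((τ - σ : ℤ) : ZMod p) = γ then β ^ (τ - σ) else 0) -
  (if ((σ - τ : ℤ) : ZMod p) = γ then β ^ (σ - τ) else 0)

private theorem CharSum_zpow {p : ℕ} [NeZero p] (j : ZMod p) (β : ℂ) (m : ℤ) :
    (ZMod.stdAddChar j * β) ^ m = ZMod.stdAddChar (j * (m : ZMod p)) * β ^ m := by
  rw [mul_zpow, ← AddChar.map_zsmul_eq_zpow, zsmul_eq_mul, mul_comm (m : ZMod p) j]

private theorem CharSum_ite {p : ℕ} [NeZero p] (j : ZMod p) (β : ℂ) (m : ℤ) :
    ∑ γ : ZMod p, ZMod.stdAddChar (j * γ) * (if (m : ZMod p) = γ then β ^ m else 0) =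
      (ZMod.stdAddChar j * β) ^ m := by
  rw [CharSum_zpow]
  simp only [mul_ite, mul_zero]
  rw [Finset.sum_ite_eq Finset.univ (m : ZMod p)]
  simp

theorem eta_eq {p : ℕ} [NeZero p] (τ σ : ℤ) (j : ZMod p) (β : ℂ) :
    eta τ σ (ZMod.stdAddChar j * β) =
      ∑ γ : ZMod p, ZMod.stdAddChar (j * γ) * etaC p τ σ γ β := by
  unfold etaC eta
  simp only [mul_sub, mul_add, Finset.sum_sub_distrib, Finset.sum_add_distrib]
  rw [CharSum_ite, CharSum_ite, CharSum_ite, CharSum_ite]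

/-- `D D'` at `χ(j) β`. -/
theorem DD_char {p : ℕ} [NeZero p] {β : ℂ} (hβ : β ≠ 0) (τ σ : ℤ) (j : ZMod p) :
    D ((ZMod.stdAddChar j * β) ^ (2 * τ)) * D ((ZMod.stdAddChar j * β) ^ (2 * σ)) =
      ∑ q ∈ sg ×ˢ sg, dd q.1 * dd q.2 *
        (ZMod.stdAddChar (j * ((q.1 : ZMod p) * (2 * (τ : ZMod p)) +
          (q.2 : ZMod p) * (2 * (σ : ZMod p)))) * β ^ (q.1 * (2 * τ) + q.2 * (2 * σ))) := by
  have hχ : ZMod.stdAddChar j ≠ (0 : ℂ) := by
    intro h
    have h1 : ‖(ZMod.stdAddChar j : ℂ)‖ = 1 := AddChar.norm_apply _ _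
    rw [h, norm_zero] at h1
    exact zero_ne_one h1
  rw [DD_eq_sum (mul_ne_zero hχ hβ)]
  refine Finset.sum_congr rfl fun q _ => ?_
  rw [CharSum_zpow]
  congr 3
  push_cast
  ring

/-- Sum over all `j : ZMod p` is `p` times the terms with `q.1 (2τ) + q.2 (2σ) = 0`, of norm at
most `48` (`weight_le`), and the term `j = 0` is real and positive (`D_real`). -/
theorem sum_DD_le {p : ℕ} [NeZero p] {β : ℂ} (hβ : ‖β‖ = 1) {τ σ : ℤ}
    (hu : 2 * (τ : ZMod p) ≠ 0) :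
    (∑ j ∈ Finset.univ.filter (fun j : ZMod p => j ≠ 0),
      D ((ZMod.stdAddChar j * β) ^ (2 * τ)) * D ((ZMod.stdAddChar j * β) ^ (2 * σ))).re ≤
      48 * p := by
  have hβ0 : β ≠ 0 := by
    intro h
    rw [h, norm_zero] at hβ
    exact zero_ne_one hβ
  set F : ZMod p → ℂ := fun j =>
    D ((ZMod.stdAddChar j * β) ^ (2 * τ)) * D ((ZMod.stdAddChar j * β) ^ (2 * σ)) with hF
  have hsplit : ∑ j ∈ Finset.univ.filter (fun j : ZMod p => j ≠ 0), F j =
      (∑ j : ZMod p, F j) - F 0 := by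
    rw [Finset.filter_ne', Finset.sum_erase_eq_sub (Finset.mem_univ _)]
  have hF0 : 0 ≤ (F 0).re := by
    obtain ⟨r, hr, -, h1⟩ := D_real (x := β ^ (2 * τ)) (by rw [norm_zpow, hβ, one_zpow])
    obtain ⟨s, hs, -, h2⟩ := D_real (x := β ^ (2 * σ)) (by rw [norm_zpow, hβ, one_zpow])
    have h3 : F 0 = ((r * s : ℝ) : ℂ) := by
      simp only [hF]
      rw [AddChar.map_zero_eq_one, one_mul, h1, h2]
      push_cast
      rfl
    rw [h3, Complex.ofReal_re]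
    positivity
  have htot : ‖∑ j : ZMod p, F j‖ ≤ 48 * p := by
    have h1 : ∑ j : ZMod p, F j = ∑ q ∈ sg ×ˢ sg, dd q.1 * dd q.2 *
        ((if ((q.1 : ZMod p) * (2 * (τ : ZMod p)) + (q.2 : ZMod p) * (2 * (σ : ZMod p))) = 0
          then (p : ℂ) else 0) * β ^ (q.1 * (2 * τ) + q.2 * (2 * σ))) := by
      simp only [hF]
      rw [Finset.sum_congr rfl fun j _ => DD_char hβ0 τ σ j, Finset.sum_comm]
      refine Finset.sum_congr rfl fun q _ => ?_
      rw [← Finset.mul_sum, ← Finset.sum_mul, AddChar.sum_mulShift _ (ZMod.isPrimitive_stdAddChar p),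
        ZMod.card]
      split_ifs <;> simp
    rw [h1]
    refine (norm_sum_le _ _).trans ?_
    have h2 : ∀ q ∈ sg ×ˢ sg, ‖dd q.1 * dd q.2 *
        ((if ((q.1 : ZMod p) * (2 * (τ : ZMod p)) + (q.2 : ZMod p) * (2 * (σ : ZMod p))) = 0
          then (p : ℂ) else 0) * β ^ (q.1 * (2 * τ) + q.2 * (2 * σ)))‖ =
        if ((q.1 : ZMod p) * (2 * (τ : ZMod p)) + (q.2 : ZMod p) * (2 * (σ : ZMod p))) = 0
          then ‖dd q.1 * dd q.2‖ * p else 0 := by
      intro q _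
      split_ifs
      · rw [norm_mul, norm_mul (p : ℂ), norm_zpow, hβ, one_zpow, mul_one, Complex.norm_natCast]
      · rw [zero_mul, mul_zero, norm_zero]
    rw [Finset.sum_congr rfl h2, ← Finset.sum_filter, ← Finset.sum_mul]
    exact mul_le_mul_of_nonneg_right (weight_le hu) (Nat.cast_nonneg _)
  rw [hsplit, Complex.sub_re]
  have := (Complex.re_le_norm (∑ j : ZMod p, F j)).trans htot
  linarith

end Pool.Agent.Lib.MP_baf44c_co.FB
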