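import Pool.Agent.Lib.MP_baf44c_co.FB.Gam

/-!
Stanley's denominators and the criterion for a repeated root.
-/

set_option autoImplicit false

namespace Pool.Agent.Lib.MP_baf44c_co.FB

open Polynomial

/-- `c_j = cos (jπ/(k+1)) + √(1 + cos² (jπ/(k+1)))`. -/
noncomputable def cj (k j : ℕ) : ℝ :=
  Real.cos (j * Real.pi / (k + 1)) + Real.sqrt (1 + Real.cos (j * Real.pi / (k + 1)) ^ 2)

/-- `c̄_j = cos (jπ/(k+1)) - √(1 + cos² (jπ/(k+1)))`. -/
noncomputable def cbar (k j : ℕ) : ℝ :=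
  Real.cos (j * Real.pi / (k + 1)) - Real.sqrt (1 + Real.cos (j * Real.pi / (k + 1)) ^ 2)

/-- `a_S = ∏_{j ∈ S} c_j ∏_{j ∉ S} c̄_j`, `S ⊆ {1, .., ⌊k/2⌋}`. -/
noncomputable def aS (k : ℕ) (S : Finset ℕ) : ℝ :=
  (∏ j ∈ S, cj k j) * ∏ j ∈ Finset.Icc 1 (k / 2) \ S, cbar k j

/-- Stanley's denominator. -/
noncomputable def Q (k : ℕ) : ℝ[X] :=
  if Even k then ∏ S ∈ (Finset.Icc 1 (k / 2)).powerset, (1 - C (aS k S) * X)
  else ∏ S ∈ (Finset.Icc 1 (k / 2)).powerset, (1 - C (aS k S ^ 2) * X ^ 2)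

/-- Some complex root has multiplicity at least two. -/
def HasRepeatedRoot (P : ℝ[X]) : Prop :=
  ∃ z : ℂ, 2 ≤ (P.map (algebraMap ℝ ℂ)).rootMultiplicity z

theorem cj_eq_gam (k j : ℕ) : cj k j = gam ((j : ℚ) / (k + 1)) := by
  unfold cj gam
  have h : (j : ℝ) * Real.pi / (k + 1) = Real.pi * (((j : ℚ) / (k + 1) : ℚ) : ℝ) := by
    push_cast
    ring
  rw [h]

private theorem Crit_pos (k j : ℕ) : 0 < cj k j := by
  unfold cj
  set c := Real.cos (j * Real.pi / (k + 1))
  have h1 : |c| < Real.sqrt (1 + c ^ 2) := by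
    apply Real.lt_sqrt_of_sq_lt
    rw [sq_abs]
    linarith
  have h2 := neg_abs_le c
  linarith

private theorem Crit_mul (k j : ℕ) : cbar k j * cj k j = -1 := by
  unfold cj cbar
  set c := Real.cos (j * Real.pi / (k + 1))
  have h1 : Real.sqrt (1 + c ^ 2) * Real.sqrt (1 + c ^ 2) = 1 + c ^ 2 :=
    Real.mul_self_sqrt (by positivity)
  linear_combination -h1

private theorem Crit_bpos (k : ℕ) (S : Finset ℕ) : 0 < ∏ j ∈ S, cj k j :=
  Finset.prod_pos fun j _ => Crit_pos k j

private theorem Crit_aS (k : ℕ) {S : Finset ℕ} (hS : S ⊆ Finset.Icc 1 (k / 2)) :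
    aS k S * ∏ j ∈ Finset.Icc 1 (k / 2), cj k j =
      (-1) ^ (Finset.Icc 1 (k / 2) \ S).card * (∏ j ∈ S, cj k j) ^ 2 := by
  rw [← Finset.prod_sdiff hS, ← Finset.prod_const, ← Finset.prod_congr rfl fun j _ => Crit_mul k j,
    Finset.prod_mul_distrib]
  unfold aS
  ring

private theorem Crit_ne (k : ℕ) {S : Finset ℕ} (hS : S ⊆ Finset.Icc 1 (k / 2)) : aS k S ≠ 0 := by
  intro h
  have h1 := Crit_aS k hS
  rw [h, zero_mul] at h1
  have h2 : ((-1 : ℝ)) ^ (Finset.Icc 1 (k / 2) \ S).card * (∏ j ∈ S, cj k j) ^ 2 ≠ 0 :=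
    mul_ne_zero (pow_ne_zero _ (by norm_num)) (pow_ne_zero _ (Crit_bpos k S).ne')
  exact h2 h1.symm

private theorem Crit_even (k : ℕ) {S T : Finset ℕ} (hS : S ⊆ Finset.Icc 1 (k / 2))
    (hT : T ⊆ Finset.Icc 1 (k / 2)) : aS k S = aS k T ↔
      ∏ j ∈ S, cj k j = ∏ j ∈ T, cj k j ∧ S.card % 2 = T.card % 2 := by
  have hb := Crit_bpos k (Finset.Icc 1 (k / 2))
  have h1 : aS k S = aS k T ↔ (-1 : ℝ) ^ (Finset.Icc 1 (k / 2) \ S).card * (∏ j ∈ S, cj k j) ^ 2 =
      (-1) ^ (Finset.Icc 1 (k / 2) \ T).card * (∏ j ∈ T, cj k j) ^ 2 := by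
    rw [← Crit_aS k hS, ← Crit_aS k hT]
    exact ⟨fun h => by rw [h], fun h => mul_right_cancel₀ hb.ne' h⟩
  rw [h1]
  have hcS := Finset.card_sdiff_add_card_eq_card hS
  have hcT := Finset.card_sdiff_add_card_eq_card hT
  have hbS := Crit_bpos k S
  have hbT := Crit_bpos k T
  set b := ∏ j ∈ S, cj k j
  set b' := ∏ j ∈ T, cj k j
  have hsq : b ^ 2 = b' ^ 2 → b = b' := fun h => by
    have := (sq_eq_sq₀ hbS.le hbT.le).1 h
    exact this
  rcases Nat.even_or_odd (Finset.Icc 1 (k / 2) \ S).card with h2 | h2 <;>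
    rcases Nat.even_or_odd (Finset.Icc 1 (k / 2) \ T).card with h3 | h3
  · rw [h2.neg_one_pow, h3.neg_one_pow, one_mul, one_mul]
    rw [Nat.even_iff] at h2 h3
    exact ⟨fun h => ⟨hsq h, by omega⟩, fun h => by rw [h.1]⟩
  · rw [h2.neg_one_pow, h3.neg_one_pow, one_mul, neg_one_mul]
    rw [Nat.even_iff] at h2
    rw [Nat.odd_iff] at h3
    constructor
    · intro h
      have := pow_pos hbS 2
      have := pow_pos hbT 2
      linarith
    · rintro ⟨-, h⟩
      omega
  · rw [h2.neg_one_pow, h3.neg_one_pow, one_mul, neg_one_mul]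
    rw [Nat.even_iff] at h3
    rw [Nat.odd_iff] at h2
    constructor
    · intro h
      have := pow_pos hbS 2
      have := pow_pos hbT 2
      linarith
    · rintro ⟨-, h⟩
      omega
  · rw [h2.neg_one_pow, h3.neg_one_pow, neg_one_mul, neg_one_mul]
    rw [Nat.odd_iff] at h2 h3
    exact ⟨fun h => ⟨hsq (neg_injective h), by omega⟩, fun h => by rw [h.1]⟩

private theorem Crit_odd (k : ℕ) {S T : Finset ℕ} (hS : S ⊆ Finset.Icc 1 (k / 2))
    (hT : T ⊆ Finset.Icc 1 (k / 2)) : aS k S ^ 2 = aS k T ^ 2 ↔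
      ∏ j ∈ S, cj k j = ∏ j ∈ T, cj k j := by
  have hb := Crit_bpos k (Finset.Icc 1 (k / 2))
  have h0 : ∀ {U : Finset ℕ}, U ⊆ Finset.Icc 1 (k / 2) →
      aS k U ^ 2 * (∏ j ∈ Finset.Icc 1 (k / 2), cj k j) ^ 2 = (∏ j ∈ U, cj k j) ^ 4 := by
    intro U hU
    rw [← mul_pow, Crit_aS k hU, mul_pow, ← pow_mul, mul_comm _ 2, pow_mul, neg_one_sq, one_pow,
      one_mul, ← pow_mul]
  have h1 : aS k S ^ 2 = aS k T ^ 2 ↔ (∏ j ∈ S, cj k j) ^ 4 = (∏ j ∈ T, cj k j) ^ 4 := by
    rw [← h0 hS, ← h0 hT]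
    exact ⟨fun h => by rw [h], fun h => mul_right_cancel₀ (pow_pos hb 2).ne' h⟩
  rw [h1]
  exact pow_left_inj₀ (Crit_bpos k S).le (Crit_bpos k T).le (by norm_num)

private theorem Crit_prod {ι : Type*} [DecidableEq ι] (s : Finset ι) (f : ι → ℂ[X]) (z : ℂ)
    (h0 : ∀ i ∈ s, f i ≠ 0) :
    (∏ i ∈ s, f i).rootMultiplicity z = ∑ i ∈ s, (f i).rootMultiplicity z := by
  induction s using Finset.induction_on with
  | empty => simp
  | insert i s hi ih =>
    rw [Finset.prod_insert hi, Finset.sum_insert hi, Polynomial.rootMultiplicity_mul,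
      ih fun j hj => h0 j (Finset.mem_insert_of_mem hj)]
    refine mul_ne_zero (h0 i (Finset.mem_insert_self _ _)) ?_
    exact Finset.prod_ne_zero_iff.2 fun j hj => h0 j (Finset.mem_insert_of_mem hj)

private theorem Crit_rep {ι : Type*} [DecidableEq ι] (s : Finset ι) (f : ι → ℂ[X])
    (h0 : ∀ i ∈ s, f i ≠ 0) (h1 : ∀ i ∈ s, ∀ z, (f i).rootMultiplicity z ≤ 1) :
    (∃ z, 2 ≤ (∏ i ∈ s, f i).rootMultiplicity z) ↔
      ∃ i ∈ s, ∃ j ∈ s, i ≠ j ∧ ∃ z, (f i).IsRoot z ∧ (f j).IsRoot z := by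
  constructor
  · rintro ⟨z, hz⟩
    rw [Crit_prod s f z h0] at hz
    have h2 : ∑ i ∈ s, (f i).rootMultiplicity z ≤ (s.filter fun i => (f i).IsRoot z).card := by
      rw [Finset.card_filter]
      refine Finset.sum_le_sum fun i hi => ?_
      split_ifs with h3
      · exact h1 i hi z
      · exact (Polynomial.rootMultiplicity_eq_zero h3).le
    obtain ⟨i, hi, j, hj, hij⟩ := Finset.one_lt_card.1 (show 1 < (s.filter fun i =>
      (f i).IsRoot z).card by omega)
    rw [Finset.mem_filter] at hi hj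
    exact ⟨i, hi.1, j, hj.1, hij, z, hi.2, hj.2⟩
  · rintro ⟨i, hi, j, hj, hij, z, hiz, hjz⟩
    refine ⟨z, ?_⟩
    rw [Crit_prod s f z h0]
    have h2 : ∑ l ∈ ({i, j} : Finset ι), (f l).rootMultiplicity z ≤
        ∑ l ∈ s, (f l).rootMultiplicity z := by
      refine Finset.sum_le_sum_of_subset ?_
      intro l hl
      rw [Finset.mem_insert, Finset.mem_singleton] at hl
      rcases hl with rfl | rfl
      · exact hi
      · exact hj
    rw [Finset.sum_pair hij] at h2
    have h3 := (Polynomial.rootMultiplicity_pos (h0 i hi)).2 hiz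
    have h4 := (Polynomial.rootMultiplicity_pos (h0 j hj)).2 hjz
    omega

/-- `c_j c̄_j = -1`, `c_j > 0`. With `b S = ∏_{j ∈ S} c_j`, `ℓ = k / 2`:
`a_S = (-1)^(ℓ - #S) (b S)² / b {1..ℓ}`. Even `k`: the roots are `1 / a_S`, so there is a repeated
root iff `a_S = a_T` for some `S ≠ T`, i.e. `b S = b T` and `#S ≡ #T mod 2`. Odd `k`: the factor of
`S` has the two distinct roots `± 1 / a_S`, so there is a repeated root iff `a_S² = a_T²` for some
`S ≠ T`, i.e. `b S = b T`. (`rootMultiplicity` of a product is the sum; a factor of multiplicity at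
least `1` at `z` twice, or one factor with multiplicity `2`, which does not happen.) -/
theorem criterion (k : ℕ) : HasRepeatedRoot (Q k) ↔
    ∃ S ⊆ Finset.Icc 1 (k / 2), ∃ T ⊆ Finset.Icc 1 (k / 2), S ≠ T ∧
      ∏ j ∈ S, cj k j = ∏ j ∈ T, cj k j ∧ (Even k → S.card % 2 = T.card % 2) := by
  unfold HasRepeatedRoot Q
  by_cases hk : Even k
  · rw [if_pos hk, Polynomial.map_prod]
    rw [Crit_rep]
    · constructor
      · rintro ⟨S, hS, T, hT, hST, z, h1, h2⟩
        rw [Finset.mem_powerset] at hS hT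
        simp only [Polynomial.IsRoot.def, Polynomial.map_sub, Polynomial.map_one,
          Polynomial.map_mul, Polynomial.map_C, Polynomial.map_X, Polynomial.eval_sub,
          Polynomial.eval_one, Polynomial.eval_mul, Polynomial.eval_C, Polynomial.eval_X,
          Complex.coe_algebraMap] at h1 h2
        have hz : z ≠ 0 := by
          rintro rfl
          simp at h1
        have h3 : ((aS k S : ℝ) : ℂ) = ((aS k T : ℝ) : ℂ) := by
          apply mul_right_cancel₀ hz
          linear_combination h2 - h1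
        have h4 := (Crit_even k hS hT).1 (by exact_mod_cast h3)
        exact ⟨S, hS, T, hT, hST, h4.1, fun _ => h4.2⟩
      · rintro ⟨S, hS, T, hT, hST, h1, h2⟩
        have h3 := (Crit_even k hS hT).2 ⟨h1, h2 hk⟩
        refine ⟨S, Finset.mem_powerset.2 hS, T, Finset.mem_powerset.2 hT, hST,
          ((aS k S : ℝ) : ℂ)⁻¹, ?_, ?_⟩
        · have h4 : ((aS k S : ℝ) : ℂ) ≠ 0 := by exact_mod_cast Crit_ne k hS
          simp [Polynomial.IsRoot.def, h4]
        · have h4 : ((aS k T : ℝ) : ℂ) ≠ 0 := by exact_mod_cast Crit_ne k hT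
          simp [Polynomial.IsRoot.def, h3, h4]
    · intro S hS h
      have := congrArg (Polynomial.eval 0) h
      simp at this
    · intro S hS z
      by_contra hcon
      push Not at hcon
      have hne : (Polynomial.map (algebraMap ℝ ℂ) (1 - C (aS k S) * X)) ≠ 0 := by
        intro h
        have := congrArg (Polynomial.eval 0) h
        simp at this
      rw [Polynomial.one_lt_rootMultiplicity_iff_isRoot hne] at hcon
      have h2 := hcon.2
      rw [Finset.mem_powerset] at hS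
      have h4 : ((aS k S : ℝ) : ℂ) ≠ 0 := by exact_mod_cast Crit_ne k hS
      simp [Polynomial.IsRoot.def, Crit_ne k hS] at h2
  · rw [if_neg hk, Polynomial.map_prod]
    rw [Crit_rep]
    · constructor
      · rintro ⟨S, hS, T, hT, hST, z, h1, h2⟩
        rw [Finset.mem_powerset] at hS hT
        simp only [Polynomial.IsRoot.def, Polynomial.map_sub, Polynomial.map_one,
          Polynomial.map_mul, Polynomial.map_C, Polynomial.map_X, Polynomial.map_pow,
          Polynomial.eval_sub, Polynomial.eval_one, Polynomial.eval_mul, Polynomial.eval_C,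
          Polynomial.eval_X, Polynomial.eval_pow, Complex.coe_algebraMap] at h1 h2
        have hz : z ^ 2 ≠ 0 := by
          intro hz
          rw [hz] at h1
          simp at h1
        have h3 : (((aS k S) ^ 2 : ℝ) : ℂ) = (((aS k T) ^ 2 : ℝ) : ℂ) := by
          apply mul_right_cancel₀ hz
          linear_combination h2 - h1
        have h4 := (Crit_odd k hS hT).1 (by exact_mod_cast h3)
        exact ⟨S, hS, T, hT, hST, h4, fun h => absurd h hk⟩
      · rintro ⟨S, hS, T, hT, hST, h1, h2⟩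
        have h3 := (Crit_odd k hS hT).2 h1
        have h5 : (((aS k S) ^ 2 : ℝ) : ℂ) = (((aS k T) ^ 2 : ℝ) : ℂ) := by rw [h3]
        refine ⟨S, Finset.mem_powerset.2 hS, T, Finset.mem_powerset.2 hT, hST,
          ((aS k S : ℝ) : ℂ)⁻¹, ?_, ?_⟩
        · have h4 : ((aS k S : ℝ) : ℂ) ≠ 0 := by exact_mod_cast Crit_ne k hS
          simp [Polynomial.IsRoot.def, h4]
        · have h4 : ((aS k S : ℝ) : ℂ) ≠ 0 := by exact_mod_cast Crit_ne k hS
          have h6 : ((aS k T : ℝ) : ℂ) ^ 2 = ((aS k S : ℝ) : ℂ) ^ 2 := by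
            push_cast at h5
            exact h5.symm
          simp [Polynomial.IsRoot.def, h6, h4]
    · intro S hS h
      have := congrArg (Polynomial.eval 0) h
      simp at this
    · intro S hS z
      by_contra hcon
      push Not at hcon
      have hne : (Polynomial.map (algebraMap ℝ ℂ) (1 - C (aS k S ^ 2) * X ^ 2)) ≠ 0 := by
        intro h
        have := congrArg (Polynomial.eval 0) h
        simp at this
      rw [Polynomial.one_lt_rootMultiplicity_iff_isRoot hne] at hcon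
      obtain ⟨h1, h2⟩ := hcon
      rw [Finset.mem_powerset] at hS
      have h4 : ((aS k S : ℝ) : ℂ) ≠ 0 := by exact_mod_cast Crit_ne k hS
      have h5 : z = 0 := by
        simp [Polynomial.IsRoot.def, Polynomial.derivative_pow] at h2
        rcases h2 with h2 | h2
        · exact absurd h2 (Crit_ne k hS)
        · exact h2
      subst h5
      simp [Polynomial.IsRoot.def] at h1

end Pool.Agent.Lib.MP_baf44c_co.FB
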