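import Pool.Agent.Lib.MP_baf44c_co.FB.Defs

/-!
Integer polynomial functions on the primitive `N`-th roots of unity (basic calculus).
All proofs are short.
-/

set_option autoImplicit false

namespace Pool.Agent.Lib.MP_baf44c_co.FB

open Polynomial

theorem isCyc_poly (N : ℕ) (f : ℤ[X]) : IsCyc N (fun μ => aeval μ f) := ⟨f, fun _ _ => rfl⟩

theorem IsCyc.congr {N : ℕ} {F G : ℂ → ℂ} (hF : IsCyc N F)
    (h : ∀ μ ∈ primitiveRoots N ℂ, F μ = G μ) : IsCyc N G := by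
  obtain ⟨f, hf⟩ := hF
  exact ⟨f, fun μ hμ => by rw [← h μ hμ, hf μ hμ]⟩

theorem IsCyc.add {N : ℕ} {F G : ℂ → ℂ} (hF : IsCyc N F) (hG : IsCyc N G) :
    IsCyc N (fun μ => F μ + G μ) := by
  obtain ⟨f, hf⟩ := hF
  obtain ⟨g, hg⟩ := hG
  exact ⟨f + g, fun μ hμ => by
    rw [map_add, ← hf μ hμ, ← hg μ hμ]⟩

theorem IsCyc.mul {N : ℕ} {F G : ℂ → ℂ} (hF : IsCyc N F) (hG : IsCyc N G) :
    IsCyc N (fun μ => F μ * G μ) := by
  obtain ⟨f, hf⟩ := hF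
  obtain ⟨g, hg⟩ := hG
  exact ⟨f * g, fun μ hμ => by
    rw [map_mul, ← hf μ hμ, ← hg μ hμ]⟩

theorem IsCyc.sub {N : ℕ} {F G : ℂ → ℂ} (hF : IsCyc N F) (hG : IsCyc N G) :
    IsCyc N (fun μ => F μ - G μ) := by
  obtain ⟨f, hf⟩ := hF
  obtain ⟨g, hg⟩ := hG
  exact ⟨f - g, fun μ hμ => by
    rw [map_sub, ← hf μ hμ, ← hg μ hμ]⟩

theorem isCyc_int (N : ℕ) (c : ℤ) : IsCyc N (fun _ => (c : ℂ)) :=
  ⟨C c, fun μ _ => by simp⟩

theorem IsCyc.sum {N : ℕ} {ι : Type*} (s : Finset ι) {F : ι → ℂ → ℂ}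
    (hF : ∀ i ∈ s, IsCyc N (F i)) : IsCyc N (fun μ => ∑ i ∈ s, F i μ) := by
  classical
  induction s using Finset.induction_on with
  | empty =>
    refine (isCyc_int N 0).congr fun μ _ => ?_
    simp
  | insert a s ha ih =>
    refine ((hF a (Finset.mem_insert_self a s)).add
      (ih fun i hi => hF i (Finset.mem_insert_of_mem hi))).congr fun μ _ => ?_
    rw [Finset.sum_insert ha]

/-- `μ ^ e = μ ^ (e mod N)` for the primitive `N`-th roots of unity. -/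
theorem isCyc_zpow {N : ℕ} (hN : 0 < N) (e : ℤ) : IsCyc N (fun μ => μ ^ e) := by
  refine ⟨X ^ (e % N).toNat, fun μ hμ => ?_⟩
  have hp := (mem_primitiveRoots hN).1 hμ
  have h0 : μ ≠ 0 := hp.ne_zero hN.ne'
  have hN' : (0 : ℤ) < N := by exact_mod_cast hN
  have h1 : (((e % N).toNat : ℕ) : ℤ) = e % N := Int.toNat_of_nonneg (Int.emod_nonneg _ hN'.ne')
  rw [map_pow, aeval_X]
  have h2 : μ ^ ((e % N).toNat) = μ ^ (e % (N : ℤ)) := by
    rw [← zpow_natCast, h1]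
  rw [h2]
  show μ ^ e = _
  conv_lhs => rw [← Int.emod_add_mul_ediv e N]
  rw [zpow_add₀ h0, zpow_mul, zpow_natCast, hp.pow_eq_one, one_zpow, mul_one]

theorem isCyc_D {N : ℕ} (hN : 0 < N) (e : ℤ) : IsCyc N (fun μ => D (μ ^ e)) := by
  refine (((isCyc_zpow hN e).add (isCyc_zpow hN (-e))).add (isCyc_int N 6)).congr fun μ _ => ?_
  unfold D
  rw [zpow_neg]
  push_cast
  rfl

theorem isCyc_eta {N : ℕ} (hN : 0 < N) (τ σ : ℤ) : IsCyc N (eta τ σ) :=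
  (((isCyc_zpow hN (τ + σ)).add (isCyc_zpow hN (-(τ + σ)))).sub
    (isCyc_zpow hN (τ - σ))).sub (isCyc_zpow hN (σ - τ))

/-- If an integer polynomial vanishes at one primitive `N`-th root of unity, it vanishes at all
of them (the cyclotomic polynomial is the minimal polynomial). -/
theorem IsCyc.eq_zero {N : ℕ} {F : ℂ → ℂ} (hF : IsCyc N F) {ζ : ℂ}
    (hζ : ζ ∈ primitiveRoots N ℂ) (h0 : F ζ = 0) : ∀ μ ∈ primitiveRoots N ℂ, F μ = 0 := by
  obtain ⟨f, hf⟩ := hF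
  intro μ hμ
  rcases Nat.eq_zero_or_pos N with rfl | hN
  · rw [primitiveRoots_zero] at hμ
    exact absurd hμ (Finset.notMem_empty _)
  have hζ' := (mem_primitiveRoots hN).1 hζ
  have hμ' := (mem_primitiveRoots hN).1 hμ
  rw [hf ζ hζ] at h0
  have h1 : minpoly ℤ ζ ∣ f := minpoly.isIntegrallyClosed_dvd (hζ'.isIntegral hN) h0
  rw [← cyclotomic_eq_minpoly hζ' hN, cyclotomic_eq_minpoly hμ' hN] at h1
  obtain ⟨g, rfl⟩ := h1
  rw [hf μ hμ, map_mul, minpoly.aeval, zero_mul]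

end Pool.Agent.Lib.MP_baf44c_co.FB
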