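import Mathlib

set_option autoImplicit false

namespace Pool.Agent.Lib.MP_baf44c_co.FB

open Polynomial

/-- `F` agrees on the primitive `N`-th roots of unity with an integer polynomial. -/
def IsCyc (N : ℕ) (F : ℂ → ℂ) : Prop :=
  ∃ f : ℤ[X], ∀ μ ∈ primitiveRoots N ℂ, F μ = aeval μ f

/-- `D (e^{2iθ}) = 4 (1 + cos² θ)`. -/
noncomputable def D (x : ℂ) : ℂ := x + x⁻¹ + 6

/-- The three exponents `-1, 0, 1` of `D`. -/
def sg : Finset ℤ := {-1, 0, 1}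

/-- The coefficients of `D`: `D x = ∑ a ∈ sg, dd a * x ^ a`. -/
noncomputable def dd (a : ℤ) : ℂ := if a = 0 then 6 else 1

/-- `(t - 1/t) (w - 1/w)` at `t = μ ^ τ`, `w = μ ^ σ`. -/
noncomputable def eta (τ σ : ℤ) (μ : ℂ) : ℂ :=
  μ ^ (τ + σ) + μ ^ (-(τ + σ)) - μ ^ (τ - σ) - μ ^ (σ - τ)

/-- The `N`-th cyclotomic field inside `ℂ`. -/
noncomputable def cyc (N : ℕ) : IntermediateField ℚ ℂ :=
  IntermediateField.adjoin ℚ {Complex.exp (2 * Real.pi * Complex.I / N)}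

/-- Component of degree `γ` of `F` for the substitution `μ ↦ μ ω`, `ω ^ n = 1`. -/
noncomputable def pr (n : ℕ) [NeZero n] (γ : ZMod n) (F : ℂ → ℂ) (μ : ℂ) : ℂ :=
  (n : ℂ)⁻¹ * ∑ j : ZMod n, ZMod.stdAddChar (-(j * γ)) * F (μ * ZMod.stdAddChar j)

theorem D_eq_sum {x : ℂ} : D x = ∑ a ∈ sg, dd a * x ^ a := by
  simp [sg, dd, D]
  ring

end Pool.Agent.Lib.MP_baf44c_co.FB
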