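import Pool.Agent.Lib.MP_baf44c_co.FB.Defs

/-!
A square root in `ℚ(ζ_{p^k M})` of an element of `ℚ(ζ_{p M})` lies in `ℚ(ζ_{p M})`, `p` odd.
-/

set_option autoImplicit false

namespace Pool.Agent.Lib.MP_baf44c_co.FB

/-- Monotonicity of `cyc`. -/
theorem cyc_mono {N N' : ℕ} (hN' : 0 < N') (h : N ∣ N') : cyc N ≤ cyc N' := by
  obtain ⟨c, rfl⟩ := h
  have hN : N ≠ 0 := by
    rintro rfl
    simp at hN'
  have hc : c ≠ 0 := by
    rintro rfl
    simp at hN'
  have hNC : (N : ℂ) ≠ 0 := by exact_mod_cast hN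
  have hcC : (c : ℂ) ≠ 0 := by exact_mod_cast hc
  unfold cyc
  rw [IntermediateField.adjoin_simple_le_iff]
  have h1 : Complex.exp (2 * Real.pi * Complex.I / N) =
      Complex.exp (2 * Real.pi * Complex.I / ((N * c : ℕ) : ℂ)) ^ c := by
    rw [← Complex.exp_nat_mul]
    congr 1
    push_cast
    field_simp
  rw [h1]
  exact pow_mem (IntermediateField.mem_adjoin_simple_self ℚ _) c

private lemma Descent_finrank {N : ℕ} (hN : 0 < N) : Module.finrank ℚ (cyc N) = Nat.totient N := by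
  have hp := Complex.isPrimitiveRoot_exp N hN.ne'
  unfold cyc
  rw [IntermediateField.adjoin.finrank ((hp.isIntegral hN).tower_top),
    ← Polynomial.cyclotomic_eq_minpoly_rat hp hN, Polynomial.natDegree_cyclotomic]

/-- `K₁ = cyc (p M) ≤ K₂ = cyc (p^k M)`; `[K₂ : ℚ] = φ (p^k M) = p^(k-1) [K₁ : ℚ]`, so `[K₂ : K₁]`
is odd. `K₁(z) ≤ K₂` and `[K₁(z) : K₁] ≤ 2` divides `[K₂ : K₁]`, so it is `1` and `z ∈ K₁`. -/
theorem descend {p M k : ℕ} (hp : p.Prime) (hp2 : p ≠ 2) (hM : 0 < M) (hpM : ¬ p ∣ M)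
    (hk : 1 ≤ k) {z : ℂ} (hz : z ∈ cyc (p ^ k * M)) (hz2 : z ^ 2 ∈ cyc (p * M)) :
    z ∈ cyc (p * M) := by
  have hpM0 : 0 < p * M := Nat.mul_pos hp.pos hM
  have hpkM0 : 0 < p ^ k * M := Nat.mul_pos (pow_pos hp.pos k) hM
  have hle : cyc (p * M) ≤ cyc (p ^ k * M) :=
    cyc_mono hpkM0 (Nat.mul_dvd_mul_right (dvd_pow_self p (by omega)) M)
  have hcop : Nat.Coprime p M := (Nat.Prime.coprime_iff_not_dvd hp).2 hpM
  have hrel : IntermediateField.relfinrank (cyc (p * M)) (cyc (p ^ k * M)) = p ^ (k - 1) := by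
    have h1 := IntermediateField.finrank_bot_mul_relfinrank hle
    rw [Descent_finrank hpM0, Descent_finrank hpkM0,
      Nat.totient_mul (hcop.pow_left k), Nat.totient_mul hcop, Nat.totient_prime_pow hp (by omega),
      Nat.totient_prime hp] at h1
    have h2 : 0 < (p - 1) * M.totient :=
      Nat.mul_pos (by have := hp.two_le; omega) (Nat.totient_pos.2 hM)
    refine Nat.eq_of_mul_eq_mul_left h2 (h1.trans ?_)
    ring
  have hodd : Odd (IntermediateField.relfinrank (cyc (p * M)) (cyc (p ^ k * M))) := by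
    rw [hrel]
    exact (hp.odd_of_ne_two hp2).pow
  rw [IntermediateField.relfinrank_eq_finrank_of_le hle] at hodd
  set K₁ := cyc (p * M) with hK₁
  -- the minimal polynomial of `z` over `K₁` has degree at most two
  let q : Polynomial K₁ := Polynomial.X ^ 2 - Polynomial.C (⟨z ^ 2, hz2⟩ : K₁)
  have hqm : q.Monic := Polynomial.monic_X_pow_sub_C _ two_ne_zero
  have hqd : q.natDegree = 2 := Polynomial.natDegree_X_pow_sub_C
  have hq0 : Polynomial.aeval z q = 0 := by
    simp only [q, map_sub, map_pow, Polynomial.aeval_X, Polynomial.aeval_C]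
    exact sub_self _
  have hint : IsIntegral K₁ z := ⟨q, hqm, by rw [← Polynomial.aeval_def]; exact hq0⟩
  have hdeg : (minpoly K₁ z).natDegree ≤ 2 := by
    rw [← hqd]
    exact Polynomial.natDegree_le_of_dvd (minpoly.dvd K₁ z hq0) hqm.ne_zero
  have hfin : Module.finrank K₁ (IntermediateField.adjoin K₁ {z}) = (minpoly K₁ z).natDegree :=
    IntermediateField.adjoin.finrank hint
  have hdvd : Module.finrank K₁ (IntermediateField.adjoin K₁ {z}) ∣
      Module.finrank K₁ (IntermediateField.extendScalars hle) := by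
    apply IntermediateField.finrank_dvd_of_le_right
    rw [IntermediateField.adjoin_simple_le_iff]
    exact hz
  have hodd2 : Odd (Module.finrank K₁ (IntermediateField.adjoin K₁ {z})) := hodd.of_dvd_nat hdvd
  have hone : Module.finrank K₁ (IntermediateField.adjoin K₁ {z}) = 1 := by
    rw [hfin] at hodd2 ⊢
    obtain ⟨t, ht⟩ := hodd2
    omega
  rw [IntermediateField.finrank_adjoin_simple_eq_one_iff, IntermediateField.mem_bot] at hone
  obtain ⟨w, hw⟩ := hone
  rw [← hw]
  exact w.2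

end Pool.Agent.Lib.MP_baf44c_co.FB
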