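import Pool.Agent.Lib.MP_baf44c_co.FB.PairPrime

/-!
The pair theorem.
-/

set_option autoImplicit false

namespace Pool.Agent.Lib.MP_baf44c_co.FB

private theorem Pair_dvd {m e B : ℕ} {S : Finset ℕ} (hS : ∀ p ∈ S, p.Prime) (he : 0 < e)
    (heB : e ≤ B) (hm : m ∣ e * ∏ p ∈ S, p) (hb : ∀ p, p.Prime → B < p → ¬ p ∣ m) :
    m ∣ (Nat.factorial B) ^ 2 := by
  classical
  have h1 : ∏ p ∈ S, p = (∏ p ∈ S.filter (fun p => p ≤ B), p) *
      ∏ p ∈ S.filter (fun p => ¬ p ≤ B), p := (Finset.prod_filter_mul_prod_filter_not _ _ _).symm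
  have h2 : Nat.Coprime m (∏ p ∈ S.filter (fun p => ¬ p ≤ B), p) := by
    refine Nat.Coprime.prod_right fun p hp => ?_
    rw [Finset.mem_filter] at hp
    have hpp := hS p hp.1
    exact ((Nat.Prime.coprime_iff_not_dvd hpp).2 (hb p hpp (by omega))).symm
  have h3 : m ∣ e * ∏ p ∈ S.filter (fun p => p ≤ B), p := by
    rw [h1, ← mul_assoc] at hm
    exact h2.dvd_of_dvd_mul_right hm
  have h4 : ∏ p ∈ S.filter (fun p => p ≤ B), p ∣ Nat.factorial B := by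
    refine Finset.prod_primes_dvd _ ?_ ?_
    · intro p hp
      rw [Finset.mem_filter] at hp
      exact (hS p hp.1).prime
    · intro p hp
      rw [Finset.mem_filter] at hp
      exact Nat.dvd_factorial (hS p hp.1).pos hp.2
  rw [sq]
  exact h3.trans (mul_dvd_mul (Nat.dvd_factorial he heB) h4)

/-- `m = orderOf x` divides `e ∏_{p ∣ 2K} p`, `e ≤ B = 4^10`, and all its primes are `≤ B`. So
`m ∣ e ∏_{p ∣ m} p` (compare the exponents of every prime), `e ∣ B!` and `∏_{p ∣ m} p ∣ B!`. -/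
theorem pair {K : ℕ} (hK : 0 < K) {x y z : ℂ} (hxK : x ^ K = 1) (hyK : y ^ K = 1)
    (hz : z ∈ cyc K) (hz2 : z ^ 2 = D x * D y) (h1 : y ≠ x) (h2 : y ≠ x⁻¹) :
    x ^ ((Nat.factorial (2 ^ 20)) ^ 2) = 1 := by
  obtain ⟨e, he, heB, hx⟩ := pair_rad hK hxK hyK hz hz2 h1 h2
  have hB : (4 : ℕ) ^ 10 = 2 ^ 20 := by norm_num
  have hb := fun p (hp : p.Prime) (hbig : 4 ^ 10 < p) => pair_prime hK hxK hyK hz hz2 h1 h2 hp hbig
  rw [hB] at heB
  generalize (2 : ℕ) ^ 20 = B at *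
  rw [hB] at hb
  exact orderOf_dvd_iff_pow_eq_one.1 (Pair_dvd (fun p hp => Nat.prime_of_mem_primeFactors hp) he heB
    (orderOf_dvd_of_pow_eq_one hx) hb)

end Pool.Agent.Lib.MP_baf44c_co.FB
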