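import Pool.Agent.Lib.MP_baf44c_co.FB.Split
import Pool.Agent.Lib.MP_baf44c_co.FB.Pair

/-!
Denominators in a multiplicative relation.
-/

set_option autoImplicit false

namespace Pool.Agent.Lib.MP_baf44c_co.FB

/-- Denominators in a multiplicative relation: for `r₀ ∈ J` take the partner `r` from `split` (with
`K = ∏ r ∈ J, r.den`), and apply `pair` to `x = xr r₀`, `y = xr r` and `2 K`. -/
theorem relation_den (J : Finset ℚ) (hJ : ∀ r ∈ J, 0 < r ∧ r < 1 / 2) (e : ℚ → ℤ)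
    (he : ∏ r ∈ J, gam r ^ e r = 1) (hne : ∀ r ∈ J, e r ≠ 0) :
    ∀ r ∈ J, r.den ∣ (Nat.factorial (2 ^ 20)) ^ 2 := by
  intro r₀ hr₀
  have hK : 0 < ∏ r ∈ J, r.den := Finset.prod_pos fun r _ => r.den_pos
  have hden : ∀ r ∈ J, r.den ∣ ∏ r ∈ J, r.den := fun r hr => Finset.dvd_prod_of_mem _ hr
  obtain ⟨r, hr, hrne, z, hz, hz2⟩ := split J hJ e he hK hden hr₀ (hne r₀ hr₀)
  have h2K : 0 < 2 * ∏ r ∈ J, r.den := Nat.mul_pos two_pos hK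
  have hx : xr r₀ ^ (2 * ∏ r ∈ J, r.den) = 1 := xr_pow ((hden r₀ hr₀).mul_left 2)
  have hy : xr r ^ (2 * ∏ r ∈ J, r.den) = 1 := xr_pow ((hden r hr).mul_left 2)
  obtain ⟨h1, h2⟩ := xr_ne (hJ r hr) (hJ r₀ hr₀) hrne
  exact den_dvd (pair h2K hx hy hz hz2 h1 h2)

end Pool.Agent.Lib.MP_baf44c_co.FB
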