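import Pool.Agent.Lib.MP_baf44c_co.FB.Crit
import Pool.Agent.Lib.MP_baf44c_co.FB.RelDen

/-!
The finite basis of the repeated roots.
-/

set_option autoImplicit false

namespace Pool.Agent.Lib.MP_baf44c_co.FB

private theorem fin_cj_mul {k k' q : ℕ} (h : k + 1 = q * (k' + 1)) (j : ℕ) :
    cj k (q * j) = cj k' j := by
  have hq : (q : ℝ) ≠ 0 := by
    intro h0
    have : q = 0 := by exact_mod_cast h0
    rw [this, Nat.zero_mul] at h
    omega
  have hk' : ((k' : ℝ) + 1) ≠ 0 := by positivity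
  have hk : ((k : ℝ) + 1) = q * (k' + 1) := by exact_mod_cast h
  have ha : ((q * j : ℕ) : ℝ) * Real.pi / (k + 1) = j * Real.pi / (k' + 1) := by
    rw [hk]
    push_cast
    field_simp
  unfold cj
  rw [ha]

private theorem fin_cj_pos (k j : ℕ) : 0 < cj k j := by
  unfold cj
  set x := Real.cos (j * Real.pi / (k + 1)) with hx
  have h1 : |x| < Real.sqrt (1 + x ^ 2) := by
    rw [← Real.sqrt_sq_eq_abs]
    exact Real.sqrt_lt_sqrt (sq_nonneg x) (by linarith)
  have h2 : -|x| ≤ x := neg_abs_le x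
  linarith

/-- If `k' + 1` divides `k + 1`, `k + 1 = q (k' + 1)`, multiply the sets of `criterion` by `q`
(`cj k (q j) = cj k' j`; if `k` is even then so is `k'`). -/
theorem mono {k k' : ℕ} (h : k' + 1 ∣ k + 1) (h' : HasRepeatedRoot (Q k')) :
    HasRepeatedRoot (Q k) := by
  classical
  obtain ⟨q, hq0⟩ := h
  have hq : k + 1 = q * (k' + 1) := by rw [hq0, Nat.mul_comm]
  have hqpos : 0 < q := by
    rcases Nat.eq_zero_or_pos q with h0 | h0
    · rw [h0, Nat.zero_mul] at hq
      omega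
    · exact h0
  have hinj : Function.Injective fun j : ℕ => q * j := fun a b hab =>
    Nat.eq_of_mul_eq_mul_left hqpos hab
  obtain ⟨S, hS, T, hT, hne, hprod, hpar⟩ := (criterion k').1 h'
  have hsub : ∀ U ⊆ Finset.Icc 1 (k' / 2), U.image (fun j => q * j) ⊆ Finset.Icc 1 (k / 2) := by
    intro U hU x hx
    obtain ⟨j, hj, rfl⟩ := Finset.mem_image.1 hx
    obtain ⟨h1, h2⟩ := Finset.mem_Icc.1 (hU hj)
    have h3 : j * 2 ≤ k' := by omega
    have h4 : q * j * 2 ≤ q * k' := by
      rw [Nat.mul_assoc]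
      exact Nat.mul_le_mul_left q h3
    have h5 : q * (k' + 1) = q * k' + q := by ring
    refine Finset.mem_Icc.2 ⟨Nat.mul_pos hqpos h1, ?_⟩
    rw [Nat.le_div_iff_mul_le (by norm_num)]
    omega
  have hpr : ∀ U : Finset ℕ, ∏ j ∈ U.image (fun j => q * j), cj k j = ∏ j ∈ U, cj k' j := by
    intro U
    rw [Finset.prod_image fun a _ b _ hab => hinj hab]
    exact Finset.prod_congr rfl fun j _ => fin_cj_mul hq j
  refine (criterion k).2 ⟨S.image (fun j => q * j), hsub S hS, T.image (fun j => q * j),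
    hsub T hT, ?_, ?_, ?_⟩
  · intro he
    exact hne (Finset.image_injective hinj he)
  · rw [hpr S, hpr T]
    exact hprod
  · intro hk
    rw [Finset.card_image_of_injective _ hinj, Finset.card_image_of_injective _ hinj]
    apply hpar
    have h1 : Odd (k + 1) := hk.add_one
    rw [hq] at h1
    have h2 : Odd (k' + 1) := (Nat.odd_mul.1 h1).2
    by_contra h3
    rw [Nat.not_even_iff_odd] at h3
    exact (Nat.not_even_iff_odd.2 h2) h3.add_one

/-- Let `S ≠ T` be as in `criterion`, `J` the set of the rationals `j / (k+1)` with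
`j ∈ (S \ T) ∪ (T \ S)`, `e = 1` on `S \ T` and `-1` on `T \ S`. By `relation_den` the denominator of
`j / (k+1)` divides `M₀` and `k + 1`, hence `g = gcd (k+1, M₀)`, hence `q = (k+1) / g` divides
`j`. So `S' = {j' : q j' ∈ S \ T}` and `T' = {j' : q j' ∈ T \ S}` show by
`criterion` that `Q (g - 1)` has a repeated root (`#S' - #T' = #S - #T`; if `g - 1` is even then
`g` is odd, and since `M₀` is even, `k + 1` is odd, `k` is even). -/
theorem main_imp {k : ℕ} (hk : 1 ≤ k) (h : HasRepeatedRoot (Q k)) :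
    HasRepeatedRoot (Q (Nat.gcd (k + 1) ((Nat.factorial (2 ^ 20)) ^ 2) - 1)) := by
  classical
  have hM2 : 2 ∣ (Nat.factorial (2 ^ 20)) ^ 2 :=
    (Nat.dvd_factorial (by norm_num) (by norm_num)).trans (dvd_pow_self _ (by norm_num))
  have hrel := relation_den
  generalize (Nat.factorial (2 ^ 20)) ^ 2 = M at hM2 hrel ⊢
  have hgdvd : Nat.gcd (k + 1) M ∣ k + 1 := Nat.gcd_dvd_left _ _
  have hgpos : 0 < Nat.gcd (k + 1) M := Nat.gcd_pos_of_pos_left _ (Nat.succ_pos k)
  have hgdef : ∀ d : ℕ, d ∣ k + 1 → d ∣ M → d ∣ Nat.gcd (k + 1) M := fun d => Nat.dvd_gcd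
  have hgeven : ¬ 2 ∣ Nat.gcd (k + 1) M → ¬ 2 ∣ k + 1 := fun h h2 => h (Nat.dvd_gcd h2 hM2)
  generalize Nat.gcd (k + 1) M = g at hgdvd hgpos hgdef hgeven ⊢
  obtain ⟨q, hq0⟩ := hgdvd
  have hq : k + 1 = q * g := by rw [hq0, Nat.mul_comm]
  have hqpos : 0 < q := by
    rcases Nat.eq_zero_or_pos q with h0 | h0
    · rw [h0, Nat.zero_mul] at hq
      omega
    · exact h0
  have hk1 : (0 : ℚ) < (k : ℚ) + 1 := by positivity
  obtain ⟨S, hS, T, hT, hne, hprod, hpar⟩ := (criterion k).1 h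
  have hcap : ∏ j ∈ S ∩ T, cj k j ≠ 0 :=
    Finset.prod_ne_zero_iff.2 fun j _ => (fin_cj_pos k j).ne'
  have hST : ∏ j ∈ S \ T, cj k j = ∏ j ∈ T \ S, cj k j := by
    have h1 : (∏ j ∈ S \ T, cj k j) * ∏ j ∈ S ∩ T, cj k j = ∏ j ∈ S, cj k j := by
      rw [← Finset.sdiff_inter_self_left S T]
      exact Finset.prod_sdiff Finset.inter_subset_left
    have h2 : (∏ j ∈ T \ S, cj k j) * ∏ j ∈ S ∩ T, cj k j = ∏ j ∈ T, cj k j := by
      rw [Finset.inter_comm, ← Finset.sdiff_inter_self_left T S]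
      exact Finset.prod_sdiff Finset.inter_subset_left
    apply mul_right_cancel₀ hcap
    rw [h1, h2, hprod]
  have hdisj : Disjoint (S \ T) (T \ S) := disjoint_sdiff_sdiff
  -- the relation
  set fr : ℕ → ℚ := fun j => (j : ℚ) / (k + 1) with hfr
  have hfrinj : Function.Injective fr := by
    intro a b hab
    have h1 : (a : ℚ) / (k + 1) = (b : ℚ) / (k + 1) := hab
    rw [div_left_inj' hk1.ne'] at h1
    exact_mod_cast h1
  have hUsub : ∀ j ∈ (S \ T) ∪ (T \ S), 1 ≤ j ∧ j * 2 ≤ k := by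
    intro j hj
    have h1 : j ∈ Finset.Icc 1 (k / 2) := by
      rcases Finset.mem_union.1 hj with h | h
      · exact hS (Finset.mem_sdiff.1 h).1
      · exact hT (Finset.mem_sdiff.1 h).1
    obtain ⟨h2, h3⟩ := Finset.mem_Icc.1 h1
    exact ⟨h2, by omega⟩
  set J : Finset ℚ := ((S \ T) ∪ (T \ S)).image fr with hJ
  have hJ1 : ∀ r ∈ J, 0 < r ∧ r < 1 / 2 := by
    intro r hr
    obtain ⟨j, hj, rfl⟩ := Finset.mem_image.1 hr
    obtain ⟨h1, h2⟩ := hUsub j hj
    have h1' : (0 : ℚ) < (j : ℚ) := by exact_mod_cast h1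
    refine ⟨div_pos h1' hk1, ?_⟩
    show (j : ℚ) / (k + 1) < 1 / 2
    rw [div_lt_div_iff₀ hk1 (by norm_num)]
    have h3 : (j : ℚ) * 2 ≤ (k : ℚ) := by exact_mod_cast h2
    linarith
  set e : ℚ → ℤ := fun r => if r ∈ (S \ T).image fr then 1 else -1 with he
  have he1 : ∀ j ∈ S \ T, e (fr j) = 1 := by
    intro j hj
    simp only [he]
    rw [if_pos (Finset.mem_image_of_mem fr hj)]
  have he2 : ∀ j ∈ T \ S, e (fr j) = -1 := by
    intro j hj
    simp only [he]
    rw [if_neg]
    intro hmem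
    obtain ⟨i, hi, hij⟩ := Finset.mem_image.1 hmem
    have := hfrinj hij
    subst this
    exact (Finset.disjoint_left.1 hdisj) hi hj
  have hrel1 : ∏ r ∈ J, gam r ^ e r = 1 := by
    rw [hJ, Finset.prod_image fun a _ b _ hab => hfrinj hab, Finset.prod_union hdisj]
    have h1 : ∏ j ∈ S \ T, gam (fr j) ^ e (fr j) = ∏ j ∈ S \ T, cj k j :=
      Finset.prod_congr rfl fun j hj => by
        rw [he1 j hj, zpow_one, cj_eq_gam]
    have h2 : ∏ j ∈ T \ S, gam (fr j) ^ e (fr j) = (∏ j ∈ T \ S, cj k j)⁻¹ := by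
      rw [← Finset.prod_inv_distrib]
      refine Finset.prod_congr rfl fun j hj => ?_
      rw [he2 j hj, zpow_neg, zpow_one, cj_eq_gam]
    rw [h1, h2, hST]
    exact mul_inv_cancel₀ (Finset.prod_ne_zero_iff.2 fun j _ => (fin_cj_pos k j).ne')
  have hene : ∀ r ∈ J, e r ≠ 0 := by
    intro r _
    simp only [he]
    split_ifs <;> norm_num
  have hden := hrel J hJ1 e hrel1 hene
  have hqdvd : ∀ j ∈ (S \ T) ∪ (T \ S), q ∣ j := by
    intro j hj
    have h1 : (fr j).den ∣ M := hden _ (Finset.mem_image_of_mem fr hj)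
    have h2 : (fr j).den ∣ k + 1 := by
      have h3 : ((fr j).den : ℤ) ∣ ((k + 1 : ℕ) : ℤ) := by
        have h4 := Rat.den_dvd (j : ℤ) ((k + 1 : ℕ) : ℤ)
        have h5 : ((j : ℤ) : ℚ) / (((k + 1 : ℕ) : ℤ) : ℚ) = fr j := by
          simp only [hfr]
          push_cast
          rfl
        rwa [Rat.divInt_eq_div, h5] at h4
      exact_mod_cast h3
    obtain ⟨c, hc⟩ := hgdef _ h2 h1
    have hdpos : (0 : ℚ) < ((fr j).den : ℚ) := by exact_mod_cast (fr j).den_pos
    have h6 : ((fr j).num : ℚ) = fr j * (fr j).den := by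
      exact (Rat.mul_den_eq_num (fr j)).symm
    have h7 : (j : ℚ) = ((fr j).num * c * q : ℤ) := by
      have h8 : ((k : ℚ) + 1) = q * ((fr j).den * c) := by
        have h9 : ((k + 1 : ℕ) : ℚ) = ((q * ((fr j).den * c) : ℕ) : ℚ) := by
          rw [← hc, ← hq]
        push_cast at h9
        exact h9
      have h10 : fr j * ((k : ℚ) + 1) = j := by
        simp only [hfr]
        exact div_mul_cancel₀ _ hk1.ne'
      rw [← h10, h8]
      push_cast
      rw [h6]
      ring
    have h11 : (j : ℤ) = (fr j).num * c * q := by exact_mod_cast h7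
    have h12 : (q : ℤ) ∣ (j : ℤ) := ⟨(fr j).num * c, by rw [h11]; ring⟩
    exact_mod_cast h12
  -- the new sets
  have hg1 : g - 1 + 1 = g := by omega
  have hkq : k + 1 = q * (g - 1 + 1) := by rw [hg1, hq]
  have hsub : ∀ U ⊆ (S \ T) ∪ (T \ S), U.image (fun j => j / q) ⊆ Finset.Icc 1 ((g - 1) / 2) := by
    intro U hU x hx
    obtain ⟨j, hj, rfl⟩ := Finset.mem_image.1 hx
    obtain ⟨j', hj'⟩ := hqdvd j (hU hj)
    obtain ⟨h1, h2⟩ := hUsub j (hU hj)
    show j / q ∈ _
    rw [hj', Nat.mul_div_cancel_left _ hqpos]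
    have h3 : 0 < j' := by
      rcases Nat.eq_zero_or_pos j' with h0 | h0
      · rw [h0, Nat.mul_zero] at hj'
        omega
      · exact h0
    have h4 : q * (j' * 2) < q * g := by
      have : q * (j' * 2) = j * 2 := by rw [hj']; ring
      omega
    have h5 : j' * 2 < g := Nat.lt_of_mul_lt_mul_left h4
    refine Finset.mem_Icc.2 ⟨h3, ?_⟩
    rw [Nat.le_div_iff_mul_le (by norm_num)]
    omega
  have hinj : ∀ U ⊆ (S \ T) ∪ (T \ S), Set.InjOn (fun j => j / q) (U : Set ℕ) := by
    intro U hU a ha b hb hab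
    obtain ⟨a', ha'⟩ := hqdvd a (hU ha)
    obtain ⟨b', hb'⟩ := hqdvd b (hU hb)
    have h1 : a / q = b / q := hab
    rw [ha', hb', Nat.mul_div_cancel_left _ hqpos, Nat.mul_div_cancel_left _ hqpos] at h1
    rw [ha', hb', h1]
  have hpr : ∀ U ⊆ (S \ T) ∪ (T \ S),
      ∏ j ∈ U.image (fun j => j / q), cj (g - 1) j = ∏ j ∈ U, cj k j := by
    intro U hU
    rw [Finset.prod_image (hinj U hU)]
    refine Finset.prod_congr rfl fun j hj => ?_
    obtain ⟨j', hj'⟩ := hqdvd j (hU hj)
    show cj (g - 1) (j / q) = cj k j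
    rw [hj', Nat.mul_div_cancel_left _ hqpos]
    exact (fin_cj_mul hkq j').symm
  have hl : S \ T ⊆ (S \ T) ∪ (T \ S) := Finset.subset_union_left
  have hr : T \ S ⊆ (S \ T) ∪ (T \ S) := Finset.subset_union_right
  refine (criterion (g - 1)).2 ⟨(S \ T).image (fun j => j / q), hsub _ hl,
    (T \ S).image (fun j => j / q), hsub _ hr, ?_, ?_, ?_⟩
  · intro heq
    have hempty : ∀ j, j ∉ (S \ T) ∪ (T \ S) := by
      intro j hj
      have key : ∀ a ∈ S \ T, ∀ b ∈ T \ S, a / q ≠ b / q := by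
        intro a ha b hb hab
        have h1 : a = b := hinj _ (Finset.Subset.refl _) (hl ha) (hr hb) hab
        subst h1
        exact (Finset.disjoint_left.1 hdisj) ha hb
      rcases Finset.mem_union.1 hj with hj | hj
      · have h1 : j / q ∈ (T \ S).image (fun j => j / q) := by
          rw [← heq]
          exact Finset.mem_image_of_mem _ hj
        obtain ⟨b, hb, hab⟩ := Finset.mem_image.1 h1
        exact key j hj b hb hab.symm
      · have h1 : j / q ∈ (S \ T).image (fun j => j / q) := by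
          rw [heq]
          exact Finset.mem_image_of_mem _ hj
        obtain ⟨b, hb, hab⟩ := Finset.mem_image.1 h1
        exact key b hb j hj hab
    apply hne
    ext j
    have h1 := hempty j
    rw [Finset.mem_union, Finset.mem_sdiff, Finset.mem_sdiff] at h1
    tauto
  · rw [hpr _ hl, hpr _ hr, hST]
  · intro hev
    rw [Finset.card_image_of_injOn (hinj _ hl), Finset.card_image_of_injOn (hinj _ hr)]
    have hk2 : Even k := by
      have h1 : ¬ 2 ∣ g := by
        intro h2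
        have h3 : 2 ∣ g - 1 := hev.two_dvd
        omega
      have h2 := hgeven h1
      rcases Nat.even_or_odd k with h3 | h3
      · exact h3
      · exact absurd h3.add_one.two_dvd h2
    have h1 := hpar hk2
    have h2 : (S \ T).card + (S ∩ T).card = S.card := Finset.card_sdiff_add_card_inter S T
    have h3 : (T \ S).card + (T ∩ S).card = T.card := Finset.card_sdiff_add_card_inter T S
    rw [Finset.inter_comm] at h3
    omega

end Pool.Agent.Lib.MP_baf44c_co.FB
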