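import Pool.Agent.Lib.MP_baf44c_co.FB.Defs

/-!
The numbers `gam r`.
-/

set_option autoImplicit false

namespace Pool.Agent.Lib.MP_baf44c_co.FB

/-- `cos π r + √(1 + cos² π r)`. -/
noncomputable def gam (r : ℚ) : ℝ :=
  Real.cos (Real.pi * r) + Real.sqrt (1 + Real.cos (Real.pi * r) ^ 2)

/-- `e^{2πi r}`. -/
noncomputable def xr (r : ℚ) : ℂ := Complex.exp (2 * Real.pi * Complex.I * r)

theorem one_lt_gam {r : ℚ} (h0 : 0 < r) (h1 : r < 1 / 2) : 1 < gam r := by
  have h0' : (0 : ℝ) < (r : ℝ) := by exact_mod_cast h0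
  have h1' : (r : ℝ) < 1 / 2 := by
    have : (r : ℝ) < ((1 / 2 : ℚ) : ℝ) := by exact_mod_cast h1
    simpa using this
  have hc : 0 < Real.cos (Real.pi * r) := by
    apply Real.cos_pos_of_mem_Ioo
    constructor
    · have := mul_pos Real.pi_pos h0'
      linarith [Real.pi_pos]
    · have := mul_lt_mul_of_pos_left h1' Real.pi_pos
      linarith
  have hs : 1 ≤ Real.sqrt (1 + Real.cos (Real.pi * r) ^ 2) := by
    rw [Real.one_le_sqrt]
    nlinarith [sq_nonneg (Real.cos (Real.pi * r))]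
  unfold gam
  linarith

private lemma gam_xr_inv (r : ℚ) : (xr r)⁻¹ = Complex.exp (-(2 * Real.pi * Complex.I * r)) := by
  unfold xr
  rw [Complex.exp_neg]

private lemma gam_pi : (2 * (Real.pi : ℂ) * Complex.I) ≠ 0 := Complex.two_pi_I_ne_zero

private lemma gam_pow (r : ℚ) (K : ℕ) :
    xr r ^ K = Complex.exp (((K : ℂ) * (r : ℂ)) * (2 * Real.pi * Complex.I)) := by
  unfold xr
  rw [← Complex.exp_nat_mul]
  congr 1
  ring

theorem D_xr (r : ℚ) : D (xr r) = ((2 * Real.sqrt (1 + Real.cos (Real.pi * r) ^ 2) : ℝ) : ℂ) ^ 2 := by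
  have h1 : (2 * Real.sqrt (1 + Real.cos (Real.pi * r) ^ 2)) ^ 2 =
      4 * (1 + Real.cos (Real.pi * r) ^ 2) := by
    rw [mul_pow, Real.sq_sqrt (by positivity)]
    norm_num
  rw [← Complex.ofReal_pow, h1]
  push_cast
  have h2 : xr r + (xr r)⁻¹ = 2 * Complex.cos (2 * (Real.pi * (r : ℂ))) := by
    rw [gam_xr_inv]
    unfold xr
    rw [Complex.cos]
    rw [show (2 * (Real.pi : ℂ) * Complex.I * (r : ℂ)) = 2 * (Real.pi * (r : ℂ)) * Complex.I by ring]
    rw [show -(2 * ((Real.pi : ℂ) * (r : ℂ)) * Complex.I) = -(2 * (Real.pi * (r : ℂ))) * Complex.I by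
      ring]
    ring
  unfold D
  rw [h2, Complex.cos_two_mul]
  ring

theorem xr_ne {r s : ℚ} (hr : 0 < r ∧ r < 1 / 2) (hs : 0 < s ∧ s < 1 / 2) (h : r ≠ s) :
    xr r ≠ xr s ∧ xr r ≠ (xr s)⁻¹ := by
  obtain ⟨hr0, hr1⟩ := hr
  obtain ⟨hs0, hs1⟩ := hs
  constructor
  · intro he
    unfold xr at he
    obtain ⟨n, hn⟩ := Complex.exp_eq_exp_iff_exists_int.1 he
    have h1 : (2 * (Real.pi : ℂ) * Complex.I) * (r : ℂ) =
        (2 * (Real.pi : ℂ) * Complex.I) * ((s : ℂ) + (n : ℂ)) := by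
      rw [hn]
      ring
    have h2 := mul_left_cancel₀ gam_pi h1
    have h3 : r = s + n := by exact_mod_cast h2
    have h4 : (n : ℚ) < 1 := by linarith
    have h5 : (-1 : ℚ) < n := by linarith
    have h6 : n < 1 := by exact_mod_cast h4
    have h7 : -1 < n := by exact_mod_cast h5
    have h8 : n = 0 := by omega
    rw [h8] at h3
    simp only [Int.cast_zero, add_zero] at h3
    exact h h3
  · intro he
    rw [gam_xr_inv] at he
    unfold xr at he
    obtain ⟨n, hn⟩ := Complex.exp_eq_exp_iff_exists_int.1 he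
    have h1 : (2 * (Real.pi : ℂ) * Complex.I) * (r : ℂ) =
        (2 * (Real.pi : ℂ) * Complex.I) * (-(s : ℂ) + (n : ℂ)) := by
      rw [hn]
      ring
    have h2 := mul_left_cancel₀ gam_pi h1
    have h3 : r = -s + n := by exact_mod_cast h2
    have h4 : (n : ℚ) < 1 := by linarith
    have h5 : (0 : ℚ) < n := by linarith
    have h6 : n < 1 := by exact_mod_cast h4
    have h7 : 0 < n := by exact_mod_cast h5
    omega

theorem xr_pow {r : ℚ} {K : ℕ} (h : r.den ∣ K) : xr r ^ K = 1 := by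
  obtain ⟨m, rfl⟩ := h
  have h1 : ((r.den * m : ℕ) : ℚ) * r = ((r.num * m : ℤ) : ℚ) := by
    push_cast
    rw [mul_assoc, mul_comm (m : ℚ) r, ← mul_assoc, Rat.den_mul_eq_num]
  have h2 : ((r.den * m : ℕ) : ℂ) * (r : ℂ) = ((r.num * m : ℤ) : ℂ) := by
    exact_mod_cast congrArg (fun q : ℚ => (q : ℂ)) h1
  rw [gam_pow, h2]
  exact Complex.exp_int_mul_two_pi_mul_I _

theorem den_dvd {r : ℚ} {K : ℕ} (h : xr r ^ K = 1) : r.den ∣ K := by
  rw [gam_pow] at h
  obtain ⟨n, hn⟩ := Complex.exp_eq_one_iff.1 h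
  have h2 := mul_right_cancel₀ gam_pi hn
  have h3 : (K : ℚ) * r = n := by exact_mod_cast h2
  have h4 : (K : ℚ) * r.num = n * r.den := by
    rw [← h3, mul_assoc, Rat.mul_den_eq_num]
  have h5 : (K : ℤ) * r.num = n * r.den := by exact_mod_cast h4
  have h6 : (r.den : ℤ) ∣ (K : ℤ) * r.num := ⟨n, by rw [h5, mul_comm]⟩
  have h7 : IsCoprime (r.den : ℤ) r.num := by
    rw [Int.isCoprime_iff_nat_coprime]
    simpa using r.reduced.symm
  exact_mod_cast h7.dvd_of_dvd_mul_right h6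

end Pool.Agent.Lib.MP_baf44c_co.FB
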