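import Pool.Agent.Lib.MP_baf44c_co.FB.GradedA
import Pool.Agent.Lib.MP_baf44c_co.FB.Lift

/-!
The graded case: the squareful part of the order is bounded.
-/

set_option autoImplicit false

namespace Pool.Agent.Lib.MP_baf44c_co.FB

open Polynomial

section

variable {N n N' : ℕ} [NeZero n] (hN0 : 0 < N) (hN : N = n * N')
    (hp : ∀ q : ℕ, q.Prime → q ∣ n → q ∣ N') {τ σ : ℤ} {G : ℂ → ℂ} (hG : IsCyc N G)
    (hsq : ∀ μ ∈ primitiveRoots N ℂ,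
        (eta τ σ μ + 2 * G μ) ^ 2 = D (μ ^ (2 * τ)) * D (μ ^ (2 * σ)))

include hN0 hN hp hG hsq

/-- `pr γ (F²) = pr γ (D D')` at `ζ`: `pr_congr`, `pr_mul`, `DD_eq_sum`, `pr_zpow`. -/
theorem graded_id {ζ : ℂ} (hζ : ζ ∈ primitiveRoots N ℂ) (γ : ZMod n) :
    ∑ i : ZMod n, pr n i (fun ν => eta τ σ ν + 2 * G ν) ζ *
        pr n (γ - i) (fun ν => eta τ σ ν + 2 * G ν) ζ =
      ∑ p ∈ (sg ×ˢ sg).filter (fun p => (p.1 : ZMod n) * (2 * (τ : ZMod n)) +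
          (p.2 : ZMod n) * (2 * (σ : ZMod n)) = γ),
        dd p.1 * dd p.2 * ((ζ ^ (2 * τ)) ^ p.1 * (ζ ^ (2 * σ)) ^ p.2) := by
  have hne : ζ ≠ 0 := ((mem_primitiveRoots hN0).1 hζ).ne_zero hN0.ne'
  have hF : ∀ μ ∈ primitiveRoots N ℂ,
      (fun ν => (eta τ σ ν + 2 * G ν) * (eta τ σ ν + 2 * G ν)) μ =
      (fun ν : ℂ => ∑ p ∈ sg ×ˢ sg, dd p.1 * dd p.2 * ν ^ (p.1 * (2 * τ) + p.2 * (2 * σ))) μ := by
    intro μ hμ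
    have hμ0 : μ ≠ 0 := ((mem_primitiveRoots hN0).1 hμ).ne_zero hN0.ne'
    change (eta τ σ μ + 2 * G μ) * (eta τ σ μ + 2 * G μ) =
      ∑ p ∈ sg ×ˢ sg, dd p.1 * dd p.2 * μ ^ (p.1 * (2 * τ) + p.2 * (2 * σ))
    rw [← DD_eq_sum hμ0, ← hsq μ hμ, sq]
  rw [← pr_mul, pr_congr hN0 hN hp hF γ ζ hζ, pr_sum, Finset.sum_filter]
  refine Finset.sum_congr rfl fun p _ => ?_
  rw [pr_const_mul, pr_zpow]
  push_cast
  split_ifs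
  · rw [zpow_add₀ hne, ← zpow_mul, ← zpow_mul, mul_comm p.1, mul_comm p.2]
  · rw [mul_zero]

end

/-- Main statement of the graded case: apply `exists_half`, `lift_sym` with
`a γ = pr n γ (η + 2 G) ζ`, `t = τ`, `w = σ`, `x = ζ^(2τ)`, `y = ζ^(2σ)`; symmetry from `star_pr` and
`real_of_sq`. (If `addOrderOf (2τ) > 4^10` then `2 τ ≠ 0` in `ZMod n`.) -/
theorem graded_main {N n N' : ℕ} [NeZero n] (hN0 : 0 < N) (hN : N = n * N')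
    (hp : ∀ q : ℕ, q.Prime → q ∣ n → q ∣ N') {ζ : ℂ} (hζ : ζ ∈ primitiveRoots N ℂ) (τ σ : ℤ) {z : ℂ}
    (hz : z ∈ cyc N) (hz2 : z ^ 2 = D (ζ ^ (2 * τ)) * D (ζ ^ (2 * σ)))
    (h1 : ζ ^ (2 * σ) ≠ ζ ^ (2 * τ)) (h2 : ζ ^ (2 * σ) ≠ (ζ ^ (2 * τ))⁻¹) :
    addOrderOf (2 * (τ : ZMod n)) ≤ 4 ^ 10 := by
  by_contra hlt
  rw [not_le] at hlt
  obtain ⟨G, hG, -, hsq⟩ := exists_half hN0 hζ τ σ hz hz2
  have hu : ((2 * τ : ℤ) : ZMod n) ≠ 0 := by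
    intro h
    have h0 : 2 * (τ : ZMod n) = 0 := by exact_mod_cast h
    rw [h0, addOrderOf_zero] at hlt
    norm_num at hlt
  have hn : ∀ μ ∈ primitiveRoots N ℂ, ‖μ‖ = 1 := fun μ hμ =>
    ((mem_primitiveRoots hN0).1 hμ).norm'_eq_one hN0.ne'
  have hreal : ∀ μ ∈ primitiveRoots N ℂ,
      star ((fun ν => eta τ σ ν + 2 * G ν) μ) = (fun ν => eta τ σ ν + 2 * G ν) μ :=
    fun μ hμ => (real_of_sq (hn μ hμ) (hsq μ hμ)).1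
  have hsym : ∀ γ : ZMod n, pr n γ (fun ν => eta τ σ ν + 2 * G ν) ζ ≠ 0 →
      pr n (-γ) (fun ν => eta τ σ ν + 2 * G ν) ζ ≠ 0 := by
    intro γ h h2
    have h3 := star_pr hN0 hN hp hreal γ ζ hζ
    rw [h2, star_eq_zero] at h3
    exact h h3
  have hx : ‖ζ ^ (2 * τ)‖ = 1 := by rw [norm_zpow, hn ζ hζ, one_zpow]
  have hy : ‖ζ ^ (2 * σ)‖ = 1 := by rw [norm_zpow, hn ζ hζ, one_zpow]
  rcases lift_sym (fun γ => pr n γ (fun ν => eta τ σ ν + 2 * G ν) ζ) (τ : ZMod n) (σ : ZMod n)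
      (ζ ^ (2 * τ)) (ζ ^ (2 * σ)) hx hy hsym (graded_card hN0 hN hp hG hsq hu hζ) hlt
      (graded_id hN0 hN hp hG hsq hζ) with h | h
  · exact h1 h
  · exact h2 h

end Pool.Agent.Lib.MP_baf44c_co.FB
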