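import Pool.Agent.Lib.MP_baf44c_co.FB.Ring

/-!
Splitting off `η = (t - 1/t)(w - 1/w)`: `z = η + 2 b` with an integral `b`.
-/

set_option autoImplicit false

namespace Pool.Agent.Lib.MP_baf44c_co.FB

open Polynomial

/-- `D x = 2 Re x + 6` for `|x| = 1`. -/
theorem D_real {x : ℂ} (hx : ‖x‖ = 1) : ∃ r : ℝ, 4 ≤ r ∧ r ≤ 8 ∧ D x = (r : ℂ) := by
  have h1 : x⁻¹ = (starRingEnd ℂ) x := by
    rw [Complex.inv_def, Complex.normSq_eq_norm_sq, hx]
    simp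
  have h2 := Complex.abs_re_le_norm x
  rw [hx, abs_le] at h2
  refine ⟨2 * x.re + 6, by linarith [h2.1], by linarith [h2.2], ?_⟩
  unfold D
  rw [h1, Complex.add_conj]
  push_cast
  ring

/-- A square root of a positive real number is real. -/
theorem star_of_sq {w : ℂ} {r : ℝ} (hr : 0 < r) (h : w ^ 2 = (r : ℂ)) :
    star w = w ∧ ‖w‖ ^ 2 = r := by
  constructor
  · have h1 : w ^ 2 = ((Real.sqrt r : ℝ) : ℂ) ^ 2 := by
      rw [h, ← Complex.ofReal_pow, Real.sq_sqrt hr.le]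
    rcases sq_eq_sq_iff_eq_or_eq_neg.1 h1 with h2 | h2
    · rw [h2]
      exact Complex.conj_ofReal _
    · rw [h2, star_neg]
      congr 1
      exact Complex.conj_ofReal _
  · rw [← norm_pow, h, Complex.norm_real, Real.norm_of_nonneg hr.le]

/-- For `|μ| = 1` and `F ^ 2 = D (μ ^ (2τ)) D (μ ^ (2σ))`: `F` is real and
`‖F‖² = D (μ ^ (2τ)) D (μ ^ (2σ))` (as a complex number). -/
theorem real_of_sq {μ w : ℂ} (hμ : ‖μ‖ = 1) {e f : ℤ} (h : w ^ 2 = D (μ ^ e) * D (μ ^ f)) :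
    star w = w ∧ ((‖w‖ ^ 2 : ℝ) : ℂ) = D (μ ^ e) * D (μ ^ f) := by
  have hn : ∀ e : ℤ, ‖μ ^ e‖ = 1 := by
    intro e
    rw [norm_zpow, hμ, one_zpow]
  obtain ⟨r, hr1, -, hr⟩ := D_real (hn e)
  obtain ⟨s, hs1, -, hs⟩ := D_real (hn f)
  rw [hr, hs, ← Complex.ofReal_mul] at h ⊢
  obtain ⟨h1, h2⟩ := star_of_sq (by positivity) h
  exact ⟨h1, by rw [h2]⟩

private theorem Half_ne {N : ℕ} (hN : 0 < N) {ζ : ℂ} (hζ : ζ ∈ primitiveRoots N ℂ) : ζ ≠ 0 :=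
  ((mem_primitiveRoots hN).1 hζ).ne_zero hN.ne'

private theorem Half_int {N : ℕ} (hN : 0 < N) {ζ : ℂ} (hζ : ζ ∈ primitiveRoots N ℂ) (e : ℤ) :
    IsIntegral ℤ (ζ ^ e) := by
  refine IsIntegral.of_pow hN ?_
  have h1 : (ζ ^ e) ^ N = 1 := by
    rw [← zpow_natCast, ← zpow_mul, mul_comm, zpow_mul, zpow_natCast,
      ((mem_primitiveRoots hN).1 hζ).pow_eq_one, one_zpow]
  rw [h1]
  exact isIntegral_one

private theorem Half_mem {N : ℕ} (hN : 0 < N) {ζ : ℂ} (hζ : ζ ∈ primitiveRoots N ℂ) (e : ℤ) :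
    ζ ^ e ∈ cyc N := by
  refine zpow_mem ?_ e
  have : NeZero N := ⟨hN.ne'⟩
  have h0 := Complex.isPrimitiveRoot_exp N hN.ne'
  obtain ⟨i, -, hi⟩ := h0.eq_pow_of_pow_eq_one ((mem_primitiveRoots hN).1 hζ).pow_eq_one
  rw [← hi]
  exact pow_mem (IntermediateField.subset_adjoin ℚ _ (Set.mem_singleton _)) i

/-- `z` is integral over `ℤ` (`z ^ 2` is). With `X = ζ^(2τ) + ζ^(-2τ)`, `Y = ζ^(2σ) + ζ^(-2σ)` one has
`η ^ 2 = (X - 2) (Y - 2)`, `z ^ 2 = (X + 6) (Y + 6)`, so `b = (z - η) / 2` satisfies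
`b ^ 2 + η b = 2 (X + Y + 4)`: `b` is integral (monic quadratic over the integral elements) and lies
in `cyc N`. Take `G` from `exists_isCyc`. The last part: both sides are `IsCyc N`
and agree at `ζ`, hence everywhere (`IsCyc.eq_zero`). -/
theorem exists_half {N : ℕ} (hN : 0 < N) {ζ : ℂ} (hζ : ζ ∈ primitiveRoots N ℂ) (τ σ : ℤ) {z : ℂ}
    (hz : z ∈ cyc N) (hz2 : z ^ 2 = D (ζ ^ (2 * τ)) * D (ζ ^ (2 * σ))) :
    ∃ G : ℂ → ℂ, IsCyc N G ∧ eta τ σ ζ + 2 * G ζ = z ∧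
      ∀ μ ∈ primitiveRoots N ℂ,
        (eta τ σ μ + 2 * G μ) ^ 2 = D (μ ^ (2 * τ)) * D (μ ^ (2 * σ)) := by
  have hζ0 := Half_ne hN hζ
  set η := eta τ σ ζ with hη
  set c : ℂ := 2 * (ζ ^ (2 * τ) + ζ ^ (-(2 * τ)) + (ζ ^ (2 * σ) + ζ ^ (-(2 * σ))) + 4) with hc
  have hη2 : η ^ 2 = (ζ ^ (2 * τ) + ζ ^ (-(2 * τ)) - 2) * (ζ ^ (2 * σ) + ζ ^ (-(2 * σ)) - 2) := by
    rw [hη]
    unfold eta
    have ht : ζ ^ τ ≠ 0 := zpow_ne_zero _ hζ0
    have hw : ζ ^ σ ≠ 0 := zpow_ne_zero _ hζ0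
    rw [zpow_neg, zpow_neg, zpow_neg, zpow_add₀ hζ0, zpow_sub₀ hζ0, zpow_sub₀ hζ0, two_mul,
      two_mul, zpow_add₀ hζ0, zpow_add₀ hζ0]
    field_simp
    ring
  have hD : ∀ e : ℤ, D (ζ ^ e) = ζ ^ e + ζ ^ (-e) + 6 := by
    intro e
    unfold D
    rw [zpow_neg]
  rw [hD, hD] at hz2
  set b : ℂ := (z - η) / 2 with hb
  have hb2 : b ^ 2 + η * b - c = 0 := by
    have : b ^ 2 + η * b - c = (z ^ 2 - η ^ 2) / 4 - c := by
      rw [hb]; ring
    rw [this, hz2, hη2, hc]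
    ring
  have hηint : IsIntegral ℤ η := by
    rw [hη]
    unfold eta
    exact (((Half_int hN hζ _).add (Half_int hN hζ _)).sub (Half_int hN hζ _)).sub
      (Half_int hN hζ _)
  have hnat : ∀ n : ℕ, IsIntegral ℤ (n : ℂ) := fun n => by
    have := isIntegral_algebraMap (R := ℤ) (A := ℂ) (x := (n : ℤ))
    simpa using this
  have hcint : IsIntegral ℤ c := by
    rw [hc]
    have h2 : IsIntegral ℤ (2 : ℂ) := by simpa using hnat 2
    have h4 : IsIntegral ℤ (4 : ℂ) := by simpa using hnat 4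
    exact h2.mul ((((Half_int hN hζ _).add (Half_int hN hζ _)).add
      ((Half_int hN hζ _).add (Half_int hN hζ _))).add h4)
  have hbint : IsIntegral ℤ b := by
    have h1 : IsIntegral (integralClosure ℤ ℂ) b := by
      refine ⟨X ^ 2 + (C (⟨η, hηint⟩ : integralClosure ℤ ℂ) * X -
        C (⟨c, hcint⟩ : integralClosure ℤ ℂ)), ?_, ?_⟩
      · refine monic_X_pow_add ?_
        refine lt_of_le_of_lt (degree_sub_le _ _) ?_
        refine max_lt (lt_of_le_of_lt (degree_C_mul_X_le _) (by norm_num))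
          (lt_of_le_of_lt degree_C_le (by norm_num))
      · simp only [eval₂_add, eval₂_sub, eval₂_mul, eval₂_pow, eval₂_X, eval₂_C]
        change b ^ 2 + (η * b - c) = 0
        rw [← hb2]
        ring
    exact isIntegral_trans b h1
  have hηmem : η ∈ cyc N := by
    rw [hη]
    unfold eta
    exact sub_mem (sub_mem (add_mem (Half_mem hN hζ _) (Half_mem hN hζ _)) (Half_mem hN hζ _))
      (Half_mem hN hζ _)
  have hbmem : b ∈ cyc N := by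
    rw [hb]
    have h2 : (2 : ℂ) ∈ cyc N := by
      simp
    exact div_mem (sub_mem hz hηmem) h2
  obtain ⟨G, hG, hGζ⟩ := exists_isCyc hN hζ hbmem hbint
  refine ⟨G, hG, ?_, ?_⟩
  · rw [hGζ, hb]
    ring
  · have hcyc : IsCyc N (fun μ => (eta τ σ μ + 2 * G μ) * (eta τ σ μ + 2 * G μ) -
        D (μ ^ (2 * τ)) * D (μ ^ (2 * σ))) := by
      have h1 : IsCyc N (fun μ => eta τ σ μ + 2 * G μ) := by
        refine (isCyc_eta hN τ σ).add ?_
        have h3 : IsCyc N (fun μ => ((2 : ℤ) : ℂ) * G μ) := (isCyc_int N 2).mul hG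
        simpa using h3
      exact (h1.mul h1).sub ((isCyc_D hN _).mul (isCyc_D hN _))
    have h0 : (fun μ => (eta τ σ μ + 2 * G μ) * (eta τ σ μ + 2 * G μ) -
        D (μ ^ (2 * τ)) * D (μ ^ (2 * σ))) ζ = 0 := by
      simp only
      rw [hGζ, hD, hD, ← hz2, ← hη, hb]
      ring
    intro μ hμ
    have := hcyc.eq_zero hζ h0 μ hμ
    rw [sq]
    exact sub_eq_zero.1 this

end Pool.Agent.Lib.MP_baf44c_co.FB
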