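import Pool.Agent.Lib.MP_baf44c_co.FB.ProjPrim
import Pool.Agent.Lib.MP_baf44c_co.FB.Norm
import Pool.Agent.Lib.MP_baf44c_co.FB.Half
import Pool.Agent.Lib.MP_baf44c_co.FB.Weight

/-!
The graded case: number of components.
-/

set_option autoImplicit false

namespace Pool.Agent.Lib.MP_baf44c_co.FB

open Polynomial

section

variable {N n N' : ℕ} [NeZero n] (hN0 : 0 < N) (hN : N = n * N')
    (hp : ∀ q : ℕ, q.Prime → q ∣ n → q ∣ N') {τ σ : ℤ} {G : ℂ → ℂ} (hG : IsCyc N G)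
    (hsq : ∀ μ ∈ primitiveRoots N ℂ,
        (eta τ σ μ + 2 * G μ) ^ 2 = D (μ ^ (2 * τ)) * D (μ ^ (2 * σ)))

include hN0 hN hp hG hsq

/-- For `F = η + 2 G`: `∑_μ ∑_γ ‖pr γ F μ‖² = ∑_μ ‖F μ‖²` (`sum_prim_sq`) `= ∑_μ D D'`
(`real_of_sq`) `= ∑_μ pr 0 (D D') μ` (`sum_prim_eq`), and `pr 0 (D D') μ` is the sum of the terms of
degree `0` (`DD_eq_sum`, `pr_zpow`), of norm at most `48` (`weight_le`, `‖μ‖ = 1`). Number of
`μ`: `φ N`. -/
theorem graded_sum_le (hu : ((2 * τ : ℤ) : ZMod n) ≠ 0) :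
    ∑ μ ∈ primitiveRoots N ℂ, ∑ γ : ZMod n, ‖pr n γ (fun ν => eta τ σ ν + 2 * G ν) μ‖ ^ 2 ≤
      48 * N.totient := by
  have _ := hG
  rw [← sum_prim_sq hN0 hN hp]
  have hcard : (primitiveRoots N ℂ).card = N.totient :=
    (Complex.isPrimitiveRoot_exp N hN0.ne').card_primitiveRoots
  have hnorm : ∀ μ ∈ primitiveRoots N ℂ, ‖μ‖ = 1 := by
    intro μ hμ
    exact ((mem_primitiveRoots hN0).1 hμ).norm'_eq_one hN0.ne'
  have hne : ∀ μ ∈ primitiveRoots N ℂ, μ ≠ 0 := by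
    intro μ hμ h
    have := hnorm μ hμ
    rw [h, norm_zero] at this
    exact zero_ne_one this
  have h1 : ((∑ μ ∈ primitiveRoots N ℂ, ‖eta τ σ μ + 2 * G μ‖ ^ 2 : ℝ) : ℂ) =
      ∑ μ ∈ primitiveRoots N ℂ, pr n 0 (fun ν => D (ν ^ (2 * τ)) * D (ν ^ (2 * σ))) μ := by
    rw [← sum_prim_eq hN0 hN hp, Complex.ofReal_sum]
    refine Finset.sum_congr rfl fun μ hμ => ?_
    exact (real_of_sq (hnorm μ hμ) (hsq μ hμ)).2
  have h2 : ∀ μ ∈ primitiveRoots N ℂ,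
      ‖pr n 0 (fun ν => D (ν ^ (2 * τ)) * D (ν ^ (2 * σ))) μ‖ ≤ 48 := by
    intro μ hμ
    have e1 : pr n 0 (fun ν => D (ν ^ (2 * τ)) * D (ν ^ (2 * σ))) μ =
        pr n 0 (fun ν => ∑ p ∈ sg ×ˢ sg, dd p.1 * dd p.2 * ν ^ (p.1 * (2 * τ) + p.2 * (2 * σ))) μ :=
      pr_congr hN0 hN hp (fun ν hν => DD_eq_sum (hne ν hν) τ σ) 0 μ hμ
    rw [e1, pr_sum]
    simp only [pr_const_mul, pr_zpow]
    have hu2 : (2 * (τ : ZMod n)) ≠ 0 := by
      intro h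
      apply hu
      push_cast
      exact h
    refine le_trans ?_ (weight_le (u := 2 * (τ : ZMod n)) (v := 2 * (σ : ZMod n)) hu2)
    rw [Finset.sum_filter]
    refine (norm_sum_le _ _).trans (Finset.sum_le_sum fun p _ => ?_)
    have hiff : ((p.1 * (2 * τ) + p.2 * (2 * σ) : ℤ) : ZMod n) = 0 ↔
        (p.1 : ZMod n) * (2 * (τ : ZMod n)) + (p.2 : ZMod n) * (2 * (σ : ZMod n)) = 0 := by
      push_cast
      rfl
    by_cases h : (p.1 : ZMod n) * (2 * (τ : ZMod n)) + (p.2 : ZMod n) * (2 * (σ : ZMod n)) = 0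
    · rw [if_pos (hiff.2 h), if_pos h, norm_mul, norm_zpow, hnorm μ hμ, one_zpow, mul_one]
    · rw [if_neg (fun h' => h (hiff.1 h')), if_neg h, mul_zero, norm_zero]
  have h3 : ‖((∑ μ ∈ primitiveRoots N ℂ, ‖eta τ σ μ + 2 * G μ‖ ^ 2 : ℝ) : ℂ)‖ ≤
      48 * N.totient := by
    rw [h1]
    refine (norm_sum_le _ _).trans ((Finset.sum_le_sum h2).trans ?_)
    rw [Finset.sum_const, hcard, nsmul_eq_mul, mul_comm]
  rwa [Complex.norm_real, Real.norm_of_nonneg (Finset.sum_nonneg fun μ _ => by positivity)] at h3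

/-- For `γ` off the four classes `pr γ F = 2 pr γ G` (`pr_zpow`, `pr_add`, ..), and if this is not
zero at `ζ` then `4 φ N ≤ ∑_μ ‖pr γ F μ‖²` (`isCyc_pr`, `IsCyc.sum_sq_ge`). Sum over these `γ` and
compare with `graded_sum_le`: `4 · # ≤ 48`. -/
theorem graded_card (hu : ((2 * τ : ℤ) : ZMod n) ≠ 0) {ζ : ℂ} (hζ : ζ ∈ primitiveRoots N ℂ) :
    (Finset.univ.filter (fun γ : ZMod n =>
      pr n γ (fun ν => eta τ σ ν + 2 * G ν) ζ ≠ 0 ∧ γ ≠ (τ : ZMod n) + σ ∧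
      γ ≠ -((τ : ZMod n) + σ) ∧ γ ≠ (τ : ZMod n) - σ ∧ γ ≠ (σ : ZMod n) - τ)).card ≤ 12 := by
  have hle := graded_sum_le hN0 hN hp hG hsq hu
  rw [Finset.sum_comm] at hle
  set S := Finset.univ.filter (fun γ : ZMod n =>
      pr n γ (fun ν => eta τ σ ν + 2 * G ν) ζ ≠ 0 ∧ γ ≠ (τ : ZMod n) + σ ∧
      γ ≠ -((τ : ZMod n) + σ) ∧ γ ≠ (τ : ZMod n) - σ ∧ γ ≠ (σ : ZMod n) - τ) with hS
  have hphi : (0 : ℝ) < N.totient := by exact_mod_cast Nat.totient_pos.2 hN0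
  have hγ : ∀ γ ∈ S, 4 * (N.totient : ℝ) ≤
      ∑ μ ∈ primitiveRoots N ℂ, ‖pr n γ (fun ν => eta τ σ ν + 2 * G ν) μ‖ ^ 2 := by
    intro γ hγ
    rw [hS, Finset.mem_filter] at hγ
    obtain ⟨-, h0, g1, g2, g3, g4⟩ := hγ
    have hpr : ∀ μ : ℂ, pr n γ (fun ν => eta τ σ ν + 2 * G ν) μ = 2 * pr n γ G μ := by
      intro μ
      rw [pr_add, pr_const_mul]
      have heta : pr n γ (fun ν => eta τ σ ν) μ = 0 := by
        unfold eta
        rw [pr_sub, pr_sub, pr_add, pr_zpow, pr_zpow, pr_zpow, pr_zpow, if_neg, if_neg, if_neg,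
          if_neg]
        · ring
        · intro h; apply g4; rw [← h]; push_cast; ring
        · intro h; apply g3; rw [← h]; push_cast; ring
        · intro h; apply g2; rw [← h]; push_cast; ring
        · intro h; apply g1; rw [← h]; push_cast; ring
      rw [heta, zero_add]
    have h0' : pr n γ G ζ ≠ 0 := by
      intro h
      apply h0
      rw [hpr, h, mul_zero]
    have h1 := (isCyc_pr hN0 hN hp hG γ).sum_sq_ge hN0 hζ h0'
    have h2 : ∑ μ ∈ primitiveRoots N ℂ, ‖pr n γ (fun ν => eta τ σ ν + 2 * G ν) μ‖ ^ 2 =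
        4 * ∑ μ ∈ primitiveRoots N ℂ, ‖pr n γ G μ‖ ^ 2 := by
      rw [Finset.mul_sum]
      refine Finset.sum_congr rfl fun μ _ => ?_
      rw [hpr, norm_mul, mul_pow, Complex.norm_ofNat]
      norm_num
    rw [h2]
    linarith
  have hsum : (S.card : ℝ) * (4 * N.totient) ≤ 48 * N.totient := by
    calc (S.card : ℝ) * (4 * N.totient) = ∑ _γ ∈ S, 4 * (N.totient : ℝ) := by
          rw [Finset.sum_const, nsmul_eq_mul]
      _ ≤ ∑ γ ∈ S, ∑ μ ∈ primitiveRoots N ℂ,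
          ‖pr n γ (fun ν => eta τ σ ν + 2 * G ν) μ‖ ^ 2 := Finset.sum_le_sum hγ
      _ ≤ ∑ γ : ZMod n, ∑ μ ∈ primitiveRoots N ℂ,
          ‖pr n γ (fun ν => eta τ σ ν + 2 * G ν) μ‖ ^ 2 :=
          Finset.sum_le_sum_of_subset_of_nonneg (Finset.subset_univ _)
            (fun γ _ _ => Finset.sum_nonneg fun μ _ => by positivity)
      _ ≤ _ := hle
  have hfin : (S.card : ℝ) ≤ 12 := by
    by_contra hcon
    rw [not_le] at hcon
    nlinarith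
  exact_mod_cast hfin

end

end Pool.Agent.Lib.MP_baf44c_co.FB
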