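import Pool.Agent.Lib.MP_baf44c_co.FB.PairRad
import Pool.Agent.Lib.MP_baf44c_co.FB.CasselsMain

/-!
The pair theorem: large primes.
-/

set_option autoImplicit false

namespace Pool.Agent.Lib.MP_baf44c_co.FB

/-- The order of `x` is not divisible by `p²` for `p > 4^10`. -/
theorem pairPrime_sq {K : ℕ} (hK : 0 < K) {x y z : ℂ} (hxK : x ^ K = 1) (hyK : y ^ K = 1)
    (hz : z ∈ cyc K) (hz2 : z ^ 2 = D x * D y) (h1 : y ≠ x) (h2 : y ≠ x⁻¹) {p : ℕ}
    (hp : p.Prime) (hbig : 4 ^ 10 < p) : ¬ p ^ 2 ∣ orderOf x := by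
  obtain ⟨e, he0, hele, he⟩ := pair_rad hK hxK hyK hz hz2 h1 h2
  intro hd
  have h3 : p ^ 2 ∣ e * ∏ q ∈ (2 * K).primeFactors, q := hd.trans (orderOf_dvd_of_pow_eq_one he)
  have h4 : ¬ p ∣ e := fun h => by
    have := Nat.le_of_dvd he0 h
    omega
  have h5 : Nat.Coprime (p ^ 2) e := Nat.Coprime.pow_left 2 ((Nat.Prime.coprime_iff_not_dvd hp).2 h4)
  have h6 : p ^ 2 ∣ ∏ q ∈ (2 * K).primeFactors, q := h5.dvd_of_dvd_mul_left h3
  have hsq : Squarefree (∏ q ∈ (2 * K).primeFactors, q) := by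
    have hN : 2 * K ≠ 0 := by omega
    rw [← Nat.radical_eq_prod_primeFactors]
    exact UniqueFactorizationMonoid.squarefree_radical
  have h7 := hsq p (by rw [← pow_two]; exact h6)
  exact hp.one_lt.ne' (Nat.isUnit_iff.1 h7)

theorem pairPrime_dvd {p k M' m : ℕ} (hp : p.Prime) (hpM : ¬ p ∣ M') (hm : m ∣ p ^ k * M')
    (hsq : ¬ p ^ 2 ∣ m) : m ∣ p * M' := by
  obtain ⟨a, b, ha, hb, hab⟩ := exists_dvd_and_dvd_of_dvd_mul hm
  obtain ⟨i, hi, rfl⟩ := (Nat.dvd_prime_pow hp).1 ha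
  have hi1 : i ≤ 1 := by
    by_contra h
    apply hsq
    rw [hab]
    exact Dvd.dvd.mul_right (pow_dvd_pow p (by omega)) b
  rw [hab]
  refine mul_dvd_mul ?_ hb
  calc p ^ i ∣ p ^ 1 := pow_dvd_pow p hi1
    _ = p := pow_one p

theorem pairPrime_D_mem {N : ℕ} {x : ℂ} (hx : x ∈ cyc N) : D x ∈ cyc N := by
  unfold D
  refine add_mem (add_mem hx (inv_mem hx)) ?_
  exact_mod_cast natCast_mem (cyc N) 6

/-- Let `p > 4^10` be a prime dividing the order of `x`. By `pair_rad` for `(x, y)` and `(y, x)` the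
orders of `x` and `y` are not divisible by `p²`. Write `2 K = p^k M`, `p ∤ M` (`k ≥ 1`, `M` is even);
then `x` and `y` are powers `ζ^(2τ)`, `ζ^(2σ)` of `ζ = exp (2πi/(p M))`, and `z ∈ cyc (p M)`
by `descend` (`z² = D x D y` and `x, y ∈ cyc (p M)`). `cassels_main` gives `p ∣ τ`, so the order
of `x` divides `p M / 2 / p`: contradiction. -/
theorem pair_prime {K : ℕ} (hK : 0 < K) {x y z : ℂ} (hxK : x ^ K = 1) (hyK : y ^ K = 1)
    (hz : z ∈ cyc K) (hz2 : z ^ 2 = D x * D y) (h1 : y ≠ x) (h2 : y ≠ x⁻¹) {p : ℕ}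
    (hp : p.Prime) (hbig : 4 ^ 10 < p) : ¬ p ∣ orderOf x := by
  intro hpx
  have hx2 := pairPrime_sq hK hxK hyK hz hz2 h1 h2 hp hbig
  have h2' : x ≠ y⁻¹ := fun h => h2 (by rw [h, inv_inv])
  have hy2 := pairPrime_sq hK hyK hxK hz (by rw [hz2, mul_comm]) h1.symm h2' hp hbig
  have hpK : p ∣ K := hpx.trans (orderOf_dvd_of_pow_eq_one hxK)
  obtain ⟨k, M', hM', hKM⟩ := Nat.exists_eq_pow_mul_and_not_dvd hK.ne' p hp.ne_one
  have hk : 1 ≤ k := by
    rcases Nat.eq_zero_or_pos k with rfl | h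
    · rw [pow_zero, one_mul] at hKM
      rw [hKM] at hpK
      exact (hM' hpK).elim
    · exact h
  have hM'0 : 0 < M' := by
    rcases Nat.eq_zero_or_pos M' with rfl | h
    · exact (hM' (dvd_zero p)).elim
    · exact h
  have hxd : orderOf x ∣ p * M' := pairPrime_dvd hp hM'
    (by rw [← hKM]; exact orderOf_dvd_of_pow_eq_one hxK) hx2
  have hyd : orderOf y ∣ p * M' := pairPrime_dvd hp hM'
    (by rw [← hKM]; exact orderOf_dvd_of_pow_eq_one hyK) hy2
  have hx1 : x ^ (p * M') = 1 := orderOf_dvd_iff_pow_eq_one.1 hxd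
  have hy1 : y ^ (p * M') = 1 := orderOf_dvd_iff_pow_eq_one.1 hyd
  have hpM'0 : 0 < p * M' := Nat.mul_pos hp.pos hM'0
  have hN0 : 0 < 2 * (p * M') := by omega
  have hprim := Complex.isPrimitiveRoot_exp (2 * (p * M')) hN0.ne'
  set ζ : ℂ := Complex.exp (2 * Real.pi * Complex.I / ((2 * (p * M') : ℕ) : ℂ)) with hζdef
  obtain ⟨τ, hτ⟩ := pairRad_exists_zpow hpM'0 hprim hx1
  obtain ⟨σ, hσ⟩ := pairRad_exists_zpow hpM'0 hprim hy1
  have heq : 2 * (p * M') = p * (2 * M') := by ring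
  have hp2 : p ≠ 2 := by
    rintro rfl
    norm_num at hbig
  have hp2M : ¬ p ∣ 2 * M' := by
    intro h
    rcases (Nat.Prime.dvd_mul hp).1 h with h | h
    · exact hp2 ((Nat.prime_dvd_prime_iff_eq hp Nat.prime_two).1 h)
    · exact hM' h
  have hζmem : ζ ∈ cyc (p * (2 * M')) := by
    rw [← heq]
    exact IntermediateField.mem_adjoin_simple_self ℚ _
  have hxm : x ∈ cyc (p * (2 * M')) := by
    rw [hτ]
    exact zpow_mem hζmem _
  have hym : y ∈ cyc (p * (2 * M')) := by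
    rw [hσ]
    exact zpow_mem hζmem _
  have hz2m : z ^ 2 ∈ cyc (p * (2 * M')) := by
    rw [hz2]
    exact mul_mem (pairPrime_D_mem hxm) (pairPrime_D_mem hym)
  have hpos : 0 < p ^ k * (2 * M') := Nat.mul_pos (pow_pos hp.pos k) (by omega)
  have hzk : z ∈ cyc (p ^ k * (2 * M')) := by
    refine cyc_mono hpos ?_ hz
    rw [hKM]
    exact mul_dvd_mul_left _ (Dvd.intro_left 2 rfl)
  have hzm : z ∈ cyc (p * (2 * M')) :=
    descend hp hp2 (by omega) hp2M hk hzk hz2m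
  have hmem : ζ ∈ primitiveRoots (p * (2 * M')) ℂ := by
    rw [mem_primitiveRoots (by rw [← heq]; exact hN0), ← heq]
    exact hprim
  have hdiv := cassels_main hp (by omega : 0 < 2 * M') hp2M hbig hmem τ σ hzm
    (by rw [← hτ, ← hσ]; exact hz2) (by rw [← hτ, ← hσ]; exact h1)
    (by rw [← hτ, ← hσ]; exact h2)
  obtain ⟨c, hc⟩ := hdiv
  have hxM : x ^ M' = 1 := by
    have h5 : x ^ M' = ζ ^ (((2 * (p * M') : ℕ) : ℤ) * c) := by
      rw [hτ, ← zpow_natCast, ← zpow_mul]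
      congr 1
      rw [hc]
      push_cast
      ring
    rw [h5, zpow_mul, zpow_natCast, hprim.pow_eq_one, one_zpow]
  exact hM' (hpx.trans (orderOf_dvd_of_pow_eq_one hxM))

end Pool.Agent.Lib.MP_baf44c_co.FB
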