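import Pool.Agent.Lib.MP_baf44c_co.FB.Graded
import Pool.Agent.Lib.MP_baf44c_co.FB.Descent

/-!
The pair theorem: squareful part.
-/

set_option autoImplicit false

namespace Pool.Agent.Lib.MP_baf44c_co.FB

/-- A `K`-th root of unity is an even power of a primitive `2 K`-th root of unity. -/
theorem pairRad_exists_zpow {K : ℕ} (hK : 0 < K) {ζ x : ℂ} (hζ : IsPrimitiveRoot ζ (2 * K))
    (hx : x ^ K = 1) : ∃ τ : ℤ, x = ζ ^ (2 * τ) := by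
  have h1 : IsPrimitiveRoot (ζ ^ 2) K := hζ.pow (by omega) rfl
  haveI : NeZero K := ⟨hK.ne'⟩
  obtain ⟨i, -, hi⟩ := h1.eq_pow_of_pow_eq_one hx
  refine ⟨i, ?_⟩
  rw [← hi, ← pow_mul, ← zpow_natCast]
  norm_num

/-- With `N = 2 K`, `ζ = exp (2πi/N)`: `x = ζ^(2τ)`, `y = ζ^(2σ)`; `N' = ∏ primeFactors N`,
`n = N / N'`. By `graded_main` `e = addOrderOf (2τ : ZMod n) ≤ 4^10`, so `n ∣ 2 τ e`,
`N ∣ 2 τ e N'`, `x ^ (e N') = 1`. -/
theorem pair_rad {K : ℕ} (hK : 0 < K) {x y z : ℂ} (hxK : x ^ K = 1) (hyK : y ^ K = 1)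
    (hz : z ∈ cyc K) (hz2 : z ^ 2 = D x * D y) (h1 : y ≠ x) (h2 : y ≠ x⁻¹) :
    ∃ e : ℕ, 0 < e ∧ e ≤ 4 ^ 10 ∧ x ^ (e * ∏ p ∈ (2 * K).primeFactors, p) = 1 := by
  have hN0 : 0 < 2 * K := by omega
  have hprim := Complex.isPrimitiveRoot_exp (2 * K) hN0.ne'
  set ζ : ℂ := Complex.exp (2 * Real.pi * Complex.I / ((2 * K : ℕ) : ℂ)) with hζdef
  obtain ⟨τ, hτ⟩ := pairRad_exists_zpow hK hprim hxK
  obtain ⟨σ, hσ⟩ := pairRad_exists_zpow hK hprim hyK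
  have hdvd : ∏ p ∈ (2 * K).primeFactors, p ∣ 2 * K := Nat.prod_primeFactors_dvd _
  obtain ⟨n, hn⟩ := hdvd
  have hn0 : n ≠ 0 := by
    rintro rfl
    rw [mul_zero] at hn
    omega
  haveI : NeZero n := ⟨hn0⟩
  have hN : 2 * K = n * ∏ p ∈ (2 * K).primeFactors, p := by
    rw [mul_comm n]
    exact hn
  have hp : ∀ q : ℕ, q.Prime → q ∣ n → q ∣ ∏ p ∈ (2 * K).primeFactors, p := by
    intro q hq hqn
    have hq2 : q ∣ 2 * K := by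
      rw [hN]
      exact Dvd.dvd.mul_right hqn _
    exact Finset.dvd_prod_of_mem _ (Nat.mem_primeFactors.2 ⟨hq, hq2, hN0.ne'⟩)
  have hzN : z ∈ cyc (2 * K) := cyc_mono hN0 (Dvd.intro_left 2 rfl) hz
  have hmem : ζ ∈ primitiveRoots (2 * K) ℂ := (mem_primitiveRoots hN0).2 hprim
  have hle := graded_main hN0 hN hp hmem τ σ hzN (by rw [← hτ, ← hσ]; exact hz2)
    (by rw [← hτ, ← hσ]; exact h1) (by rw [← hτ, ← hσ]; exact h2)
  refine ⟨addOrderOf (2 * (τ : ZMod n)), addOrderOf_pos _, hle, ?_⟩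
  have h3 : addOrderOf (2 * (τ : ZMod n)) • (2 * (τ : ZMod n)) = 0 := addOrderOf_nsmul_eq_zero _
  set e := addOrderOf (2 * (τ : ZMod n)) with he
  have h4 : (((e : ℤ) * (2 * τ) : ℤ) : ZMod n) = 0 := by
    rw [nsmul_eq_mul] at h3
    push_cast
    exact h3
  rw [ZMod.intCast_zmod_eq_zero_iff_dvd] at h4
  obtain ⟨c, hc⟩ := h4
  have h5 : x ^ (e * ∏ p ∈ (2 * K).primeFactors, p) =
      ζ ^ (((2 * K : ℕ) : ℤ) * c) := by
    rw [hτ, ← zpow_natCast, ← zpow_mul]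
    congr 1
    have h6 : ((2 * K : ℕ) : ℤ) = (n : ℤ) * ((∏ p ∈ (2 * K).primeFactors, p : ℕ) : ℤ) := by
      exact_mod_cast hN
    rw [h6, Nat.cast_mul]
    linear_combination (((∏ p ∈ (2 * K).primeFactors, p : ℕ) : ℤ)) * hc
  rw [h5, zpow_mul, zpow_natCast, hprim.pow_eq_one, one_zpow]

end Pool.Agent.Lib.MP_baf44c_co.FB
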