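import Pool.Agent.Lib.MP_baf44c_co.FB.Cyc

/-!
The components `pr n γ F` of a function of a root of unity: `F μ = ∑ γ, pr n γ F μ` is the
decomposition for the substitutions `μ ↦ μ ω`, `ω ^ n = 1` (`ω = stdAddChar j`, `j : ZMod n`).
-/

set_option autoImplicit false

namespace Pool.Agent.Lib.MP_baf44c_co.FB

open Polynomial

section general

variable {n : ℕ} [NeZero n]

private theorem orth (b : ZMod n) :
    ∑ γ : ZMod n, (ZMod.stdAddChar (γ * b) : ℂ) = if b = 0 then (n : ℂ) else 0 := by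
  rw [AddChar.sum_mulShift b (ZMod.isPrimitive_stdAddChar n), ZMod.card]
  split_ifs <;> simp

private theorem n_ne : (n : ℂ) ≠ 0 := Nat.cast_ne_zero.2 (NeZero.ne n)

theorem sum_pr (F : ℂ → ℂ) (μ : ℂ) : ∑ γ : ZMod n, pr n γ F μ = F μ := by
  unfold pr
  rw [← Finset.mul_sum, Finset.sum_comm]
  have h1 : ∀ j : ZMod n, ∑ γ : ZMod n, ZMod.stdAddChar (-(j * γ)) * F (μ * ZMod.stdAddChar j) =
      if j = 0 then (n : ℂ) * F μ else 0 := by
    intro j
    rw [← Finset.sum_mul]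
    have h2 : ∀ γ : ZMod n, -(j * γ) = γ * (-j) := fun γ => by ring
    simp only [h2]
    rw [orth]
    by_cases h : j = 0
    · subst h
      simp
    · rw [if_neg (neg_ne_zero.2 h), if_neg h, zero_mul]
  simp only [h1]
  rw [Finset.sum_ite_eq' Finset.univ (0 : ZMod n) (fun _ => (n : ℂ) * F μ),
    if_pos (Finset.mem_univ _), ← mul_assoc, inv_mul_cancel₀ n_ne, one_mul]

theorem pr_add (γ : ZMod n) (F G : ℂ → ℂ) (μ : ℂ) :
    pr n γ (fun ν => F ν + G ν) μ = pr n γ F μ + pr n γ G μ := by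
  unfold pr
  rw [← mul_add, ← Finset.sum_add_distrib]
  congr 1
  exact Finset.sum_congr rfl fun j _ => by ring

theorem pr_sub (γ : ZMod n) (F G : ℂ → ℂ) (μ : ℂ) :
    pr n γ (fun ν => F ν - G ν) μ = pr n γ F μ - pr n γ G μ := by
  unfold pr
  rw [← mul_sub, ← Finset.sum_sub_distrib]
  congr 1
  exact Finset.sum_congr rfl fun j _ => by ring

theorem pr_const_mul (γ : ZMod n) (c : ℂ) (F : ℂ → ℂ) (μ : ℂ) :
    pr n γ (fun ν => c * F ν) μ = c * pr n γ F μ := by
  unfold pr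
  simp only [Finset.mul_sum]
  exact Finset.sum_congr rfl fun j _ => by ring

theorem pr_sum (γ : ZMod n) {ι : Type*} (s : Finset ι) (F : ι → ℂ → ℂ) (μ : ℂ) :
    pr n γ (fun ν => ∑ i ∈ s, F i ν) μ = ∑ i ∈ s, pr n γ (F i) μ := by
  unfold pr
  rw [← Finset.mul_sum, Finset.sum_comm]
  congr 1
  exact Finset.sum_congr rfl fun j _ => by rw [Finset.mul_sum]

/-- Components of a product (convolution). Insert `F (μ ω^j) = ∑ i, pr i F (μ ω^j)` and use
`pr n i F (μ ω^j) = stdAddChar (j i) * pr n i F μ`. -/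
theorem pr_mul (γ : ZMod n) (F G : ℂ → ℂ) (μ : ℂ) :
    pr n γ (fun ν => F ν * G ν) μ = ∑ i : ZMod n, pr n i F μ * pr n (γ - i) G μ := by
  have h1 : ∀ i : ZMod n, pr n i F μ * pr n (γ - i) G μ = ((n : ℂ)⁻¹ * (n : ℂ)⁻¹) *
      ∑ j : ZMod n, ∑ l : ZMod n, (F (μ * ZMod.stdAddChar j) * G (μ * ZMod.stdAddChar l) *
        ZMod.stdAddChar (-(l * γ))) * ZMod.stdAddChar (i * (l - j)) := by
    intro i
    unfold pr
    rw [mul_mul_mul_comm, Finset.sum_mul_sum]
    congr 1
    refine Finset.sum_congr rfl fun j _ => Finset.sum_congr rfl fun l _ => ?_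
    have h2 : (ZMod.stdAddChar (-(j * i)) : ℂ) * ZMod.stdAddChar (-(l * (γ - i))) =
        ZMod.stdAddChar (-(l * γ)) * ZMod.stdAddChar (i * (l - j)) := by
      rw [← AddChar.map_add_eq_mul, ← AddChar.map_add_eq_mul]
      congr 1
      ring
    linear_combination (F (μ * ZMod.stdAddChar j) * G (μ * ZMod.stdAddChar l)) * h2
  simp only [h1]
  rw [← Finset.mul_sum, Finset.sum_comm]
  have h3 : ∀ j : ZMod n, ∑ i : ZMod n, ∑ l : ZMod n,
      (F (μ * ZMod.stdAddChar j) * G (μ * ZMod.stdAddChar l) *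
        ZMod.stdAddChar (-(l * γ))) * ZMod.stdAddChar (i * (l - j)) =
      (n : ℂ) * (ZMod.stdAddChar (-(j * γ)) * (F (μ * ZMod.stdAddChar j) *
        G (μ * ZMod.stdAddChar j))) := by
    intro j
    rw [Finset.sum_comm]
    have h4 : ∀ l : ZMod n, ∑ i : ZMod n, (F (μ * ZMod.stdAddChar j) *
        G (μ * ZMod.stdAddChar l) * ZMod.stdAddChar (-(l * γ))) * ZMod.stdAddChar (i * (l - j)) =
        if l = j then (n : ℂ) * (ZMod.stdAddChar (-(j * γ)) * (F (μ * ZMod.stdAddChar j) *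
          G (μ * ZMod.stdAddChar j))) else 0 := by
      intro l
      rw [← Finset.mul_sum, orth]
      by_cases h : l = j
      · subst h
        rw [sub_self, if_pos rfl, if_pos rfl]
        ring
      · rw [if_neg (sub_ne_zero.2 h), if_neg h, mul_zero]
    simp only [h4]
    rw [Finset.sum_ite_eq' Finset.univ j, if_pos (Finset.mem_univ _)]
  simp only [h3]
  rw [← Finset.mul_sum]
  unfold pr
  have := n_ne (n := n)
  field_simp

theorem pr_zpow (γ : ZMod n) (e : ℤ) (μ : ℂ) :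
    pr n γ (fun ν => ν ^ e) μ = if (e : ZMod n) = γ then μ ^ e else 0 := by
  unfold pr
  have h1 : ∀ j : ZMod n, (ZMod.stdAddChar (-(j * γ)) : ℂ) * (μ * ZMod.stdAddChar j) ^ e =
      μ ^ e * ZMod.stdAddChar (j * ((e : ZMod n) - γ)) := by
    intro j
    rw [mul_zpow]
    have h2 : (ZMod.stdAddChar j : ℂ) ^ e = ZMod.stdAddChar (j * (e : ZMod n)) := by
      have h3 : j * (e : ZMod n) = e • j := by
        rw [zsmul_eq_mul, mul_comm]
      rw [h3, AddChar.map_zsmul_eq_zpow]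
    rw [h2]
    have h4 : (ZMod.stdAddChar (j * ((e : ZMod n) - γ)) : ℂ) =
        ZMod.stdAddChar (-(j * γ)) * ZMod.stdAddChar (j * (e : ZMod n)) := by
      rw [← AddChar.map_add_eq_mul]
      congr 1
      ring
    rw [h4]
    ring
  simp only [h1]
  rw [← Finset.mul_sum, orth]
  by_cases h : (e : ZMod n) = γ
  · rw [if_pos h, if_pos (sub_eq_zero.2 h)]
    have := n_ne (n := n)
    field_simp
  · rw [if_neg h, if_neg (sub_ne_zero.2 h), mul_zero, mul_zero]

/-- Parseval on one orbit. -/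
theorem parseval (F : ℂ → ℂ) (μ : ℂ) :
    ∑ j : ZMod n, ‖F (μ * ZMod.stdAddChar j)‖ ^ 2 = n * ∑ γ : ZMod n, ‖pr n γ F μ‖ ^ 2 := by
  have hkey : (∑ γ : ZMod n, pr n γ F μ * (starRingEnd ℂ) (pr n γ F μ)) =
      (n : ℂ)⁻¹ * ∑ j : ZMod n, F (μ * ZMod.stdAddChar j) *
        (starRingEnd ℂ) (F (μ * ZMod.stdAddChar j)) := by
    have h1 : ∀ γ : ZMod n, pr n γ F μ * (starRingEnd ℂ) (pr n γ F μ) =
        ((n : ℂ)⁻¹ * (n : ℂ)⁻¹) * ∑ j : ZMod n, ∑ l : ZMod n,
          (F (μ * ZMod.stdAddChar j) * (starRingEnd ℂ) (F (μ * ZMod.stdAddChar l))) *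
            ZMod.stdAddChar (γ * (l - j)) := by
      intro γ
      unfold pr
      rw [map_mul, map_inv₀, Complex.conj_natCast, map_sum, mul_mul_mul_comm, Finset.sum_mul_sum]
      congr 1
      refine Finset.sum_congr rfl fun j _ => Finset.sum_congr rfl fun l _ => ?_
      rw [map_mul, ← AddChar.map_neg_eq_conj, neg_neg]
      have h2 : (ZMod.stdAddChar (-(j * γ)) : ℂ) * ZMod.stdAddChar (l * γ) =
          ZMod.stdAddChar (γ * (l - j)) := by
        rw [← AddChar.map_add_eq_mul]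
        congr 1
        ring
      linear_combination (F (μ * ZMod.stdAddChar j) *
        (starRingEnd ℂ) (F (μ * ZMod.stdAddChar l))) * h2
    simp only [h1]
    rw [← Finset.mul_sum, Finset.sum_comm]
    have h3 : ∀ j : ZMod n, ∑ γ : ZMod n, ∑ l : ZMod n,
        (F (μ * ZMod.stdAddChar j) * (starRingEnd ℂ) (F (μ * ZMod.stdAddChar l))) *
          ZMod.stdAddChar (γ * (l - j)) =
        (n : ℂ) * (F (μ * ZMod.stdAddChar j) *
          (starRingEnd ℂ) (F (μ * ZMod.stdAddChar j))) := by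
      intro j
      rw [Finset.sum_comm]
      have h4 : ∀ l : ZMod n, ∑ γ : ZMod n,
          (F (μ * ZMod.stdAddChar j) * (starRingEnd ℂ) (F (μ * ZMod.stdAddChar l))) *
            ZMod.stdAddChar (γ * (l - j)) =
          if l = j then (n : ℂ) * (F (μ * ZMod.stdAddChar j) *
            (starRingEnd ℂ) (F (μ * ZMod.stdAddChar j))) else 0 := by
        intro l
        rw [← Finset.mul_sum, orth]
        by_cases h : l = j
        · subst h
          rw [sub_self, if_pos rfl, if_pos rfl]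
          ring
        · rw [if_neg (sub_ne_zero.2 h), if_neg h, mul_zero]
      simp only [h4]
      rw [Finset.sum_ite_eq' Finset.univ j, if_pos (Finset.mem_univ _)]
    simp only [h3]
    rw [← Finset.mul_sum]
    have := n_ne (n := n)
    field_simp
  have h5 : ((∑ j : ZMod n, ‖F (μ * ZMod.stdAddChar j)‖ ^ 2 : ℝ) : ℂ) =
      ((n * ∑ γ : ZMod n, ‖pr n γ F μ‖ ^ 2 : ℝ) : ℂ) := by
    push_cast
    simp only [← Complex.mul_conj']
    rw [hkey, ← mul_assoc, mul_inv_cancel₀ n_ne, one_mul]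
  exact_mod_cast h5

end general

end Pool.Agent.Lib.MP_baf44c_co.FB
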