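import Pool.Agent.Lib.MP_baf44c_co.FB.Proj

/-!
The components of a function on the primitive roots of unity.
-/

set_option autoImplicit false

namespace Pool.Agent.Lib.MP_baf44c_co.FB

open Polynomial

private lemma std_pow {n : ℕ} [NeZero n] (j : ZMod n) : (ZMod.stdAddChar j : ℂ) ^ n = 1 := by
  rw [← AddChar.map_nsmul_eq_pow]
  have : n • j = 0 := by simp
  rw [this, AddChar.map_zero_eq_one]

/-- If every prime factor of `n` divides `N'`, `N = n N'`, then multiplication by an `n`-th root of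
unity preserves the primitive `N`-th roots of unity (`(μ ω)^(N/q) = μ^(N/q) ≠ 1` for every prime
`q ∣ N`, since `n ∣ N/q`; `orderOf_eq_of_pow_and_pow_div_prime`). -/
theorem mul_mem_prim {N n N' : ℕ} [NeZero n] (hN0 : 0 < N) (hN : N = n * N')
    (hp : ∀ q : ℕ, q.Prime → q ∣ n → q ∣ N') {μ : ℂ} (hμ : μ ∈ primitiveRoots N ℂ) (j : ZMod n) :
    μ * ZMod.stdAddChar j ∈ primitiveRoots N ℂ := by
  rw [mem_primitiveRoots hN0] at hμ ⊢
  have hω : (ZMod.stdAddChar j : ℂ) ^ n = 1 := std_pow j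
  rw [IsPrimitiveRoot.iff_orderOf]
  apply orderOf_eq_of_pow_and_pow_div_prime hN0
  · rw [mul_pow, hμ.pow_eq_one, hN, pow_mul, hω, one_pow, one_mul]
  · intro q hq hqN
    have hqN' : q ∣ N' := by
      rw [hN] at hqN
      rcases hq.dvd_mul.1 hqN with h | h
      · exact hp q hq h
      · exact h
    obtain ⟨N'', rfl⟩ := hqN'
    have hdiv : N / q = n * N'' := by
      rw [hN, show n * (q * N'') = q * (n * N'') by ring, Nat.mul_div_cancel_left _ hq.pos]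
    have h1 : (ZMod.stdAddChar j : ℂ) ^ (N / q) = 1 := by
      rw [hdiv, pow_mul, hω, one_pow]
    rw [mul_pow, h1, mul_one]
    have hlt : N / q < N := Nat.div_lt_self hN0 hq.one_lt
    have hpos : 0 < N / q := Nat.div_pos (Nat.le_of_dvd hN0 hqN) hq.pos
    exact hμ.pow_ne_one_of_pos_of_lt hpos.ne' hlt

section prim

variable {N n N' : ℕ} [NeZero n] (hN0 : 0 < N) (hN : N = n * N')
    (hp : ∀ q : ℕ, q.Prime → q ∣ n → q ∣ N')

include hN0 hN hp

private theorem shift_sum {M : Type*} [AddCommMonoid M] (G : ℂ → M) (j : ZMod n) :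
    ∑ μ ∈ primitiveRoots N ℂ, G (μ * ZMod.stdAddChar j) = ∑ μ ∈ primitiveRoots N ℂ, G μ := by
  refine Finset.sum_nbij' (fun μ => μ * ZMod.stdAddChar j) (fun μ => μ * ZMod.stdAddChar (-j))
    ?_ ?_ ?_ ?_ ?_
  · intro μ hμ
    exact mul_mem_prim hN0 hN hp hμ j
  · intro μ hμ
    exact mul_mem_prim hN0 hN hp hμ (-j)
  · intro μ _
    rw [mul_assoc, ← AddChar.map_add_eq_mul, add_neg_cancel, AddChar.map_zero_eq_one, mul_one]
  · intro μ _
    rw [mul_assoc, ← AddChar.map_add_eq_mul, neg_add_cancel, AddChar.map_zero_eq_one, mul_one]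
  · intro μ _
    rfl

theorem sum_prim_sq (F : ℂ → ℂ) :
    ∑ μ ∈ primitiveRoots N ℂ, ‖F μ‖ ^ 2 =
      ∑ μ ∈ primitiveRoots N ℂ, ∑ γ : ZMod n, ‖pr n γ F μ‖ ^ 2 := by
  have hn : (n : ℝ) ≠ 0 := by exact_mod_cast NeZero.ne n
  have h1 : ∑ j : ZMod n, ∑ μ ∈ primitiveRoots N ℂ, ‖F (μ * ZMod.stdAddChar j)‖ ^ 2 =
      (n : ℝ) * ∑ μ ∈ primitiveRoots N ℂ, ‖F μ‖ ^ 2 := by
    rw [Finset.sum_congr rfl (fun j _ => shift_sum hN0 hN hp (fun μ => ‖F μ‖ ^ 2) j),
      Finset.sum_const, Finset.card_univ, ZMod.card, nsmul_eq_mul]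
  have h2 : ∑ j : ZMod n, ∑ μ ∈ primitiveRoots N ℂ, ‖F (μ * ZMod.stdAddChar j)‖ ^ 2 =
      (n : ℝ) * ∑ μ ∈ primitiveRoots N ℂ, ∑ γ : ZMod n, ‖pr n γ F μ‖ ^ 2 := by
    rw [Finset.sum_comm, Finset.mul_sum]
    exact Finset.sum_congr rfl fun μ _ => parseval F μ
  exact mul_left_cancel₀ hn (h1.symm.trans h2)

/-- The sum over the primitive roots only sees the component of degree `0`. -/
theorem sum_prim_eq (F : ℂ → ℂ) :
    ∑ μ ∈ primitiveRoots N ℂ, F μ = ∑ μ ∈ primitiveRoots N ℂ, pr n 0 F μ := by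
  have hn : (n : ℂ) ≠ 0 := by exact_mod_cast NeZero.ne n
  have h1 : ∑ μ ∈ primitiveRoots N ℂ, pr n 0 F μ = (n : ℂ)⁻¹ *
      ∑ j : ZMod n, ∑ μ ∈ primitiveRoots N ℂ, F (μ * ZMod.stdAddChar j) := by
    rw [Finset.sum_comm, Finset.mul_sum]
    refine Finset.sum_congr rfl fun μ _ => ?_
    unfold pr
    simp
  rw [h1, Finset.sum_congr rfl (fun j _ => shift_sum hN0 hN hp F j), Finset.sum_const,
    Finset.card_univ, ZMod.card, nsmul_eq_mul, inv_mul_cancel_left₀ hn]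

theorem pr_congr {F G : ℂ → ℂ} (h : ∀ μ ∈ primitiveRoots N ℂ, F μ = G μ) (γ : ZMod n) :
    ∀ μ ∈ primitiveRoots N ℂ, pr n γ F μ = pr n γ G μ := by
  intro μ hμ
  unfold pr
  congr 1
  refine Finset.sum_congr rfl fun j _ => ?_
  rw [h _ (mul_mem_prim hN0 hN hp hμ j)]

/-- If `F` is real on the primitive roots then `conj (pr γ F μ) = pr (-γ) F μ`. -/
theorem star_pr {F : ℂ → ℂ} (h : ∀ μ ∈ primitiveRoots N ℂ, star (F μ) = F μ) (γ : ZMod n) :
    ∀ μ ∈ primitiveRoots N ℂ, star (pr n γ F μ) = pr n (-γ) F μ := by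
  intro μ hμ
  unfold pr
  rw [star_mul', star_inv₀, star_natCast, star_sum]
  congr 1
  refine Finset.sum_congr rfl fun j _ => ?_
  rw [star_mul', h _ (mul_mem_prim hN0 hN hp hμ j)]
  congr 1
  have h2 : (star (ZMod.stdAddChar (-(j * γ))) : ℂ) = ZMod.stdAddChar (-(-(j * γ))) :=
    (AddChar.map_neg_eq_conj _ _).symm
  rw [h2]
  congr 1
  ring

/-- The component `γ` of a polynomial is the sub-polynomial of the monomials of degree `≡ γ`
(linearity and `pr_zpow`). -/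
theorem isCyc_pr {F : ℂ → ℂ} (hF : IsCyc N F) (γ : ZMod n) : IsCyc N (pr n γ F) := by
  obtain ⟨f, hf⟩ := hF
  refine ⟨∑ e ∈ Finset.range (f.natDegree + 1), if ((e : ℕ) : ZMod n) = γ then
    Polynomial.monomial e (f.coeff e) else 0, fun μ hμ => ?_⟩
  rw [pr_congr hN0 hN hp hf γ μ hμ]
  have h1 : (fun ν : ℂ => aeval ν f) = fun ν => ∑ e ∈ Finset.range (f.natDegree + 1),
      (fun e : ℕ => fun ν : ℂ => (f.coeff e : ℂ) * ν ^ ((e : ℕ) : ℤ)) e ν := by
    funext ν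
    rw [Polynomial.aeval_eq_sum_range]
    refine Finset.sum_congr rfl fun e _ => ?_
    simp
  rw [h1, pr_sum, map_sum]
  refine Finset.sum_congr rfl fun e _ => ?_
  rw [pr_const_mul γ (f.coeff e : ℂ) (fun ν => ν ^ ((e : ℕ) : ℤ)) μ, pr_zpow]
  have h2 : (((e : ℕ) : ℤ) : ZMod n) = ((e : ℕ) : ZMod n) := by push_cast; rfl
  rw [h2]
  split_ifs
  · simp [Polynomial.aeval_monomial]
  · simp

end prim

end Pool.Agent.Lib.MP_baf44c_co.FB
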