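import Pool.Agent.Lib.MP_baf44c_co.FB.Cyc

/-!
The ring of integers of the `N`-th cyclotomic field is `ℤ[ζ]`.
-/

set_option autoImplicit false

namespace Pool.Agent.Lib.MP_baf44c_co.FB

open Polynomial

/-- Ring of integers of the cyclotomic field (Mathlib:
`IsCyclotomicExtension.Rat.isIntegralClosure_adjoin_singleton`). Note that `cyc N` is generated by
`exp (2πi/N)`, and `ζ` is an arbitrary primitive root (a power of it with exponent prime to `N`,
so it generates the same field / ring). -/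
theorem exists_isCyc {N : ℕ} (hN : 0 < N) {ζ : ℂ} (hζ : ζ ∈ primitiveRoots N ℂ) {z : ℂ}
    (hz : z ∈ cyc N) (hint : IsIntegral ℤ z) : ∃ F : ℂ → ℂ, IsCyc N F ∧ F ζ = z := by
  have : NeZero N := ⟨hN.ne'⟩
  have he : IsPrimitiveRoot (Complex.exp (2 * Real.pi * Complex.I / N)) N :=
    Complex.isPrimitiveRoot_exp N hN.ne'
  have halg : IsAlgebraic ℚ (Complex.exp (2 * Real.pi * Complex.I / N)) :=
    ((he.isIntegral hN).tower_top (A := ℚ)).isAlgebraic
  have hcyc : IsCyclotomicExtension {N} ℚ (cyc N) := by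
    change IsCyclotomicExtension {N} ℚ (cyc N).toSubalgebra
    rw [cyc, IntermediateField.adjoin_simple_toSubalgebra_of_isAlgebraic halg]
    exact he.adjoin_isCyclotomicExtension ℚ
  have hζp : IsPrimitiveRoot ζ N := (mem_primitiveRoots hN).1 hζ
  obtain ⟨i, -, hi⟩ := he.eq_pow_of_pow_eq_one hζp.pow_eq_one
  have hζm : ζ ∈ cyc N := by
    rw [← hi]
    exact pow_mem (IntermediateField.subset_adjoin _ _ (Set.mem_singleton _)) i
  have hζ' : IsPrimitiveRoot (⟨ζ, hζm⟩ : cyc N) N := by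
    refine IsPrimitiveRoot.of_map_of_injective (f := (cyc N).val) ?_ (cyc N).val.injective
    exact hζp
  have hint' : IsIntegral ℤ (⟨z, hz⟩ : cyc N) := by
    refine (isIntegral_algHom_iff ((cyc N).val.restrictScalars ℤ) (cyc N).val.injective).1 ?_
    exact hint
  have hcl := IsCyclotomicExtension.Rat.isIntegralClosure_adjoin_singleton hζ'
  obtain ⟨w, hw⟩ := hcl.isIntegral_iff.1 hint'
  obtain ⟨f, hf⟩ := Algebra.adjoin_mem_exists_aeval ℤ _ w.2
  refine ⟨fun μ => aeval μ f, isCyc_poly N f, ?_⟩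
  have h1 : aeval (⟨ζ, hζm⟩ : cyc N) f = (⟨z, hz⟩ : cyc N) := by
    rw [← hw]
    exact hf
  have h2 := congrArg ((cyc N).val.restrictScalars ℤ) h1
  rw [← Polynomial.aeval_algHom_apply] at h2
  exact h2

end Pool.Agent.Lib.MP_baf44c_co.FB
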