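import Pool.Agent.Lib.MP_baf44c_co.FB.Defs

/-!
A product of two factors `6 + x r^m + 1/(x r^m)` is not a square of a Laurent polynomial.
-/

set_option autoImplicit false

namespace Pool.Agent.Lib.MP_baf44c_co.FB

/-- Put `A = 3 + 2 √2`, so `A + 1/A = 6` and `6 + w + 1/w = 0` iff `w = -A` or `w = -1/A`.
Choose `r₀ = exp (log (-A / x) / m)`, so that `x r₀ ^ m = -A`. The right hand side vanishes at `r₀`,
hence `∑ a i r₀ ^ φ i = 0`, hence the derivative of the left hand side at `r₀` is `0`. The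
derivative of the right hand side at `r₀` is `P' (r₀) Q (r₀)` with
`P' (r₀) = m (x r₀^m - x⁻¹ r₀^(-m)) / r₀ = m (-A + 1/A) / r₀ ≠ 0`. So `Q (r₀) = 0`,
`y r₀ ^ l = -A` or `-1/A`. Taking norms, with `L = log ‖r₀‖`: `m L = log A`, `l L = ± log A`, so
`l = ± m`. If `y r₀ ^ l = -A` then `l = m`, `y = x`. If `y r₀ ^ l = -1/A` then `l = -m` and
`y = x⁻¹`. -/
theorem root_argument {ι : Type*} (S : Finset ι) (a : ι → ℂ) (φ : ι → ℤ) (x y : ℂ)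
    (hx : ‖x‖ = 1) (hy : ‖y‖ = 1) (m l : ℤ) (hm : m ≠ 0)
    (h : ∀ r : ℂ, r ≠ 0 → (∑ i ∈ S, a i * r ^ φ i) ^ 2 =
      (6 + x * r ^ m + x⁻¹ * r ^ (-m)) * (6 + y * r ^ l + y⁻¹ * r ^ (-l))) :
    y = x ∨ y = x⁻¹ := by
  -- the number `A`
  obtain ⟨A, hA1, hA⟩ : ∃ A : ℝ, 1 < A ∧ A + A⁻¹ = 6 := by
    have h2 : Real.sqrt 2 ^ 2 = 2 := Real.sq_sqrt (by norm_num)
    have h3 : 0 ≤ Real.sqrt 2 := Real.sqrt_nonneg 2
    refine ⟨3 + 2 * Real.sqrt 2, by linarith, ?_⟩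
    have h4 : (3 + 2 * Real.sqrt 2)⁻¹ = 3 - 2 * Real.sqrt 2 := by
      refine inv_eq_of_mul_eq_one_right ?_
      nlinarith
    rw [h4]
    ring
  have hA0 : (0 : ℝ) < A := by linarith
  have hAc : (A : ℂ) + (A : ℂ)⁻¹ = 6 := by exact_mod_cast hA
  have hAc0 : (A : ℂ) ≠ 0 := by exact_mod_cast hA0.ne'
  have hx0 : x ≠ 0 := by
    intro h0
    rw [h0, norm_zero] at hx
    norm_num at hx
  have hy0 : y ≠ 0 := by
    intro h0
    rw [h0, norm_zero] at hy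
    norm_num at hy
  have hmc : (m : ℂ) ≠ 0 := by exact_mod_cast hm
  -- the root
  obtain ⟨r₀, hr0, hr⟩ : ∃ r₀ : ℂ, r₀ ≠ 0 ∧ x * r₀ ^ m = -A := by
    have hc : -(A : ℂ) / x ≠ 0 := div_ne_zero (neg_ne_zero.2 hAc0) hx0
    refine ⟨Complex.exp (Complex.log (-(A : ℂ) / x) / m), Complex.exp_ne_zero _, ?_⟩
    rw [← Complex.exp_int_mul, mul_div_cancel₀ _ hmc, Complex.exp_log hc, mul_div_cancel₀ _ hx0]
  have hri : x⁻¹ * r₀ ^ (-m) = -(A : ℂ)⁻¹ := by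
    rw [zpow_neg, ← mul_inv, hr, inv_neg]
  set P : ℂ → ℂ := fun r => 6 + x * r ^ m + x⁻¹ * r ^ (-m) with hP
  set Q : ℂ → ℂ := fun r => 6 + y * r ^ l + y⁻¹ * r ^ (-l) with hQ
  set F : ℂ → ℂ := fun r => ∑ i ∈ S, a i * r ^ φ i with hF
  have hP0 : P r₀ = 0 := by
    show 6 + x * r₀ ^ m + x⁻¹ * r₀ ^ (-m) = 0
    rw [hr, hri]
    linear_combination -hAc
  have hF0 : F r₀ = 0 := by
    have h1 : F r₀ ^ 2 = P r₀ * Q r₀ := h r₀ hr0
    rw [hP0, zero_mul] at h1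
    exact pow_eq_zero_iff (two_ne_zero) |>.1 h1
  -- derivatives
  have hz : ∀ (c : ℂ) (j : ℤ), HasDerivAt (fun r : ℂ => c * r ^ j) (c * (j * r₀ ^ (j - 1))) r₀ :=
    fun c j => (hasDerivAt_zpow j r₀ (Or.inl hr0)).const_mul c
  have hFd : HasDerivAt F (∑ i ∈ S, a i * (φ i * r₀ ^ (φ i - 1))) r₀ :=
    HasDerivAt.fun_sum fun i _ => hz (a i) (φ i)
  have hF2 : HasDerivAt (fun r => F r ^ 2) 0 r₀ := by
    have h1 := hFd.fun_pow 2
    rw [hF0] at h1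
    exact h1.congr_deriv (by simp)
  have hPd : HasDerivAt P (x * (m * r₀ ^ (m - 1)) + x⁻¹ * (((-m : ℤ) : ℂ) * r₀ ^ (-m - 1))) r₀ :=
    ((hz x m).const_add 6).add (hz x⁻¹ (-m))
  have hQd : HasDerivAt Q (y * (l * r₀ ^ (l - 1)) + y⁻¹ * (((-l : ℤ) : ℂ) * r₀ ^ (-l - 1))) r₀ :=
    ((hz y l).const_add 6).add (hz y⁻¹ (-l))
  have hPQ := hPd.mul hQd
  have hev : (fun r => F r ^ 2) =ᶠ[nhds r₀] fun r => P r * Q r := by
    filter_upwards [isOpen_ne.mem_nhds hr0] with r hr'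
    exact h r hr'
  have huniq := (hF2.congr_of_eventuallyEq hev.symm).unique hPQ
  rw [hP0, zero_mul, add_zero] at huniq
  have hPne : x * (m * r₀ ^ (m - 1)) + x⁻¹ * (((-m : ℤ) : ℂ) * r₀ ^ (-m - 1)) ≠ 0 := by
    have h1 : x * (m * r₀ ^ (m - 1)) + x⁻¹ * (((-m : ℤ) : ℂ) * r₀ ^ (-m - 1)) =
        m * r₀⁻¹ * (x * r₀ ^ m - x⁻¹ * r₀ ^ (-m)) := by
      rw [zpow_sub_one₀ hr0, zpow_sub_one₀ hr0]
      push_cast
      ring
    rw [h1, hr, hri]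
    refine mul_ne_zero (mul_ne_zero hmc (inv_ne_zero hr0)) ?_
    intro h2
    have h3 : (A : ℂ)⁻¹ = A := by linear_combination h2
    have h4 : A⁻¹ = A := by exact_mod_cast h3
    have h5 : A⁻¹ < 1 := inv_lt_one_of_one_lt₀ hA1
    linarith
  have hQ0 : Q r₀ = 0 := (mul_eq_zero.1 huniq.symm).resolve_left hPne
  -- the second factor
  have hw0 : y * r₀ ^ l ≠ 0 := mul_ne_zero hy0 (zpow_ne_zero _ hr0)
  have hwi : y⁻¹ * r₀ ^ (-l) = (y * r₀ ^ l)⁻¹ := by rw [zpow_neg, ← mul_inv]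
  have hw : (y * r₀ ^ l + A) * (y * r₀ ^ l + (A : ℂ)⁻¹) = 0 := by
    have h1 : 6 + y * r₀ ^ l + (y * r₀ ^ l)⁻¹ = 0 := by
      have h2 : 6 + y * r₀ ^ l + y⁻¹ * r₀ ^ (-l) = 0 := hQ0
      rwa [hwi] at h2
    generalize y * r₀ ^ l = w at h1 hw0 ⊢
    have h3 : w * (6 + w + w⁻¹) = 0 := by rw [h1, mul_zero]
    have h4 : w * w⁻¹ = 1 := mul_inv_cancel₀ hw0
    have h5 : (A : ℂ) * (A : ℂ)⁻¹ = 1 := mul_inv_cancel₀ hAc0
    linear_combination h3 - h4 + h5 + w * hAc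
  -- norms
  have hρ : 0 < ‖r₀‖ := norm_pos_iff.2 hr0
  have hρm : ‖r₀‖ ^ m = A := by
    have h1 := congrArg norm hr
    rw [norm_mul, hx, one_mul, norm_zpow, norm_neg, Complex.norm_real, Real.norm_of_nonneg hA0.le]
      at h1
    exact h1
  have hρ1 : ‖r₀‖ ≠ 1 := by
    intro h1
    rw [h1, one_zpow] at hρm
    linarith
  have hinj := zpow_right_injective₀ hρ hρ1
  have hnorm : ‖y * r₀ ^ l‖ = ‖r₀‖ ^ l := by rw [norm_mul, hy, one_mul, norm_zpow]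
  rcases mul_eq_zero.1 hw with hw | hw
  · left
    have h1 : y * r₀ ^ l = -A := eq_neg_of_add_eq_zero_left hw
    have h2 : ‖r₀‖ ^ l = ‖r₀‖ ^ m := by
      rw [← hnorm, h1, norm_neg, Complex.norm_real, Real.norm_of_nonneg hA0.le, hρm]
    have h3 : l = m := hinj h2
    rw [h3, ← hr] at h1
    exact mul_right_cancel₀ (zpow_ne_zero _ hr0) h1
  · right
    have h1 : y * r₀ ^ l = -(A : ℂ)⁻¹ := eq_neg_of_add_eq_zero_left hw
    have h2 : ‖r₀‖ ^ l = ‖r₀‖ ^ (-m) := by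
      rw [← hnorm, h1, norm_neg, norm_inv, Complex.norm_real, Real.norm_of_nonneg hA0.le, zpow_neg,
        hρm]
    have h3 : l = -m := hinj h2
    rw [h3, ← hri] at h1
    exact mul_right_cancel₀ (zpow_ne_zero _ hr0) h1

end Pool.Agent.Lib.MP_baf44c_co.FB
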