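import Pool.Agent.Lib.MP_baf44c_co.FB.SplitB

/-!
A multiplicative relation between the numbers `gam r` splits over the square classes.
-/

set_option autoImplicit false

namespace Pool.Agent.Lib.MP_baf44c_co.FB

/-- Let `K₀ = cyc (2 K) ⊂ ℂ`, `d r = 2 √(1 + cos² π r)` (a complex number, `(d r)² = D (xr r) ∈ K₀`),
`s r = 2 cos π r ∈ K₀`; `gam r = (s r + d r) / 2` and `(s r - d r) / 2 = -1 / gam r`. Let `L ⊂ ℂ` be a
Galois extension of `K₀` containing all `d r`, `r ∈ J` (the splitting field of `∏ (X² - (d r)²)`, or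
the algebraic closure of `K₀` in `ℂ`), `Γ = L ≃ₐ[K₀] L`. For `g ∈ Γ` one has `g (d r) = χ r g * d r`
with `χ r g = ±1`, `χ r : Γ →* ℂ` a homomorphism. Applying `g` to the relation gives
`∏ (g (gam r)) ^ e r = 1` with `‖g (gam r)‖ = gam r ^ (χ r g)`, so
`∑ r ∈ J, e r * log (gam r) * χ r g = 0` for all `g ∈ Γ`. By the linear independence of distinct
homomorphisms (`linearIndependent_monoidHom`) the sum of `e r * log (gam r)` over the `r` with
`χ r = χ r₀` is `0`. The term of `r₀` is not `0` (`one_lt_gam`), so there is `r ≠ r₀` in `J` with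
`χ r = χ r₀`. Then `z = d r * d r₀` is fixed by `Γ`, so `z ∈ K₀`. -/
theorem split (J : Finset ℚ) (hJ : ∀ r ∈ J, 0 < r ∧ r < 1 / 2) (e : ℚ → ℤ)
    (he : ∏ r ∈ J, gam r ^ e r = 1) {K : ℕ} (hK : 0 < K) (hden : ∀ r ∈ J, r.den ∣ K) {r₀ : ℚ}
    (hr₀ : r₀ ∈ J) (he₀ : e r₀ ≠ 0) :
    ∃ r ∈ J, r ≠ r₀ ∧ ∃ z ∈ cyc (2 * K), z ^ 2 = D (xr r₀) * D (xr r) := by
  classical
  obtain ⟨L, hfd, hgal, hL⟩ := exists_ext (cyc (2 * K)) (J.image dC) (by
    intro z hz
    obtain ⟨r, hr, rfl⟩ := Finset.mem_image.1 hz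
    rw [dC_sq]
    exact D_mem hK (hden r hr))
  have hdL : ∀ r : J, dC r ∈ L := fun r => hL _ (Finset.mem_image_of_mem _ r.2)
  have hd0 : ∀ r : ℚ, dC r ≠ 0 := by
    intro r
    unfold dC
    have : 0 < 2 * Real.sqrt (1 + Real.cos (Real.pi * r) ^ 2) := by positivity
    exact_mod_cast this.ne'
  -- elements of `L`
  let dL : J → L := fun r => ⟨dC r, hdL r⟩
  let sL : J → L := fun r => algebraMap (cyc (2 * K)) L ⟨sC r, sC_mem hK (hden r r.2)⟩
  let gL : J → L := fun r => (sL r + dL r) / 2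
  have hgL : ∀ r : J, ((gL r : L) : ℂ) = ((gam r : ℝ) : ℂ) := by
    intro r
    rw [gam_eq]
    rfl
  have hdsq : ∀ r : J, ((dL r : L) : ℂ) ^ 2 ∈ cyc (2 * K) := by
    intro r
    change dC r ^ 2 ∈ _
    rw [dC_sq]
    exact D_mem hK (hden r r.2)
  let χ : J → ((L ≃ₐ[cyc (2 * K)] L) →* ℝ) := fun r => chi (dL r) (hdsq r) (hd0 r)
  -- norms
  have hnorm : ∀ (r : J) (g : L ≃ₐ[cyc (2 * K)] L),
      Real.log ‖((g (gL r) : L) : ℂ)‖ = χ r g * Real.log (gam r) := by
    intro r g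
    have h1 : ((g (gL r) : L) : ℂ) = (sC r + ((sgn (dL r) g : ℝ) : ℂ) * dC r) / 2 := by
      have h2 : g (gL r) = (sL r + g (dL r)) / 2 := by
        simp only [gL, map_div₀, map_add, sL, g.commutes, map_ofNat]
      rw [h2]
      have h3 := sgn_spec (hdsq r) g
      push_cast
      rw [h3]
      rfl
    rw [h1]
    change _ = sgn (dL r) g * _
    rcases sgn_or (dL r) g with h | h
    · rw [h]
      have h4 : (sC r + ((1 : ℝ) : ℂ) * dC r) / 2 = ((gam r : ℝ) : ℂ) := by
        rw [gam_eq]; push_cast; ring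
      rw [h4, Complex.norm_real, Real.norm_eq_abs, abs_of_pos (gam_pos _), one_mul]
    · rw [h]
      have h4 : (sC r + ((-1 : ℝ) : ℂ) * dC r) / 2 = -(((gam r : ℝ) : ℂ))⁻¹ := by
        rw [← gam_conj]; push_cast; ring
      rw [h4, norm_neg, norm_inv, Complex.norm_real, Real.norm_eq_abs, abs_of_pos (gam_pos _),
        Real.log_inv]
      ring
  -- the relation in `L`
  have hrelL : ∏ r : J, gL r ^ e r = 1 := by
    apply Subtype.ext
    have h1 : ((∏ r : J, gL r ^ e r : L) : ℂ) = ∏ r : J, ((gL r : L) : ℂ) ^ e r := by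
      push_cast
      rfl
    rw [h1]
    simp_rw [hgL]
    have h2 : ∏ r : J, ((gam r : ℝ) : ℂ) ^ e r = ((∏ r ∈ J, gam r ^ e r : ℝ) : ℂ) := by
      rw [← Finset.prod_coe_sort J (fun r => gam r ^ e r)]
      push_cast
      rfl
    rw [h2, he]
    simp
  have hlog : ∀ g : L ≃ₐ[cyc (2 * K)] L, ∑ r : J, (e r * Real.log (gam r)) * χ r g = 0 := by
    intro g
    have h1 : ∏ r : J, g (gL r) ^ e r = 1 := by
      have := congrArg g hrelL
      rw [map_prod, map_one] at this
      simpa only [map_zpow₀] using this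
    have h2 : ∏ r : J, ((g (gL r) : L) : ℂ) ^ e r = 1 := by
      have := congrArg (fun z : L => (z : ℂ)) h1
      push_cast at this
      exact this
    have h3 : ∏ r : J, ‖((g (gL r) : L) : ℂ)‖ ^ e r = 1 := by
      have := congrArg norm h2
      rw [norm_prod, norm_one] at this
      simpa only [norm_zpow] using this
    have hne : ∀ r : J, ‖((g (gL r) : L) : ℂ)‖ ≠ 0 := by
      intro r h
      have h4 := norm_eq_zero.1 h
      have h5 : g (gL r) = 0 := by
        apply Subtype.ext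
        simpa using h4
      have h6 : gL r = 0 := by simpa using h5
      have h7 := hgL r
      rw [h6] at h7
      have h8 : gam r = 0 := by
        have : ((gam r : ℝ) : ℂ) = 0 := by rw [← h7]; rfl
        exact_mod_cast this
      exact (gam_pos r).ne' h8
    have h4 := congrArg Real.log h3
    rw [Real.log_one, Real.log_prod (fun r _ => zpow_ne_zero _ (hne r))] at h4
    rw [← h4]
    refine Finset.sum_congr rfl fun r _ => ?_
    rw [Real.log_zpow, hnorm]
    ring
  -- Dedekind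
  let c : ((L ≃ₐ[cyc (2 * K)] L) →* ℝ) → ℝ := fun ψ =>
    ∑ r ∈ Finset.univ.filter (fun r : J => χ r = ψ), (e r * Real.log (gam r))
  have hded := linearIndependent_iff'.1
    (linearIndependent_monoidHom (L ≃ₐ[cyc (2 * K)] L) ℝ) (Finset.univ.image χ) c (by
      funext g
      rw [Finset.sum_apply]
      have h1 : ∀ ψ : ((L ≃ₐ[cyc (2 * K)] L) →* ℝ), (c ψ • (ψ : _ → ℝ)) g =
          ∑ r ∈ Finset.univ.filter (fun r : J => χ r = ψ), (e r * Real.log (gam r)) * χ r g := by
        intro ψ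
        simp only [c, Pi.smul_apply, smul_eq_mul, Finset.sum_mul]
        refine Finset.sum_congr rfl fun r hr => ?_
        rw [(Finset.mem_filter.1 hr).2]
      rw [Finset.sum_congr rfl (fun ψ _ => h1 ψ)]
      rw [Finset.sum_fiberwise_of_maps_to (fun r _ => Finset.mem_image_of_mem χ (Finset.mem_univ r))]
      simpa using hlog g)
  have h0 := hded (χ ⟨r₀, hr₀⟩) (Finset.mem_image_of_mem χ (Finset.mem_univ _))
  -- a partner
  have hpart : ∃ r : J, (r : ℚ) ≠ r₀ ∧ χ r = χ ⟨r₀, hr₀⟩ := by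
    by_contra hcon
    push Not at hcon
    have h1 : Finset.univ.filter (fun r : J => χ r = χ ⟨r₀, hr₀⟩) = {⟨r₀, hr₀⟩} := by
      ext r
      simp only [Finset.mem_filter, Finset.mem_univ, true_and, Finset.mem_singleton]
      constructor
      · intro h
        by_contra h2
        apply hcon r _ h
        intro h3
        exact h2 (Subtype.ext h3)
      · rintro rfl
        rfl
    simp only [c, h1, Finset.sum_singleton] at h0
    rcases mul_eq_zero.1 h0 with h2 | h2
    · exact he₀ (by exact_mod_cast h2)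
    · have := Real.log_pos (one_lt_gam (hJ r₀ hr₀).1 (hJ r₀ hr₀).2)
      exact this.ne' h2
  obtain ⟨r, hr, hχ⟩ := hpart
  refine ⟨r, r.2, hr, dC r₀ * dC r, ?_, ?_⟩
  · have hfix : ∀ g : L ≃ₐ[cyc (2 * K)] L, g (dL ⟨r₀, hr₀⟩ * dL r) = dL ⟨r₀, hr₀⟩ * dL r := by
      intro g
      apply Subtype.ext
      rw [map_mul]
      have h1 := sgn_spec (hdsq r) g
      have h2 := sgn_spec (hdsq ⟨r₀, hr₀⟩) g
      have h3 : sgn (dL r) g = sgn (dL ⟨r₀, hr₀⟩) g := DFunLike.congr_fun hχ g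
      push_cast
      rw [h1, h2, h3]
      rcases sgn_or (dL ⟨r₀, hr₀⟩) g with h | h
      · rw [h]; simp
      · rw [h]; push_cast; ring
    obtain ⟨k, hk⟩ := (IsGalois.mem_range_algebraMap_iff_fixed (F := cyc (2 * K)) (E := L) _).2 hfix
    have h4 := congrArg (fun z : L => (z : ℂ)) hk
    have h5 : (k : ℂ) = dC r₀ * dC r := h4
    rw [← h5]
    exact k.2
  · rw [mul_pow, dC_sq, dC_sq]

end Pool.Agent.Lib.MP_baf44c_co.FB
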