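import Pool.Agent.Lib.MP_baf44c_co.FB.Gam

/-!
A multiplicative relation between the numbers `gam r` splits over the square classes.
-/

set_option autoImplicit false

namespace Pool.Agent.Lib.MP_baf44c_co.FB

open Polynomial

/-- the square root of `D (xr r)` -/
noncomputable def dC (r : ℚ) : ℂ := ((2 * Real.sqrt (1 + Real.cos (Real.pi * r) ^ 2) : ℝ) : ℂ)

/-- `2 cos π r` -/
noncomputable def sC (r : ℚ) : ℂ := ((2 * Real.cos (Real.pi * r) : ℝ) : ℂ)

theorem dC_sq (r : ℚ) : dC r ^ 2 = D (xr r) := (D_xr r).symm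

theorem gam_eq (r : ℚ) : ((gam r : ℝ) : ℂ) = (sC r + dC r) / 2 := by
  unfold gam sC dC
  push_cast
  ring

theorem gam_pos (r : ℚ) : 0 < gam r := by
  unfold gam
  have h1 : 0 < 1 + Real.cos (Real.pi * r) ^ 2 := by positivity
  have h2 : |Real.cos (Real.pi * r)| < Real.sqrt (1 + Real.cos (Real.pi * r) ^ 2) := by
    rw [← Real.sqrt_sq_eq_abs]
    exact Real.sqrt_lt_sqrt (sq_nonneg _) (by linarith)
  have h3 := neg_abs_le (Real.cos (Real.pi * r))
  linarith

theorem gam_conj (r : ℚ) : (sC r - dC r) / 2 = -(((gam r : ℝ) : ℂ))⁻¹ := by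
  have h0 : ((gam r : ℝ) : ℂ) ≠ 0 := by exact_mod_cast (gam_pos r).ne'
  have h1 : ((sC r - dC r) / 2) * ((gam r : ℝ) : ℂ) = -1 := by
    rw [gam_eq]
    unfold sC dC
    have h : Real.sqrt (1 + Real.cos (Real.pi * r) ^ 2) ^ 2 = 1 + Real.cos (Real.pi * r) ^ 2 :=
      Real.sq_sqrt (by positivity)
    have h' : ((Real.sqrt (1 + Real.cos (Real.pi * r) ^ 2) : ℝ) : ℂ) ^ 2 =
        1 + ((Real.cos (Real.pi * r) : ℝ) : ℂ) ^ 2 := by
      exact_mod_cast h
    push_cast at h' ⊢
    linear_combination (-1 : ℂ) * h'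
  field_simp
  linear_combination 2 * h1

theorem cyc_gen_mem (N : ℕ) (a : ℤ) : Complex.exp (2 * Real.pi * Complex.I * (a / N)) ∈ cyc N := by
  have h : Complex.exp (2 * Real.pi * Complex.I * (a / N)) =
      Complex.exp (2 * Real.pi * Complex.I / N) ^ a := by
    rw [← Complex.exp_int_mul]
    congr 1
    ring
  rw [h]
  exact zpow_mem (IntermediateField.subset_adjoin ℚ _ (Set.mem_singleton _)) a

theorem exp_half_mem {r : ℚ} {K : ℕ} (hK : 0 < K) (h : r.den ∣ K) (m : ℤ) :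
    Complex.exp (Real.pi * Complex.I * r * m) ∈ cyc (2 * K) := by
  obtain ⟨c, hc⟩ := h
  have hc0 : (c : ℂ) ≠ 0 := by
    rintro h0
    have : c = 0 := by exact_mod_cast h0
    subst this
    simp at hc
    omega
  have hd0 : (r.den : ℂ) ≠ 0 := by exact_mod_cast r.den_nz
  have hr : (r : ℂ) = r.num / r.den := by
    conv_lhs => rw [← Rat.num_div_den r]
    push_cast
    rfl
  have h2 := cyc_gen_mem (2 * K) (r.num * c * m)
  have h3 : Complex.exp (Real.pi * Complex.I * r * m) =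
      Complex.exp (2 * Real.pi * Complex.I * (((r.num * c * m : ℤ) : ℂ) / ((2 * K : ℕ) : ℂ))) := by
    congr 1
    rw [hr, hc]
    push_cast
    field_simp
  rw [h3]
  exact h2

theorem sC_eq (r : ℚ) : sC r = Complex.exp (Real.pi * Complex.I * r * (1 : ℤ)) +
    Complex.exp (Real.pi * Complex.I * r * (-1 : ℤ)) := by
  unfold sC
  push_cast
  have h := Complex.two_cos (Real.pi * (r : ℂ))
  rw [h]
  congr 1 <;> · congr 1; ring

theorem sC_mem {r : ℚ} {K : ℕ} (hK : 0 < K) (h : r.den ∣ K) : sC r ∈ cyc (2 * K) := by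
  rw [sC_eq]
  exact add_mem (exp_half_mem hK h 1) (exp_half_mem hK h (-1))

theorem D_mem {r : ℚ} {K : ℕ} (hK : 0 < K) (h : r.den ∣ K) : D (xr r) ∈ cyc (2 * K) := by
  have h1 : xr r ∈ cyc (2 * K) := by
    have := exp_half_mem hK h 2
    unfold xr
    convert this using 2
    push_cast
    ring
  unfold D
  exact add_mem (add_mem h1 (inv_mem h1)) (by
    simpa using (cyc (2 * K)).algebraMap_mem (6 : ℚ))

end Pool.Agent.Lib.MP_baf44c_co.FB
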