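import Pool.Agent.Lib.MP_baf44c_co.FB.SplitA

/-!
A Galois extension containing given square roots; the sign characters.
-/

set_option autoImplicit false

namespace Pool.Agent.Lib.MP_baf44c_co.FB

open Polynomial

theorem exists_ext (K₀ : IntermediateField ℚ ℂ) (S : Finset ℂ) (hS : ∀ z ∈ S, z ^ 2 ∈ K₀) :
    ∃ L : IntermediateField K₀ ℂ, FiniteDimensional K₀ L ∧ IsGalois K₀ L ∧ ∀ z ∈ S, z ∈ L := by
  classical
  let p : Polynomial K₀ := ∏ z ∈ S.attach, (X ^ 2 - C (⟨(z : ℂ) ^ 2, hS z z.2⟩ : K₀))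
  have hp : p ≠ 0 := by
    refine Finset.prod_ne_zero_iff.2 fun z _ => ?_
    exact X_pow_sub_C_ne_zero (by norm_num) _
  have hsp : (p.map (algebraMap K₀ ℂ)).Splits := IsAlgClosed.splits _
  have hsf := IntermediateField.adjoin_rootSet_isSplittingField hsp
  refine ⟨IntermediateField.adjoin K₀ (p.rootSet ℂ), ?_, ?_, ?_⟩
  · exact Polynomial.IsSplittingField.finiteDimensional _ p
  · have hfd : FiniteDimensional K₀ (IntermediateField.adjoin K₀ (p.rootSet ℂ)) :=
      Polynomial.IsSplittingField.finiteDimensional _ p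
    have hn : Normal K₀ (IntermediateField.adjoin K₀ (p.rootSet ℂ)) :=
      Normal.of_isSplittingField p
    have hs : Algebra.IsSeparable K₀ (IntermediateField.adjoin K₀ (p.rootSet ℂ)) := inferInstance
    exact ⟨⟩
  · intro z hz
    apply IntermediateField.subset_adjoin
    rw [Polynomial.mem_rootSet_of_ne hp]
    simp only [p, map_prod]
    refine Finset.prod_eq_zero (Finset.mem_attach S ⟨z, hz⟩) ?_
    simp only [map_sub, map_pow, aeval_X, aeval_C]
    exact sub_self _

section

variable {K₀ : IntermediateField ℚ ℂ} {L : IntermediateField K₀ ℂ}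

open Classical in
/-- the sign of an automorphism on a square root -/
noncomputable def sgn (z : L) (g : L ≃ₐ[K₀] L) : ℝ := if g z = z then 1 else -1

theorem sgn_spec {z : L} (hz : (z : ℂ) ^ 2 ∈ K₀) (g : L ≃ₐ[K₀] L) :
    ((g z : L) : ℂ) = ((sgn z g : ℝ) : ℂ) * (z : ℂ) := by
  unfold sgn
  split_ifs with h
  · rw [h]; simp
  · have h2 : z ^ 2 = algebraMap K₀ L ⟨(z : ℂ) ^ 2, hz⟩ := by
      apply Subtype.ext
      rfl
    have h3 : (g z) ^ 2 = z ^ 2 := by
      rw [← map_pow, h2, g.commutes]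
    rcases sq_eq_sq_iff_eq_or_eq_neg.1 h3 with h4 | h4
    · exact absurd h4 h
    · rw [h4]
      push_cast
      simp

theorem sgn_or (z : L) (g : L ≃ₐ[K₀] L) : sgn z g = 1 ∨ sgn z g = -1 := by
  unfold sgn
  split_ifs
  · exact Or.inl rfl
  · exact Or.inr rfl

/-- the sign character of a square root -/
noncomputable def chi (z : L) (hz : (z : ℂ) ^ 2 ∈ K₀) (hz0 : (z : ℂ) ≠ 0) :
    (L ≃ₐ[K₀] L) →* ℝ where
  toFun := sgn z
  map_one' := by simp [sgn]
  map_mul' := by
    intro g h
    have h0 : z ^ 2 = algebraMap K₀ L ⟨(z : ℂ) ^ 2, hz⟩ := by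
      apply Subtype.ext
      rfl
    have h1 := sgn_spec hz (g * h)
    have h2 := sgn_spec hz g
    have h3 := sgn_spec hz h
    have h4 : (((g * h) z : L) : ℂ) = ((sgn z g : ℝ) : ℂ) * ((sgn z h : ℝ) : ℂ) * (z : ℂ) := by
      rw [AlgEquiv.mul_apply]
      rcases sgn_or z h with h5 | h5
      · rw [h5] at h3 ⊢
        have h6 : h z = z := by
          apply Subtype.ext
          rw [h3]; simp
        rw [h6, h2]; simp
      · rw [h5] at h3 ⊢
        have h6 : h z = -z := by
          apply Subtype.ext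
          rw [h3]; simp
        rw [h6, map_neg]
        push_cast
        rw [h2]; ring
    have h5 := h1.symm.trans h4
    have h6 := mul_right_cancel₀ hz0 h5
    exact_mod_cast h6

theorem chi_apply (z : L) (hz : (z : ℂ) ^ 2 ∈ K₀) (hz0 : (z : ℂ) ≠ 0) (g : L ≃ₐ[K₀] L) :
    chi z hz hz0 g = sgn z g := rfl

end

end Pool.Agent.Lib.MP_baf44c_co.FB
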